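import Mathlib

set_option autoImplicit false
set_option linter.unusedSectionVars false

/-!
Counting the lines with extremal sums.
-/

namespace Run7.h595

open Finset

namespace Cnt

variable {H Z : Type} [AddCommGroup H] [Fintype H] [DecidableEq H] [Fintype Z]

theorem dich {p : ℕ} [Fact p.Prime] (hp2 : p ≠ 2) (b : Z → ℤ) (s : ℤ) (c0 : Z)
    (hodd : ∀ c, ¬ (2 : ℤ) ∣ b c) (hle : ∀ c, |b c| ≤ p)
    (hdvd : ∀ c, (p : ℤ) ∣ b c - b c0) (hsum : ∑ c, b c = p * s) (hZ : Fintype.card Z = p) :
    ((p : ℤ) ∣ b c0 ∧ ∀ c, b c = p ∨ b c = -p) ∨ (¬ (p : ℤ) ∣ b c0 ∧ ∀ c, b c = s) := by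
  have hp : p.Prime := Fact.out
  have hpZ : (0 : ℤ) < p := by exact_mod_cast hp.pos
  by_cases h : (p : ℤ) ∣ b c0
  · left
    refine ⟨h, fun c => ?_⟩
    have h1 : (p : ℤ) ∣ b c := by
      have := dvd_add (hdvd c) h
      rwa [sub_add_cancel] at this
    obtain ⟨k, hk⟩ := h1
    have h2 := hle c
    have h3 := hodd c
    rw [hk, abs_mul, abs_of_pos hpZ] at h2
    have h4 : |k| ≤ 1 := by
      by_contra hlt
      have : 2 ≤ |k| := by omega
      nlinarith
    have h5 : k ≠ 0 := by
      rintro rfl
      exact h3 (by rw [hk]; simp)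
    rw [abs_le] at h4
    have h6 : k = 1 ∨ k = -1 := by omega
    rcases h6 with h6 | h6
    · left; rw [hk, h6]; ring
    · right; rw [hk, h6]; ring
  · right
    refine ⟨h, ?_⟩
    have hcop : IsCoprime (2 : ℤ) (p : ℤ) := by
      have : Nat.Coprime 2 p := (Nat.coprime_primes Nat.prime_two hp).2 (Ne.symm hp2)
      exact_mod_cast Nat.isCoprime_iff_coprime.2 this
    have hlt : ∀ c, |b c| < p := by
      intro c
      refine lt_of_le_of_ne (hle c) fun he => ?_
      have h1 : (p : ℤ) ∣ b c := by
        rcases (abs_eq hpZ.le).1 he with h | h <;> rw [h]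
        exact dvd_neg.2 dvd_rfl
      apply h
      have := dvd_sub h1 (hdvd c)
      rwa [sub_sub_cancel] at this
    have heq : ∀ c, b c = b c0 := by
      intro c
      have h2 : (2 : ℤ) ∣ b c - b c0 := by
        have h3 := hodd c
        have h4 := hodd c0
        omega
      have h5 : (2 : ℤ) * p ∣ b c - b c0 := hcop.mul_dvd h2 (hdvd c)
      have h6 := Int.eq_zero_of_abs_lt_dvd h5 (by
        have h7 := abs_lt.1 (hlt c)
        have h8 := abs_lt.1 (hlt c0)
        rw [abs_lt]
        constructor <;> linarith [h7.1, h7.2, h8.1, h8.2])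
      linarith
    have hb : b c0 = s := by
      rw [Finset.sum_congr rfl fun c _ => heq c, Finset.sum_const, Finset.card_univ, hZ,
        nsmul_eq_mul] at hsum
      exact mul_left_cancel₀ hpZ.ne' hsum
    intro c
    rw [heq c, hb]

/-- The lines with extremal sums. -/
theorem count {p : ℕ} [Fact p.Prime] (hp2 : p ≠ 2) (B : H → Z → ℤ) (s : H → ℤ) (c0 : Z)
    (hZ : Fintype.card Z = p)
    (hodd : ∀ h c, ¬ (2 : ℤ) ∣ B h c) (hle : ∀ h c, |B h c| ≤ p)
    (hdvd : ∀ h c, (p : ℤ) ∣ B h c - B h c0) (hs : ∀ h, s h = 1 ∨ s h = -1)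
    (hsum : ∀ h, ∑ c, B h c = p * s h)
    (hsq : ∑ h, ∑ c, B h c * B h c = Fintype.card H * (p : ℤ) ^ 2)
    (hcor : ∀ d, d ≠ 0 → ∑ h, ∑ c, B h c * B (h + d) c = 0)
    (hscor : ∀ d, d ≠ 0 → ∑ h, s h * s (h + d) = 0) :
    ∃ U : Finset H, (p + 1) * U.card = Fintype.card H ∧
      ∀ d, d ≠ 0 → (p : ℤ) ∣ ∑ h, if h ∈ U ∧ h + d ∈ U then s h * s (h + d) else 0 := by
  have hp : p.Prime := Fact.out
  have hpZ : (0 : ℤ) < p := by exact_mod_cast hp.pos
  have hd := fun h => dich hp2 (B h) (s h) c0 (hodd h) (hle h) (hdvd h) (hsum h) hZ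
  refine ⟨univ.filter (fun h => (p : ℤ) ∣ B h c0), ?_, ?_⟩
  · set U := univ.filter (fun h => (p : ℤ) ∣ B h c0) with hU
    have h1 : ∀ h, ∑ c, B h c * B h c = (p : ℤ) + if h ∈ U then ((p : ℤ) ^ 3 - p) else 0 := by
      intro h
      rcases hd h with ⟨h2, h3⟩ | ⟨h2, h3⟩
      · have h4 : ∀ c ∈ (univ : Finset Z), B h c * B h c = (p : ℤ) ^ 2 := by
          intro c _
          rcases h3 c with h | h <;> rw [h] <;> ring
        rw [Finset.sum_congr rfl h4, Finset.sum_const, Finset.card_univ, hZ,
          if_pos (by simp [hU, h2])]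
        simp
        ring
      · have h4 : ∀ c ∈ (univ : Finset Z), B h c * B h c = 1 := by
          intro c _
          rw [h3 c]
          rcases hs h with h | h <;> rw [h] <;> norm_num
        rw [Finset.sum_congr rfl h4, Finset.sum_const, Finset.card_univ, hZ,
          if_neg (by simp [hU, h2])]
        simp
    rw [Finset.sum_congr rfl fun h _ => h1 h, Finset.sum_add_distrib, Finset.sum_const,
      Finset.card_univ, Finset.sum_ite_mem, Finset.univ_inter, Finset.sum_const, nsmul_eq_mul,
      nsmul_eq_mul] at hsq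
    have h2 : (p : ℤ) * ((p : ℤ) - 1) * (((p : ℤ) + 1) * U.card) =
        (p : ℤ) * ((p : ℤ) - 1) * Fintype.card H := by
      linear_combination hsq
    have h3 : (p : ℤ) * ((p : ℤ) - 1) ≠ 0 := by
      have : (2 : ℤ) ≤ p := by exact_mod_cast hp.two_le
      nlinarith
    exact_mod_cast mul_left_cancel₀ h3 h2
  · intro d hd0
    set U := univ.filter (fun h => (p : ℤ) ∣ B h c0) with hU
    have h1 : ∀ h, (p : ℤ) ^ 2 ∣ ∑ c, B h c * B (h + d) c -
        (if h ∈ U ∧ h + d ∈ U then 0 else (p : ℤ) * (s h * s (h + d))) := by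
      intro h
      rcases hd h with ⟨h2, h3⟩ | ⟨h2, h3⟩
      · rcases hd (h + d) with ⟨h4, h5⟩ | ⟨h4, h5⟩
        · rw [if_pos (by simp [hU, h2, h4]), sub_zero]
          refine Finset.dvd_sum fun c _ => ?_
          rw [sq]
          refine mul_dvd_mul ?_ ?_
          · rcases h3 c with h | h <;> rw [h]
            exact dvd_neg.2 dvd_rfl
          · rcases h5 c with h | h <;> rw [h]
            exact dvd_neg.2 dvd_rfl
        · rw [if_neg (by simp [hU, h4]), Finset.sum_congr rfl fun c _ => by rw [h5 c],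
            ← Finset.sum_mul, hsum]
          rw [show (p : ℤ) * s h * s (h + d) - p * (s h * s (h + d)) = 0 by ring]
          exact dvd_zero _
      · rw [if_neg (by simp [hU, h2]), Finset.sum_congr rfl fun c _ => by rw [h3 c],
            ← Finset.mul_sum, hsum]
        rw [show s h * (p * s (h + d)) - p * (s h * s (h + d)) = 0 by ring]
        exact dvd_zero _
    have h2 : (p : ℤ) ^ 2 ∣ ∑ h, (∑ c, B h c * B (h + d) c -
        (if h ∈ U ∧ h + d ∈ U then 0 else (p : ℤ) * (s h * s (h + d)))) :=
      Finset.dvd_sum fun h _ => h1 h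
    rw [Finset.sum_sub_distrib, hcor d hd0] at h2
    have h3 : ∑ h, (if h ∈ U ∧ h + d ∈ U then 0 else (p : ℤ) * (s h * s (h + d))) =
        - ((p : ℤ) * ∑ h, if h ∈ U ∧ h + d ∈ U then s h * s (h + d) else 0) := by
      have h4 : ∀ h, (if h ∈ U ∧ h + d ∈ U then 0 else (p : ℤ) * (s h * s (h + d))) =
          p * (s h * s (h + d)) - p * (if h ∈ U ∧ h + d ∈ U then s h * s (h + d) else 0) := by
        intro h; split_ifs <;> ring
      rw [Finset.sum_congr rfl fun h _ => h4 h, Finset.sum_sub_distrib, ← Finset.mul_sum,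
        ← Finset.mul_sum, hscor d hd0]
      ring
    rw [h3, zero_sub, neg_neg, sq] at h2
    exact Int.dvd_of_mul_dvd_mul_left hpZ.ne' h2

/-- sum of a function invariant under a translation -/
theorem order_dvd_sum (t : H) (f : H → ℤ) (hf : ∀ c, f (c + t) = f c) :
    (addOrderOf t : ℤ) ∣ ∑ c, f c := by
  classical
  set T := AddSubgroup.zmultiples t with hT
  have hcard : Nat.card T = addOrderOf t := by rw [hT, Nat.card_zmultiples]
  have hinv : ∀ k : ℤ, ∀ c, f (c + k • t) = f c := by
    intro k
    induction k using Int.induction_on with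
    | zero => intro c; simp
    | succ i ih =>
      intro c
      rw [add_smul, one_smul, ← add_assoc, hf, ih]
    | pred i ih =>
      intro c
      have := hf (c + (-(i : ℤ) - 1) • t)
      rw [← this, add_assoc, sub_smul, one_smul, sub_add_cancel, ih]
  have hinvT : ∀ c c' : H, c' ∈ T → f (c + c') = f c := by
    intro c c' hc'
    obtain ⟨k, rfl⟩ := AddSubgroup.mem_zmultiples_iff.1 hc'
    exact hinv k c
  have key : ∑ c, f c = ∑ q : H ⧸ T, (addOrderOf t : ℤ) * f (Quotient.out q) := by
    rw [← Equiv.sum_comp (AddSubgroup.addGroupEquivQuotientProdAddSubgroup (s := T)).symm,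
      Fintype.sum_prod_type]
    refine Finset.sum_congr rfl fun q _ => ?_
    have : ∀ x : T, f ((AddSubgroup.addGroupEquivQuotientProdAddSubgroup (s := T)).symm (q, x)) =
        f (Quotient.out q) := by
      intro x
      have h1 : (AddSubgroup.addGroupEquivQuotientProdAddSubgroup (s := T)).symm (q, x) -
          Quotient.out q ∈ T := by
        rw [← QuotientAddGroup.eq_iff_sub_mem]
        have h2 : ((AddSubgroup.addGroupEquivQuotientProdAddSubgroup (s := T)).symm (q, x) :
            H ⧸ T) = q := by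
          have := (AddSubgroup.addGroupEquivQuotientProdAddSubgroup (s := T)).apply_symm_apply (q, x)
          exact congrArg Prod.fst this
        rw [h2]
        exact (Quotient.out_eq' q).symm
      have h3 := hinvT (Quotient.out q) _ h1
      rwa [add_sub_cancel] at h3
    rw [Finset.sum_congr rfl fun x _ => this x, Finset.sum_const, Finset.card_univ,
      ← Nat.card_eq_fintype_card, hcard]
    simp
  rw [key]
  exact Finset.dvd_sum fun q _ => Dvd.intro _ rfl

/-- a finite set closed under a translation has size divisible by the order -/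
theorem order_dvd (U : Finset H) (d : H) (hU : ∀ h ∈ U, h + d ∈ U) :
    addOrderOf d ∣ U.card := by
  have himg : U.image (· + d) = U := by
    apply Finset.eq_of_subset_of_card_le
    · intro x hx
      obtain ⟨h, hh, rfl⟩ := Finset.mem_image.1 hx
      exact hU h hh
    · rw [Finset.card_image_of_injective _ (add_left_injective d)]
  have h1 : ∀ h, h + d ∈ U ↔ h ∈ U := by
    intro h
    constructor
    · intro hh
      rw [← himg] at hh
      obtain ⟨h', hh', he⟩ := Finset.mem_image.1 hh
      have : h' = h := add_right_cancel he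
      rwa [← this]
    · exact hU h
  have h2 := order_dvd_sum d (fun h => if h ∈ U then 1 else 0) (by intro c; simp [h1 c])
  rw [Finset.sum_ite_mem, Finset.univ_inter, Finset.sum_const] at h2
  simp only [nsmul_eq_mul, mul_one] at h2
  exact_mod_cast h2

/-- the sum of a `±1`-valued function with extremal absolute value -/
theorem extremal {ι : Type} (E : Finset ι) (t : ι → ℤ) (ht : ∀ i ∈ E, t i = 1 ∨ t i = -1)
    (h : |∑ i ∈ E, t i| = E.card) : ∃ ε : ℤ, ∀ i ∈ E, t i = ε := by
  rcases (abs_eq (by positivity)).1 h with h | h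
  · refine ⟨1, ?_⟩
    have h1 : ∀ i ∈ E, 0 ≤ 1 - t i := by
      intro i hi
      rcases ht i hi with h | h <;> rw [h] <;> norm_num
    have h2 : ∑ i ∈ E, (1 - t i) = 0 := by
      rw [Finset.sum_sub_distrib, h]; simp
    intro i hi
    have := (Finset.sum_eq_zero_iff_of_nonneg h1).1 h2 i hi
    linarith
  · refine ⟨-1, ?_⟩
    have h1 : ∀ i ∈ E, 0 ≤ 1 + t i := by
      intro i hi
      rcases ht i hi with h | h <;> rw [h] <;> norm_num
    have h2 : ∑ i ∈ E, (1 + t i) = 0 := by
      rw [Finset.sum_add_distrib, h]; simp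
    intro i hi
    have := (Finset.sum_eq_zero_iff_of_nonneg h1).1 h2 i hi
    linarith

/-- size of a sum of `±1`s -/
theorem abs_sum_le {ι : Type} (E : Finset ι) (t : ι → ℤ) (ht : ∀ i ∈ E, t i = 1 ∨ t i = -1) :
    |∑ i ∈ E, t i| ≤ E.card := by
  refine (Finset.abs_sum_le_sum_abs _ _).trans ?_
  have h : (E.card : ℤ) = ∑ i ∈ E, (1 : ℤ) := by simp
  rw [h]
  refine Finset.sum_le_sum fun i hi => ?_
  rcases ht i hi with h | h <;> rw [h] <;> norm_num

/-- the double sum -/
theorem sum_sq_eq (U : Finset H) (s : H → ℤ) :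
    (∑ h ∈ U, s h) ^ 2 = ∑ d, ∑ h, if h ∈ U ∧ h + d ∈ U then s h * s (h + d) else 0 := by
  have h1 : ∑ h ∈ U, s h = ∑ h, if h ∈ U then s h else 0 := by
    rw [Finset.sum_ite_mem, Finset.univ_inter]
  rw [sq, h1, Finset.sum_mul_sum, Finset.sum_comm]
  have h2 : ∀ h : H, ∑ h', (if h' ∈ U then s h' else 0) * (if h ∈ U then s h else 0) =
      ∑ d, if h ∈ U ∧ h + d ∈ U then s h * s (h + d) else 0 := by
    intro h
    rw [← Equiv.sum_comp (Equiv.addLeft h)]
    refine Finset.sum_congr rfl fun d _ => ?_
    simp only [Equiv.coe_addLeft]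
    by_cases h3 : h ∈ U <;> by_cases h4 : h + d ∈ U <;> simp [h3, h4, mul_comm]
  rw [Finset.sum_congr rfl fun h _ => h2 h, Finset.sum_comm]

/-- **Lower bound** for the number of extremal lines. -/
theorem lower {p : ℕ} (hp : p.Prime) (hp5 : 5 ≤ p) (U : Finset H) (s : H → ℤ)
    (hs : ∀ h, s h = 1 ∨ s h = -1) (hH : ¬ p ∣ Fintype.card H)
    (hsq : ∃ m : ℕ, Fintype.card H = m ^ 2)
    (hcard : (p + 1) * U.card = Fintype.card H)
    (hR : ∀ d, d ≠ 0 → (p : ℤ) ∣ ∑ h, if h ∈ U ∧ h + d ∈ U then s h * s (h + d) else 0) :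
    p + 2 ≤ U.card := by
  by_contra hlt
  have hk : U.card ≤ p + 1 := by omega
  -- the sets of pairs
  have hfil : ∀ d, ∑ h, (if h ∈ U ∧ h + d ∈ U then s h * s (h + d) else 0) =
      ∑ h ∈ U.filter (fun h => h + d ∈ U), s h * s (h + d) := by
    intro d
    have h1 : ∀ h ∈ (univ : Finset H), (if h ∈ U ∧ h + d ∈ U then s h * s (h + d) else 0) =
        if h ∈ U then (if h + d ∈ U then s h * s (h + d) else 0) else 0 := by
      intro h _
      by_cases h3 : h ∈ U <;> by_cases h4 : h + d ∈ U <;> simp [h3, h4]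
    rw [Finset.sum_congr rfl h1, Finset.sum_ite_mem, Finset.univ_inter, ← Finset.sum_filter]
  have hpm : ∀ d, ∀ h ∈ U.filter (fun h => h + d ∈ U), s h * s (h + d) = 1 ∨
      s h * s (h + d) = -1 := by
    intro d h _
    rcases hs h with h1 | h1 <;> rcases hs (h + d) with h2 | h2 <;> rw [h1, h2] <;> norm_num
  have hle : ∀ d, |∑ h, (if h ∈ U ∧ h + d ∈ U then s h * s (h + d) else 0)| ≤
      ((U.filter (fun h => h + d ∈ U)).card : ℤ) := by
    intro d
    rw [hfil]
    exact abs_sum_le _ _ (hpm d)
  -- some correlation is nonzero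
  have hex : ∃ d, d ≠ 0 ∧ ∑ h, (if h ∈ U ∧ h + d ∈ U then s h * s (h + d) else 0) ≠ 0 := by
    by_contra hno
    push Not at hno
    have h1 := sum_sq_eq U s
    rw [Finset.sum_eq_single 0 (fun d _ hd => hno d hd)
      (fun h => absurd (Finset.mem_univ _) h)] at h1
    have h2 : ∑ h, (if h ∈ U ∧ h + 0 ∈ U then s h * s (h + 0) else 0) = U.card := by
      have h3 : ∀ h ∈ (univ : Finset H), (if h ∈ U ∧ h + 0 ∈ U then s h * s (h + 0) else 0) =
          if h ∈ U then 1 else 0 := by
        intro h _
        by_cases h3 : h ∈ U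
        · rcases hs h with h1 | h1 <;> simp [h3, h1]
        · simp [h3]
      rw [Finset.sum_congr rfl h3, Finset.sum_ite_mem, Finset.univ_inter]
      simp
    rw [h2] at h1
    obtain ⟨m, hm⟩ := hsq
    set k := (∑ h ∈ U, s h).natAbs with hkdef
    have h4 : k ^ 2 = U.card := by
      have : ((k : ℤ)) ^ 2 = U.card := by rw [← h1, hkdef, Int.natCast_natAbs, sq_abs]
      exact_mod_cast this
    rw [← h4, hm] at hcard
    have hm0 : m ≠ 0 := by
      rintro rfl
      have : Fintype.card H ≠ 0 := Fintype.card_ne_zero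
      exact this (by rw [hm]; rfl)
    have hk0 : k ≠ 0 := by
      rintro h0
      rw [h0] at hcard
      have : m ^ 2 ≠ 0 := pow_ne_zero _ hm0
      exact this (by rw [← hcard]; simp)
    have h5 : k ∣ m := by
      rw [← Nat.pow_dvd_pow_iff (n := 2) (by norm_num)]
      exact Dvd.intro_left _ hcard
    obtain ⟨r, rfl⟩ := h5
    have h6 : p + 1 = r ^ 2 := by
      have : k ^ 2 * (p + 1) = k ^ 2 * r ^ 2 := by rw [mul_comm, hcard]; ring
      exact Nat.eq_of_mul_eq_mul_left (pow_pos (Nat.pos_of_ne_zero hk0) 2) this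
    have h7 : 3 ≤ r := by
      by_contra h
      have : r ≤ 2 := by omega
      nlinarith
    obtain ⟨q, rfl⟩ : ∃ q, r = q + 2 := ⟨r - 2, by omega⟩
    have h8 : p = (q + 1) * (q + 3) := by nlinarith
    have h9 := hp.eq_one_or_self_of_dvd (q + 1) (Dvd.intro _ h8.symm)
    rcases h9 with h9 | h9
    · omega
    · nlinarith
  obtain ⟨d, hd0, hd⟩ := hex
  have h1 : (p : ℤ) ≤ |∑ h, (if h ∈ U ∧ h + d ∈ U then s h * s (h + d) else 0)| := by
    have := Int.le_of_dvd (abs_pos.2 hd) ((dvd_abs _ _).2 (hR d hd0))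
    exact this
  have h2 : p ≤ (U.filter (fun h => h + d ∈ U)).card := by
    have := h1.trans (hle d)
    exact_mod_cast this
  have hopos : 0 < addOrderOf d := addOrderOf_pos d
  have ho : addOrderOf d ∣ Fintype.card H := addOrderOf_dvd_card
  have ho1 : addOrderOf d ≠ 1 := by
    rw [Ne, AddMonoid.addOrderOf_eq_one_iff]; exact hd0
  have hop : addOrderOf d ≠ p := by
    intro h; rw [h] at ho; exact hH ho
  have hndp : ¬ addOrderOf d ∣ p := by
    intro h
    rcases hp.eq_one_or_self_of_dvd _ h with h | h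
    · exact ho1 h
    · exact hop h
  have hsub : (U.filter (fun h => h + d ∈ U)).card ≤ U.card := Finset.card_filter_le _ _
  -- there is exactly one exit
  have hne : (U.filter (fun h => h + d ∈ U)).card ≠ U.card := by
    intro h
    have h3 : ∀ h ∈ U, h + d ∈ U := by
      have h4 := Finset.filter_card_eq h
      intro x hx
      exact h4 x hx
    have h5 := order_dvd U d h3
    have h6 : U.card = p ∨ U.card = p + 1 := by omega
    rcases h6 with h6 | h6
    · rw [h6] at h5; exact hndp h5
    · -- then the correlation would be of the wrong parity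
      have h7 : |∑ h, (if h ∈ U ∧ h + d ∈ U then s h * s (h + d) else 0)| ≤ p + 1 := by
        have := hle d
        rw [h, h6] at this
        exact_mod_cast this
      have h8 : |∑ h, (if h ∈ U ∧ h + d ∈ U then s h * s (h + d) else 0)| = p := by
        obtain ⟨c, hc⟩ := (dvd_abs _ _).2 (hR d hd0)
        rw [hc] at h1 h7 ⊢
        have hp5' : (5 : ℤ) ≤ p := by exact_mod_cast hp5
        have h9 : c = 1 := by
          have h10 : 0 < c := by
            by_contra hc0
            push Not at hc0
            nlinarith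
          have h11 : c < 2 := by
            by_contra hc0
            push Not at hc0
            nlinarith
          omega
        rw [h9, mul_one]
      have h9 : (2 : ℤ) ∣ ∑ h, (if h ∈ U ∧ h + d ∈ U then s h * s (h + d) else 0) -
          (U.filter (fun h => h + d ∈ U)).card := by
        rw [hfil]
        have : ((U.filter (fun h => h + d ∈ U)).card : ℤ) =
            ∑ h ∈ U.filter (fun h => h + d ∈ U), (1 : ℤ) := by simp
        rw [this, ← Finset.sum_sub_distrib]
        refine Finset.dvd_sum fun h hh => ?_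
        rcases hpm d h hh with h | h <;> rw [h] <;> norm_num
      rw [h, h6] at h9
      push_cast at h9
      have h10 : (2 : ℤ) ∣ p - (p + 1) := by
        rcases (abs_eq (by positivity)).1 h8 with h | h
        · rw [h] at h9; exact h9
        · rw [h] at h9; omega
      omega
  have hU1 : U.card = p + 1 := by omega
  have hF : (U.filter (fun h => h + d ∈ U)).card = p := by omega
  -- the exit
  obtain ⟨e, heU, hed, heuniq⟩ : ∃ e ∈ U, e + d ∉ U ∧ ∀ h ∈ U, h ≠ e → h + d ∈ U := by
    have h3 : (U.filter (fun h => ¬ h + d ∈ U)).card = 1 := by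
      have := Finset.card_filter_add_card_filter_not (s := U) (fun h => h + d ∈ U)
      omega
    obtain ⟨e, he⟩ := Finset.card_eq_one.1 h3
    have he1 : e ∈ U.filter (fun h => ¬ h + d ∈ U) := by rw [he]; simp
    rw [Finset.mem_filter] at he1
    refine ⟨e, he1.1, he1.2, fun h hh hne => ?_⟩
    by_contra hc
    have : h ∈ U.filter (fun h => ¬ h + d ∈ U) := Finset.mem_filter.2 ⟨hh, hc⟩
    rw [he, Finset.mem_singleton] at this
    exact hne this
  have hco : Nat.Coprime (Fintype.card H) (p + 2) := by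
    rw [← hcard, hU1]
    have : Nat.Coprime (p + 1) (p + 2) := by
      have := Nat.coprime_self_add_right (m := p + 1) (n := 1)
      rw [show p + 2 = p + 1 + 1 by ring]
      exact (Nat.coprime_self_add_right).2 (Nat.coprime_one_right _)
    exact Nat.Coprime.mul_left this this
  -- the entrance is not the exit
  have hed' : e - d ∈ U := by
    by_contra hc
    have h3 : ∀ h ∈ U.erase e, h + d ∈ U.erase e := by
      intro h hh
      rw [Finset.mem_erase] at hh ⊢
      refine ⟨?_, heuniq h hh.2 hh.1⟩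
      intro he
      apply hc
      rw [← he, add_sub_cancel_right]
      exact hh.2
    have h4 := order_dvd _ d h3
    rw [Finset.card_erase_of_mem heU, hU1, Nat.add_sub_cancel] at h4
    exact hndp h4
  have he2 : e + d + d ∉ U := by
    intro hc
    have h3 : ∀ h ∈ insert (e + d) U, h + d ∈ insert (e + d) U := by
      intro h hh
      rw [Finset.mem_insert] at hh ⊢
      rcases hh with hh | hh
      · right; rw [hh]; exact hc
      · by_cases h4 : h = e
        · left; rw [h4]
        · right; exact heuniq h hh h4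
    have h4 := order_dvd _ d h3
    rw [Finset.card_insert_of_notMem hed, hU1] at h4
    have h5 : addOrderOf d ∣ 1 := by
      have := Nat.dvd_gcd ho h4
      rwa [hco.gcd_eq_one] at this
    exact ho1 (Nat.dvd_one.1 h5)
  have hdd : d + d ≠ 0 := by
    intro h
    apply he2
    rw [add_assoc, h, add_zero]
    exact heU
  have hde : e - d ≠ e := by
    intro h
    exact hd0 (by simpa using h)
  -- the correlations at `d` are all equal
  have habs : |∑ h ∈ U.filter (fun h => h + d ∈ U), s h * s (h + d)| =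
      (U.filter (fun h => h + d ∈ U)).card := by
    apply le_antisymm (abs_sum_le _ _ (hpm d))
    rw [hF, ← hfil]
    exact h1
  obtain ⟨ε, hε⟩ := extremal _ _ (hpm d) habs
  have hR2 := hR _ hdd
  rw [hfil] at hR2
  have hF2 : U.filter (fun h => h + (d + d) ∈ U) = (U.erase e).erase (e - d) := by
    ext h
    simp only [Finset.mem_filter, Finset.mem_erase]
    constructor
    · rintro ⟨hh, hh2⟩
      refine ⟨?_, ?_, hh⟩
      · rintro rfl
        apply hed
        rw [show e - d + (d + d) = e + d by abel] at hh2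
        exact hh2
      · rintro rfl
        exact he2 (by rw [add_assoc]; exact hh2)
    · rintro ⟨hh1, hh2, hh⟩
      refine ⟨hh, ?_⟩
      rw [← add_assoc]
      refine heuniq _ (heuniq _ hh hh2) ?_
      intro h3
      apply hh1
      rw [← h3, add_sub_cancel_right]
  have hF2c : (U.filter (fun h => h + (d + d) ∈ U)).card = p - 1 := by
    rw [hF2, Finset.card_erase_of_mem (Finset.mem_erase.2 ⟨hde, hed'⟩),
      Finset.card_erase_of_mem heU, hU1]
    omega
  have hall : ∀ h ∈ U.filter (fun h => h + (d + d) ∈ U), s h * s (h + (d + d)) = 1 := by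
    intro h hh
    rw [hF2, Finset.mem_erase, Finset.mem_erase] at hh
    obtain ⟨hh1, hh2, hh3⟩ := hh
    have h3 : h + d ∈ U := heuniq _ hh3 hh2
    have h4 : h + d ≠ e := by
      intro h4
      apply hh1
      rw [← h4, add_sub_cancel_right]
    have h5 : h + d + d ∈ U := heuniq _ h3 h4
    have h6 := hε h (Finset.mem_filter.2 ⟨hh3, h3⟩)
    have h7 := hε (h + d) (Finset.mem_filter.2 ⟨h3, h5⟩)
    rw [← add_assoc]
    rcases hs h with a1 | a1 <;> rcases hs (h + d) with a2 | a2 <;>
      rcases hs (h + d + d) with a3 | a3 <;> rw [a1, a2] at h6 <;> rw [a2, a3] at h7 <;>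
      rw [a1, a3] <;> first | (exfalso; linarith) | norm_num
  rw [Finset.sum_congr rfl hall, Finset.sum_const, hF2c] at hR2
  simp only [nsmul_eq_mul, mul_one] at hR2
  have h3 : p ∣ p - 1 := by exact_mod_cast hR2
  have := Nat.le_of_dvd (by omega) h3
  omega

end Cnt

end Run7.h595
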