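import Mathlib

set_option autoImplicit false

/-!
Divisibility of group ring elements of `ℤ[H × ℤ/p^(n+1)]` with small autocorrelation,
for a prime `p` self-conjugate modulo the exponent of `H`.
-/

namespace Run7.h595

open Finset

namespace Div

/-- sum of an invariant function -/
theorem dvd_sum_of_inv {p n : ℕ} [Fact p.Prime] (f : ZMod (p ^ (n + 1)) → ℤ)
    (hf : ∀ c, f (c + ((p ^ n : ℕ) : ZMod (p ^ (n + 1)))) = f c) : (p : ℤ) ∣ ∑ c, f c := by
  have hp : p.Prime := Fact.out
  have : NeZero (p ^ (n + 1)) := ⟨pow_ne_zero _ hp.ne_zero⟩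
  set t : ZMod (p ^ (n + 1)) := ((p ^ n : ℕ) : ZMod (p ^ (n + 1))) with ht
  set T := AddSubgroup.zmultiples t with hT
  have hcard : Nat.card T = p := by
    rw [hT, Nat.card_zmultiples, ht, ZMod.addOrderOf_coe _ (NeZero.ne _)]
    rw [Nat.gcd_eq_right (pow_dvd_pow p (Nat.le_succ n)), pow_succ]
    exact Nat.mul_div_cancel_left _ (pow_pos hp.pos _)
  have hinv : ∀ k : ℤ, ∀ c, f (c + k • t) = f c := by
    intro k
    induction k using Int.induction_on with
    | zero => intro c; simp
    | succ i ih =>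
      intro c
      rw [add_smul, one_smul, ← add_assoc, hf, ih]
    | pred i ih =>
      intro c
      have := hf (c + (-(i : ℤ) - 1) • t)
      rw [← this, add_assoc, sub_smul, one_smul, sub_add_cancel, ih]
  have hinvT : ∀ c c' : ZMod (p ^ (n + 1)), c' ∈ T → f (c + c') = f c := by
    intro c c' hc'
    obtain ⟨k, rfl⟩ := AddSubgroup.mem_zmultiples_iff.1 hc'
    exact hinv k c
  have e := (AddSubgroup.addGroupEquivQuotientProdAddSubgroup (s := T))
  classical
  have key : ∑ c, f c = ∑ q : ZMod (p ^ (n + 1)) ⧸ T, (p : ℤ) * f (Quotient.out q) := by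
    rw [← Equiv.sum_comp (AddSubgroup.addGroupEquivQuotientProdAddSubgroup (s := T)).symm,
      Fintype.sum_prod_type]
    refine Finset.sum_congr rfl fun q _ => ?_
    have : ∀ x : T, f ((AddSubgroup.addGroupEquivQuotientProdAddSubgroup (s := T)).symm (q, x)) =
        f (Quotient.out q) := by
      intro x
      have h1 : (AddSubgroup.addGroupEquivQuotientProdAddSubgroup (s := T)).symm (q, x) -
          Quotient.out q ∈ T := by
        rw [← QuotientAddGroup.eq_iff_sub_mem]
        have h2 : ((AddSubgroup.addGroupEquivQuotientProdAddSubgroup (s := T)).symm (q, x) :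
            ZMod (p ^ (n + 1)) ⧸ T) = q := by
          have := (AddSubgroup.addGroupEquivQuotientProdAddSubgroup (s := T)).apply_symm_apply (q, x)
          exact congrArg Prod.fst this
        rw [h2]
        exact (Quotient.out_eq' q).symm
      have h3 := hinvT (Quotient.out q) _ h1
      rwa [add_sub_cancel] at h3
    rw [Finset.sum_congr rfl fun x _ => this x, Finset.sum_const, Finset.card_univ,
      ← Nat.card_eq_fintype_card, hcard]
    simp
  rw [key]
  exact Finset.dvd_sum fun q _ => Dvd.intro _ rfl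


variable (p n : ℕ) (H : Type) [AddCommGroup H]

/-- the group ring `ℤ[H × ℤ/p^(n+1)]` -/
abbrev A := AddMonoidAlgebra ℤ (H × ZMod (p ^ (n + 1)))

/-- the residue group ring -/
abbrev F := AddMonoidAlgebra (ZMod p) H

/-- a generator of the cyclic factor -/
noncomputable def y : A p n H := AddMonoidAlgebra.single (0, 1) 1

/-- a generator of the subgroup of order `p` of the cyclic factor -/
noncomputable def tau : A p n H :=
  AddMonoidAlgebra.single (0, ((p ^ n : ℕ) : ZMod (p ^ (n + 1)))) 1

/-- the involution of the group ring -/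
noncomputable def star : A p n H →+* A p n H :=
  AddMonoidAlgebra.mapDomainRingHom ℤ (-(AddMonoidHom.id (H × ZMod (p ^ (n + 1)))))

/-- the involution of the residue group ring -/
noncomputable def starF : F p H →+* F p H :=
  AddMonoidAlgebra.mapDomainRingHom (ZMod p) (-(AddMonoidHom.id H))

/-- the reduction -/
noncomputable def red : A p n H →+* F p H :=
  (AddMonoidAlgebra.mapRingHom H (Int.castRingHom (ZMod p))).comp
    (AddMonoidAlgebra.mapDomainRingHom ℤ (AddMonoidHom.fst H (ZMod (p ^ (n + 1)))))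

theorem y_pow (k : ℕ) : y p n H ^ k = AddMonoidAlgebra.single (0, (k : ZMod (p ^ (n + 1)))) 1 := by
  rw [y, AddMonoidAlgebra.single_pow]
  simp

theorem tau_eq : tau p n H = y p n H ^ (p ^ n) := by
  rw [y_pow, tau]

theorem y_pow_N : y p n H ^ (p ^ (n + 1)) = 1 := by
  rw [y_pow, ZMod.natCast_self]
  rfl

theorem tau_pow_p : tau p n H ^ p = 1 := by
  rw [tau_eq, ← pow_mul, ← pow_succ, y_pow_N]

theorem star_single (g : H × ZMod (p ^ (n + 1))) (x : ℤ) :
    star p n H (AddMonoidAlgebra.single g x) = AddMonoidAlgebra.single (-g) x := by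
  simp [star]

theorem starF_single (g : H) (x : ZMod p) :
    starF p H (AddMonoidAlgebra.single g x) = AddMonoidAlgebra.single (-g) x := by
  simp [starF]

theorem red_single (g : H × ZMod (p ^ (n + 1))) (x : ℤ) :
    red p n H (AddMonoidAlgebra.single g x) = AddMonoidAlgebra.single g.1 (x : ZMod p) := by
  simp [red]

theorem red_star (a : A p n H) : red p n H (star p n H a) = starF p H (red p n H a) := by
  induction a using AddMonoidAlgebra.induction_linear with
  | zero => simp
  | add f g hf hg => simp [hf, hg]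
  | single a b => simp [star_single, starF_single, red_single]

theorem red_y : red p n H (y p n H) = 1 := by
  simp [y, red_single, AddMonoidAlgebra.one_def]

/-- the annihilator of `τ - 1` -/
noncomputable def J : Ideal (A p n H) := (Ideal.span {tau p n H - 1}).annihilator

theorem mem_J (a : A p n H) : a ∈ J p n H ↔ a * (tau p n H - 1) = 0 := by
  rw [J, Ideal.span, Submodule.mem_annihilator_span_singleton, smul_eq_mul]

theorem y_star : y p n H * star p n H (y p n H) = 1 := by
  rw [y, star_single, AddMonoidAlgebra.single_mul_single]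
  simp [AddMonoidAlgebra.one_def]
  rfl

theorem tau_star : tau p n H * star p n H (tau p n H) = 1 := by
  rw [tau, star_single, AddMonoidAlgebra.single_mul_single]
  simp [AddMonoidAlgebra.one_def]
  rfl

theorem star_star (a : A p n H) : star p n H (star p n H a) = a := by
  induction a using AddMonoidAlgebra.induction_linear with
  | zero => simp
  | add f g hf hg => simp [hf, hg]
  | single a b => simp [star_single]

theorem J_le_comap : J p n H ≤ (J p n H).comap (star p n H) := by
  intro a ha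
  rw [Ideal.mem_comap, mem_J]
  rw [mem_J] at ha
  have h1 : star p n H (a * (tau p n H - 1)) = 0 := by rw [ha, map_zero]
  rw [map_mul, map_sub, map_one] at h1
  have h2 : star p n H a * (star p n H (tau p n H) - 1) * tau p n H = 0 := by rw [h1, zero_mul]
  have h3 : star p n H a * (tau p n H - 1) =
      - (star p n H a * (star p n H (tau p n H) - 1) * tau p n H) := by
    have := tau_star p n H
    linear_combination (star p n H a) * this
  rw [h3, h2, neg_zero]

theorem J_inv (a : A p n H) (ha : a ∈ J p n H) (h : H) (c : ZMod (p ^ (n + 1))) :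
    a.coeff (h, c + ((p ^ n : ℕ) : ZMod (p ^ (n + 1)))) = a.coeff (h, c) := by
  rw [mem_J, mul_sub, mul_one, sub_eq_zero] at ha
  have h1 := congrArg (fun x => x.coeff (h, c + ((p ^ n : ℕ) : ZMod (p ^ (n + 1))))) ha
  simp only [tau] at h1
  rw [← h1, AddMonoidAlgebra.coeff_mul_single_apply]
  simp

theorem J_red [Fact p.Prime] [Finite H] (a : A p n H) (ha : a ∈ J p n H) : red p n H a = 0 := by
  classical
  have := Fintype.ofFinite H
  have hp : p.Prime := Fact.out
  have : NeZero (p ^ (n + 1)) := ⟨pow_ne_zero _ hp.ne_zero⟩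
  have key : a = ∑ g : H × ZMod (p ^ (n + 1)), AddMonoidAlgebra.single g (a.coeff g) := by
    conv_lhs => rw [← AddMonoidAlgebra.sum_coeff_single a]
    rw [Finsupp.sum_fintype]
    intro i; simp
  rw [key, map_sum, Fintype.sum_prod_type]
  refine Finset.sum_eq_zero fun h _ => ?_
  simp only [red_single]
  have : ∑ c : ZMod (p ^ (n + 1)), (AddMonoidAlgebra.single h ((a.coeff (h, c) : ℤ) : ZMod p) :
      F p H) = AddMonoidAlgebra.single h (((∑ c, a.coeff (h, c) : ℤ)) : ZMod p) := by
    push_cast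
    exact (map_sum (AddMonoidAlgebra.singleAddHom (R := ZMod p) h) _ _).symm
  rw [this, (ZMod.intCast_zmod_eq_zero_iff_dvd _ p).2 (dvd_sum_of_inv _ fun c => J_inv p n H a ha h c)]
  simp


open Polynomial in
/-- `Φ(y)` lies in `J` -/
theorem aeval_cyclotomic_mem [Fact p.Prime] :
    aeval (y p n H) (cyclotomic (p ^ (n + 1)) ℤ) ∈ J p n H := by
  rw [mem_J, cyclotomic_prime_pow_eq_geom_sum (Fact.out : p.Prime)]
  rw [map_sum]
  simp only [map_pow, aeval_X]
  rw [← tau_eq, mul_comm, mul_geom_sum, tau_pow_p, sub_self]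

open Polynomial in
theorem exists_quot_one [Fact p.Prime] :
    ∃ h : ℤ[X], cyclotomic (p ^ (n + 1)) ℤ = C (p : ℤ) + (X - 1) * h := by
  obtain ⟨h, hh⟩ := X_sub_C_dvd_sub_C_eval (a := (1 : ℤ)) (p := cyclotomic (p ^ (n + 1)) ℤ)
  rw [eval_one_cyclotomic_prime_pow] at hh
  refine ⟨h, ?_⟩
  rw [map_one] at hh
  rw [← hh]
  simp

open Polynomial in
theorem exists_quot_p [Fact p.Prime] :
    ∃ g : ℤ[X], cyclotomic (p ^ (n + 1)) ℤ = (X - 1) ^ (p ^ (n + 1) - p ^ n) + C (p : ℤ) * g ∧
      g.eval 1 = 1 := by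
  have hp : p.Prime := Fact.out
  have h1 : (cyclotomic (p ^ (n + 1)) ℤ).map (Int.castRingHom (ZMod p)) =
      ((X - 1) ^ (p ^ (n + 1) - p ^ n) : ℤ[X]).map (Int.castRingHom (ZMod p)) := by
    rw [map_cyclotomic]
    have := cyclotomic_mul_prime_pow_eq (ZMod p) (p := p) (m := 1)
      (fun h => hp.one_lt.ne' (Nat.dvd_one.1 h)) (k := n + 1) (Nat.succ_pos n)
    rw [mul_one, Nat.add_sub_cancel] at this
    rw [this, cyclotomic_one]
    simp
  have h2 : C (p : ℤ) ∣ cyclotomic (p ^ (n + 1)) ℤ - (X - 1) ^ (p ^ (n + 1) - p ^ n) := by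
    rw [C_dvd_iff_dvd_coeff]
    intro i
    rw [← ZMod.intCast_zmod_eq_zero_iff_dvd _ p]
    have h3 : (cyclotomic (p ^ (n + 1)) ℤ - (X - 1) ^ (p ^ (n + 1) - p ^ n)).map
        (Int.castRingHom (ZMod p)) = 0 := by
      rw [Polynomial.map_sub, h1, sub_self]
    have h4 := congrArg (fun q => q.coeff i) h3
    rw [coeff_map, coeff_zero] at h4
    rw [← h4]
    exact (eq_intCast (Int.castRingHom (ZMod p)) _).symm
  obtain ⟨g, hg⟩ := h2
  refine ⟨g, by rw [← hg]; ring, ?_⟩
  have h5 := congrArg (fun q => q.eval 1) hg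
  simp only [eval_sub, eval_mul, eval_C, eval_pow, eval_X, eval_one, sub_self] at h5
  rw [eval_one_cyclotomic_prime_pow] at h5
  have h6 : p ^ (n + 1) - p ^ n ≠ 0 := by
    have : p ^ n < p ^ (n + 1) := Nat.pow_lt_pow_right hp.one_lt (Nat.lt_succ_self n)
    omega
  rw [zero_pow h6, sub_zero] at h5
  have h7 : (p : ℤ) ≠ 0 := by exact_mod_cast hp.ne_zero
  have h8 : (p : ℤ) * (g.eval 1 - 1) = 0 := by
    linarith
  rcases mul_eq_zero.1 h8 with h | h
  · exact absurd h h7
  · linarith

/-- the quotient -/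
abbrev S := A p n H ⧸ J p n H

/-- reduction on the quotient -/
noncomputable def redS [Fact p.Prime] [Finite H] : S p n H →+* F p H :=
  Ideal.Quotient.lift (J p n H) (red p n H) (fun a ha => J_red p n H a ha)

/-- involution on the quotient -/
noncomputable def starS : S p n H →+* S p n H :=
  Ideal.quotientMap (J p n H) (star p n H) (J_le_comap p n H)

theorem redS_mk [Fact p.Prime] [Finite H] (a : A p n H) :
    redS p n H (Ideal.Quotient.mk _ a) = red p n H a := rfl

theorem starS_mk (a : A p n H) :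
    starS p n H (Ideal.Quotient.mk _ a) = Ideal.Quotient.mk _ (star p n H a) := rfl

theorem redS_starS [Fact p.Prime] [Finite H] (x : S p n H) :
    redS p n H (starS p n H x) = starF p H (redS p n H x) := by
  obtain ⟨a, rfl⟩ := Ideal.Quotient.mk_surjective x
  rw [starS_mk, redS_mk, redS_mk, red_star]

/-- the uniformiser -/
noncomputable def lam : S p n H := Ideal.Quotient.mk _ (y p n H - 1)

theorem redS_lam [Fact p.Prime] [Finite H] : redS p n H (lam p n H) = 0 := by
  rw [lam, redS_mk, map_sub, red_y, map_one, sub_self]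

theorem A_torsion (m : ℤ) (hm : m ≠ 0) (a : A p n H) (h : (m : A p n H) * a = 0) : a = 0 := by
  have h1 : m • a = 0 := by rwa [zsmul_eq_mul]
  ext g
  have h2 := congrArg (fun x => x.coeff g) h1
  simp only [AddMonoidAlgebra.coeff_smul, Finsupp.smul_apply, smul_eq_mul,
    AddMonoidAlgebra.coeff_zero, Finsupp.zero_apply] at h2
  simpa [hm] using h2

theorem S_torsion (m : ℤ) (hm : m ≠ 0) (x : S p n H) (h : (m : S p n H) * x = 0) : x = 0 := by
  obtain ⟨a, rfl⟩ := Ideal.Quotient.mk_surjective x
  have h1 : Ideal.Quotient.mk (J p n H) ((m : A p n H) * a) = 0 := by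
    rw [map_mul, map_intCast, h]
  rw [Ideal.Quotient.eq_zero_iff_mem, mem_J, mul_assoc] at h1
  rw [Ideal.Quotient.eq_zero_iff_mem, mem_J]
  exact A_torsion p n H m hm _ h1

open Polynomial in
/-- `p` is a multiple of the uniformiser -/
theorem p_mem_lam [Fact p.Prime] : ∃ w : S p n H, ((p : ℤ) : S p n H) = lam p n H * w := by
  obtain ⟨h, hh⟩ := exists_quot_one p n
  refine ⟨-Ideal.Quotient.mk _ (aeval (y p n H) h), ?_⟩
  have h1 := (Ideal.Quotient.eq_zero_iff_mem).2 (aeval_cyclotomic_mem p n H)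
  rw [hh] at h1
  rw [map_add, map_mul, map_sub, aeval_X, map_one, aeval_C] at h1
  have h2 : (algebraMap ℤ (A p n H)) (p : ℤ) = ((p : ℤ) : A p n H) := by simp
  rw [h2, map_add, map_intCast, map_mul] at h1
  rw [lam]
  linear_combination h1

open Polynomial in
/-- `λ^φ = - p g` with `g` reducing to `1` -/
theorem lam_pow [Fact p.Prime] [Finite H] : ∃ g : S p n H,
    lam p n H ^ (p ^ (n + 1) - p ^ n) = - (((p : ℤ) : S p n H) * g) ∧ redS p n H g = 1 := by
  obtain ⟨g, hg, hg1⟩ := exists_quot_p p n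
  refine ⟨Ideal.Quotient.mk _ (aeval (y p n H) g), ?_, ?_⟩
  · have h1 := (Ideal.Quotient.eq_zero_iff_mem).2 (aeval_cyclotomic_mem p n H)
    rw [hg, map_add, map_mul, map_pow, map_sub, aeval_X, map_one, aeval_C] at h1
    have h2 : (algebraMap ℤ (A p n H)) (p : ℤ) = ((p : ℤ) : A p n H) := by simp
    rw [h2, map_add, map_mul, map_intCast, map_pow] at h1
    rw [lam]
    linear_combination h1
  · rw [redS_mk]
    have h3 : red p n H (aeval (y p n H) g) = aeval (red p n H (y p n H)) g := by
      rw [aeval_def, hom_eval₂, aeval_def]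
      congr 1
      exact Subsingleton.elim _ _
    rw [h3, red_y]
    have h4 : (1 : F p H) = algebraMap ℤ (F p H) 1 := by simp
    rw [h4, aeval_algebraMap_apply, coe_aeval_eq_eval, hg1]


/-- projection to `ℤ[H]` -/
noncomputable def proj : A p n H →+* AddMonoidAlgebra ℤ H :=
  AddMonoidAlgebra.mapDomainRingHom ℤ (AddMonoidHom.fst H (ZMod (p ^ (n + 1))))

/-- inclusion of `ℤ[H]` -/
noncomputable def incl : AddMonoidAlgebra ℤ H →+* A p n H :=
  AddMonoidAlgebra.mapDomainRingHom ℤ (AddMonoidHom.inl H (ZMod (p ^ (n + 1))))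

theorem decomp [NeZero (p ^ (n + 1))] (a : A p n H) :
    ∃ c, a = incl p n H (proj p n H a) + (y p n H - 1) * c := by
  induction a using AddMonoidAlgebra.induction_linear with
  | zero => exact ⟨0, by simp⟩
  | add f g hf hg =>
    obtain ⟨c, hc⟩ := hf
    obtain ⟨d, hd⟩ := hg
    refine ⟨c + d, ?_⟩
    rw [map_add, map_add]
    linear_combination hc + hd
  | single g x =>
    obtain ⟨h, c⟩ := g
    obtain ⟨d, hd⟩ := sub_dvd_pow_sub_pow (y p n H) 1 c.val
    rw [one_pow, y_pow, ZMod.natCast_zmod_val] at hd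
    refine ⟨AddMonoidAlgebra.single (h, 0) x * d, ?_⟩
    have h1 : incl p n H (proj p n H (AddMonoidAlgebra.single (h, c) x)) =
        AddMonoidAlgebra.single (h, 0) x := by simp [incl, proj]
    have h2 : (AddMonoidAlgebra.single (h, c) x : A p n H) =
        AddMonoidAlgebra.single (h, 0) x * AddMonoidAlgebra.single (0, c) 1 := by
      rw [AddMonoidAlgebra.single_mul_single]; simp
    rw [h1, h2]
    linear_combination (AddMonoidAlgebra.single (h, 0) x) * hd

theorem redS_eq_zero [Fact p.Prime] [Finite H] (x : S p n H) (hx : redS p n H x = 0) :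
    ∃ z, x = lam p n H * z := by
  have hp : p.Prime := Fact.out
  have : NeZero (p ^ (n + 1)) := ⟨pow_ne_zero _ hp.ne_zero⟩
  obtain ⟨a, rfl⟩ := Ideal.Quotient.mk_surjective x
  rw [redS_mk] at hx
  obtain ⟨c, hc⟩ := decomp p n H a
  have h1 : AddMonoidAlgebra.mapRingHom H (Int.castRingHom (ZMod p)) (proj p n H a) = 0 := hx
  have h2 : ∃ b, proj p n H a = (p : ℤ) • b := by
    have h3 : ∀ g, (p : ℤ) ∣ (proj p n H a).coeff g := by
      intro g
      rw [← ZMod.intCast_zmod_eq_zero_iff_dvd _ p]
      have h4 := congrArg (fun z => z.coeff g) h1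
      simpa using h4
    choose f hf using h3
    have := Fintype.ofFinite H
    refine ⟨AddMonoidAlgebra.ofCoeff (Finsupp.equivFunOnFinite.symm f), ?_⟩
    ext g
    rw [hf g]
    rfl
  obtain ⟨b, hb⟩ := h2
  obtain ⟨w, hw⟩ := p_mem_lam p n H
  refine ⟨w * Ideal.Quotient.mk _ (incl p n H b) + Ideal.Quotient.mk _ c, ?_⟩
  have h5 : a = ((p : ℤ) : A p n H) * incl p n H b + (y p n H - 1) * c := by
    conv_lhs => rw [hc, hb]
    rw [map_zsmul, zsmul_eq_mul]
  conv_lhs => rw [h5]
  rw [map_add, map_mul, map_mul, map_intCast, hw]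
  rw [lam]
  ring

theorem F_red [Fact p.Prime] (j : ℕ) (hj0 : j ≠ 0) (hj : ∀ h : H, (p ^ j) • h = -h) (x : F p H)
    (h : x * starF p H x = 0) : x = 0 := by
  have hp : p.Prime := Fact.out
  have : CharP (F p H) p :=
    charP_of_injective_algebraMap (algebraMap (ZMod p) _).injective p
  have hfrob : iterateFrobenius (F p H) p j = starF p H := by
    apply AddMonoidAlgebra.ringHom_ext
    · intro b
      rw [iterateFrobenius_def, AddMonoidAlgebra.single_pow, starF_single, ZMod.pow_card_pow]
      simp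
    · intro a
      rw [iterateFrobenius_def, AddMonoidAlgebra.single_pow, starF_single, one_pow, hj]
  have hpow : ∀ z : F p H, z ^ (p ^ j) = starF p H z := by
    intro z
    rw [← hfrob, iterateFrobenius_def]
  have hss : ∀ z : F p H, starF p H (starF p H z) = z := by
    intro z
    induction z using AddMonoidAlgebra.induction_linear with
    | zero => simp
    | add f g hf hg => simp [hf, hg]
    | single a b => simp [starF_single]
  have h1 : x ^ (1 + p ^ j) = 0 := by
    rw [pow_add, pow_one, hpow, h]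
  have h2 : x ^ (p ^ j * p ^ j) = x := by
    rw [pow_mul, hpow, hpow, hss]
  have hr : 2 ≤ p ^ j := by
    calc 2 ≤ p := hp.two_le
      _ = p ^ 1 := (pow_one p).symm
      _ ≤ p ^ j := Nat.pow_le_pow_right hp.pos (Nat.one_le_iff_ne_zero.2 hj0)
  have h3 : 1 + p ^ j ≤ p ^ j * p ^ j := by nlinarith
  rw [← h2, ← Nat.sub_add_cancel h3, pow_add, h1, mul_zero]

theorem lam_cancel [Fact p.Prime] (x : S p n H) (h : lam p n H * x = 0) : x = 0 := by
  have hp : p.Prime := Fact.out
  obtain ⟨w, hw⟩ := p_mem_lam p n H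
  apply S_torsion p n H (p : ℤ) (by exact_mod_cast hp.ne_zero)
  rw [hw]
  linear_combination w * h

theorem lam_pow_cancel [Fact p.Prime] (k : ℕ) (x : S p n H) (h : lam p n H ^ k * x = 0) :
    x = 0 := by
  induction k with
  | zero => simpa using h
  | succ k ih =>
    apply ih
    apply lam_cancel p n H
    rw [← mul_assoc, ← pow_succ', h]

/-- the involution of the uniformiser -/
theorem starS_lam : ∃ u : S p n H, starS p n H (lam p n H) = - (u * lam p n H) ∧
    ∀ [Fact p.Prime] [Finite H], redS p n H u = 1 := by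
  refine ⟨Ideal.Quotient.mk _ (star p n H (y p n H)), ?_, ?_⟩
  · rw [lam, starS_mk, map_sub, map_one, ← map_mul, ← map_neg]
    congr 1
    have := y_star p n H
    linear_combination this
  · intro _ _
    rw [redS_mk, red_star, red_y, map_one]

/-- first divisibility -/
theorem main1 [Fact p.Prime] [Finite H] (j : ℕ) (hj0 : j ≠ 0) (hj : ∀ h : H, (p ^ j) • h = -h)
    (x m : S p n H) (h : x * starS p n H x = ((p : ℤ) : S p n H) ^ 2 * m) :
    ∃ x1, x = ((p : ℤ) : S p n H) * x1 := by
  have hp : p.Prime := Fact.out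
  obtain ⟨g, hg, hg1⟩ := lam_pow p n H
  obtain ⟨u, hu, hu1⟩ := starS_lam p n H
  set φ := p ^ (n + 1) - p ^ n with hφ
  have key : ∀ k ≤ φ, ∃ z, x = lam p n H ^ k * z := by
    intro k
    induction k with
    | zero => intro _; exact ⟨x, by simp⟩
    | succ k ih =>
      intro hk
      obtain ⟨z, hz⟩ := ih (by omega)
      have h1 : lam p n H ^ (2 * k) * ((-u) ^ k * (z * starS p n H z) * g ^ 2 -
          lam p n H ^ (2 * φ - 2 * k) * m) = 0 := by
        have h2 : x * starS p n H x = lam p n H ^ (2 * k) * ((-u) ^ k * (z * starS p n H z)) := by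
          rw [hz, map_mul, map_pow, hu, show -(u * lam p n H) = (-u) * lam p n H by ring, mul_pow]
          ring
        have h3 : lam p n H ^ (2 * φ) = ((p : ℤ) : S p n H) ^ 2 * g ^ 2 := by
          rw [mul_comm 2 φ, pow_mul, hg]; ring
        have h4 : lam p n H ^ (2 * k) * lam p n H ^ (2 * φ - 2 * k) = lam p n H ^ (2 * φ) := by
          rw [← pow_add]; congr 1; omega
        calc _ = (x * starS p n H x) * g ^ 2 -
              (lam p n H ^ (2 * k) * lam p n H ^ (2 * φ - 2 * k)) * m := by rw [h2]; ring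
          _ = 0 := by rw [h4, h, h3]; ring
      have h5 := lam_pow_cancel p n H _ _ h1
      have h6 := congrArg (redS p n H) h5
      simp only [map_sub, map_mul, map_pow, map_neg, map_zero, redS_lam, hg1, hu1, one_pow,
        mul_one, redS_starS] at h6
      rw [zero_pow (by omega), zero_mul, sub_zero] at h6
      have h7 : redS p n H z * starF p H (redS p n H z) = 0 := by
        have h8 : ((-1 : F p H) ^ k) * ((-1 : F p H) ^ k) = 1 := by
          rw [← mul_pow]; simp
        calc _ = (((-1 : F p H) ^ k) * ((-1 : F p H) ^ k)) *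
              (redS p n H z * starF p H (redS p n H z)) := by rw [h8, one_mul]
          _ = ((-1 : F p H) ^ k) * (((-1 : F p H) ^ k) *
              (redS p n H z * starF p H (redS p n H z))) := by ring
          _ = 0 := by rw [h6, mul_zero]
      have h9 := F_red p H j hj0 hj _ h7
      obtain ⟨w, hw⟩ := redS_eq_zero p n H z h9
      exact ⟨w, by rw [hz, hw]; ring⟩
  obtain ⟨z, hz⟩ := key φ le_rfl
  exact ⟨-(g * z), by rw [hz, hg]; ring⟩

/-- divisibility by a power -/
theorem main2 [Fact p.Prime] [Finite H] (j : ℕ) (hj0 : j ≠ 0) (hj : ∀ h : H, (p ^ j) • h = -h)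
    (α : ℕ) : ∀ (x m : S p n H), x * starS p n H x = ((p : ℤ) : S p n H) ^ (2 * α) * m →
    ∃ x1, x = ((p : ℤ) : S p n H) ^ α * x1 := by
  have hp : p.Prime := Fact.out
  induction α with
  | zero => intro x m _; exact ⟨x, by simp⟩
  | succ α ih =>
    intro x m h
    obtain ⟨x1, hx1⟩ := main1 p n H j hj0 hj x (((p : ℤ) : S p n H) ^ (2 * α) * m)
      (by rw [h]; ring)
    obtain ⟨x2, hx2⟩ := ih x1 m (by
      have h1 : ((p : ℤ) : S p n H) * (((p : ℤ) : S p n H) * (x1 * starS p n H x1 -
          ((p : ℤ) : S p n H) ^ (2 * α) * m)) = 0 := by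
        rw [hx1, map_mul, map_intCast] at h
        linear_combination h
      have h2 := S_torsion p n H (p : ℤ) (by exact_mod_cast hp.ne_zero) _
        (S_torsion p n H (p : ℤ) (by exact_mod_cast hp.ne_zero) _ h1)
      exact sub_eq_zero.1 h2)
    exact ⟨x2, by rw [hx1, hx2]; ring⟩

/-- the group ring element of a function -/
noncomputable def elt [Fintype H] [NeZero (p ^ (n + 1))] (B : H × ZMod (p ^ (n + 1)) → ℤ) :
    A p n H := ∑ g, AddMonoidAlgebra.single g (B g)

theorem elt_coeff [Fintype H] [NeZero (p ^ (n + 1))] (B : H × ZMod (p ^ (n + 1)) → ℤ)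
    (g : H × ZMod (p ^ (n + 1))) : (elt p n H B).coeff g = B g := by
  classical
  rw [elt, AddMonoidAlgebra.coeff_sum, Finsupp.finsetSum_apply]
  simp [Finsupp.single_apply]

theorem elt_mul_star [Fintype H] [NeZero (p ^ (n + 1))] (B : H × ZMod (p ^ (n + 1)) → ℤ)
    (N : ℤ) (h0 : ∑ g, B g * B g = N) (h1 : ∀ d, d ≠ 0 → ∑ g, B g * B (g + d) = 0) :
    elt p n H B * star p n H (elt p n H B) = (N : A p n H) := by
  classical
  have e1 : star p n H (elt p n H B) = ∑ g, AddMonoidAlgebra.single (-g) (B g) := by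
    rw [elt, map_sum]
    exact Finset.sum_congr rfl fun g _ => star_single p n H g _
  rw [e1, elt, Finset.sum_mul_sum, Finset.sum_comm]
  have e2 : ∀ g' : H × ZMod (p ^ (n + 1)), (∑ g : H × ZMod (p ^ (n + 1)),
      (AddMonoidAlgebra.single g (B g) * AddMonoidAlgebra.single (-g') (B g') : A p n H)) =
      ∑ d, AddMonoidAlgebra.single d (B g' * B (g' + d)) := by
    intro g'
    rw [← Equiv.sum_comp (Equiv.addLeft g')]
    refine Finset.sum_congr rfl fun d _ => ?_
    rw [AddMonoidAlgebra.single_mul_single]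
    simp only [Equiv.coe_addLeft]
    rw [mul_comm, add_neg_eq_iff_eq_add.2 (add_comm g' d)]
  rw [Finset.sum_congr rfl fun g' _ => e2 g', Finset.sum_comm]
  have e3 : ∀ d : H × ZMod (p ^ (n + 1)), (∑ g' : H × ZMod (p ^ (n + 1)),
      (AddMonoidAlgebra.single d (B g' * B (g' + d)) : A p n H)) =
      AddMonoidAlgebra.single d (if d = 0 then N else 0) := by
    intro d
    have : (∑ g' : H × ZMod (p ^ (n + 1)),
      (AddMonoidAlgebra.single d (B g' * B (g' + d)) : A p n H)) =
      AddMonoidAlgebra.single d (∑ g', B g' * B (g' + d)) :=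
      (map_sum (AddMonoidAlgebra.singleAddHom (R := ℤ) d) _ _).symm
    rw [this]
    by_cases hd : d = 0
    · subst hd; simp [h0]
    · simp [hd, h1 d hd]
  rw [Finset.sum_congr rfl fun d _ => e3 d, Finset.sum_eq_single 0]
  · simp [AddMonoidAlgebra.intCast_def]
  · intro b _ hb; simp [hb]
  · intro h; exact absurd (Finset.mem_univ _) h

/-- **Divisibility**: the differences of a function with small autocorrelation. -/
theorem dvd_diff [Fact p.Prime] [Fintype H] [NeZero (p ^ (n + 1))]
    (j : ℕ) (hj0 : j ≠ 0) (hj : ∀ h : H, (p ^ j) • h = -h)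
    (B : H × ZMod (p ^ (n + 1)) → ℤ) (N : ℤ) (α : ℕ) (hN : (p : ℤ) ^ (2 * α) ∣ N)
    (h0 : ∑ g, B g * B g = N) (h1 : ∀ d, d ≠ 0 → ∑ g, B g * B (g + d) = 0)
    (h : H) (c : ZMod (p ^ (n + 1))) :
    (p : ℤ) ^ α ∣ B (h, c) - B (h, c + ((p ^ n : ℕ) : ZMod (p ^ (n + 1)))) := by
  obtain ⟨m, rfl⟩ := hN
  have e1 := elt_mul_star p n H B _ h0 h1
  have e2 := congrArg (Ideal.Quotient.mk (J p n H)) e1
  rw [map_mul, ← starS_mk, map_intCast, Int.cast_mul, Int.cast_pow] at e2
  obtain ⟨x1, hx1⟩ := main2 p n H j hj0 hj α _ _ e2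
  obtain ⟨b, rfl⟩ := Ideal.Quotient.mk_surjective x1
  have e3 : elt p n H B - ((p : ℤ) ^ α) • b ∈ J p n H := by
    rw [← Ideal.Quotient.eq_zero_iff_mem, map_sub, hx1, zsmul_eq_mul, map_mul, map_intCast]
    push_cast
    ring
  have e4 := J_inv p n H _ e3 h c
  simp only [AddMonoidAlgebra.coeff_sub, Finsupp.sub_apply, AddMonoidAlgebra.coeff_smul,
    Finsupp.smul_apply, elt_coeff, smul_eq_mul] at e4
  refine ⟨b.coeff (h, c) - b.coeff (h, c + ((p ^ n : ℕ) : ZMod (p ^ (n + 1)))), ?_⟩
  linear_combination -e4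

end Div

end Run7.h595
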