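import Mathlib

set_option autoImplicit false

/-!
Perfect arrays on finite abelian groups and their images under homomorphisms.
-/

namespace Run7.h595

open Finset

/-- A `±1`-valued function with vanishing autocorrelation at every nonzero shift. -/
def Perf {G : Type} [AddCommGroup G] [Fintype G] (A : G → ℤ) : Prop :=
  (∀ g, A g = 1 ∨ A g = -1) ∧ ∀ d, d ≠ 0 → ∑ g, A g * A (g + d) = 0

section
variable {G K : Type} [AddCommGroup G] [Fintype G] [AddCommGroup K] [Fintype K] [DecidableEq K]

/-- The image of a function under a homomorphism (sum over the fibres). -/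
def push (f : G →+ K) (A : G → ℤ) (k : K) : ℤ := ∑ g, if f g = k then A g else 0

omit [Fintype K] in
theorem push_eq_filter (f : G →+ K) (A : G → ℤ) (k : K) :
    push f A k = ∑ g ∈ univ.filter (fun g => f g = k), A g := by
  rw [push, Finset.sum_filter]

theorem sum_push (f : G →+ K) (A : G → ℤ) : ∑ k, push f A k = ∑ g, A g := by
  unfold push
  rw [Finset.sum_comm]
  refine Finset.sum_congr rfl fun g _ => ?_
  simp

/-- sums weighted by a function of the image -/
theorem sum_push_mul (f : G →+ K) (A : G → ℤ) (w : K → ℤ) :
    ∑ k, push f A k * w k = ∑ g, A g * w (f g) := by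
  unfold push
  simp_rw [Finset.sum_mul]
  rw [Finset.sum_comm]
  refine Finset.sum_congr rfl fun g _ => ?_
  simp

theorem push_corr (f : G →+ K) (A : G → ℤ) (e : K) :
    ∑ k, push f A k * push f A (k + e) =
      ∑ d, if f d = e then ∑ g, A g * A (g + d) else 0 := by
  rw [sum_push_mul]
  unfold push
  simp_rw [Finset.mul_sum]
  have h1 : ∀ g : G, ∑ i, A g * (if f i = f g + e then A i else 0) =
      ∑ d, if f d = e then A g * A (g + d) else 0 := by
    intro g
    rw [← Equiv.sum_comp (Equiv.addLeft g)]
    refine Finset.sum_congr rfl fun d _ => ?_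
    simp only [Equiv.coe_addLeft, map_add, add_right_inj, mul_ite, mul_zero]
  rw [Finset.sum_congr rfl fun g _ => h1 g, Finset.sum_comm]
  refine Finset.sum_congr rfl fun d _ => ?_
  by_cases hd : f d = e
  · simp [hd]
  · simp [hd]

theorem Perf.sum_sq {A : G → ℤ} (hA : Perf A) : ∑ g, A g * A g = Fintype.card G := by
  have h : ∀ g ∈ (univ : Finset G), A g * A g = 1 := by
    intro g _
    rcases hA.1 g with h | h <;> rw [h] <;> norm_num
  rw [Finset.sum_congr rfl h]
  simp

theorem Perf.push_corr {A : G → ℤ} (hA : Perf A) (f : G →+ K) (e : K) :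
    ∑ k, push f A k * push f A (k + e) = if e = 0 then (Fintype.card G : ℤ) else 0 := by
  classical
  rw [Run7.h595.push_corr, Finset.sum_eq_single 0]
  · simp only [map_zero, add_zero]
    rw [hA.sum_sq]
    by_cases he : e = 0
    · simp [he]
    · simp [he, Ne.symm he]
  · intro d _ hd
    rw [hA.2 d hd]
    simp
  · intro h; exact absurd (Finset.mem_univ _) h

theorem Perf.push_sq {A : G → ℤ} (hA : Perf A) (f : G →+ K) :
    ∑ k, push f A k * push f A k = Fintype.card G := by
  have := hA.push_corr f 0
  simpa using this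

theorem Perf.push_zero {A : G → ℤ} (hA : Perf A) (f : G →+ K) (e : K) (he : e ≠ 0) :
    ∑ k, push f A k * push f A (k + e) = 0 := by
  have := hA.push_corr f e
  simpa [he] using this

/-- the order is a square -/
theorem Perf.card_sq {A : G → ℤ} (hA : Perf A) : (∑ g, A g) ^ 2 = Fintype.card G := by
  have h := hA.push_corr (0 : G →+ Unit) 0
  simp only [Finset.univ_unique, Finset.sum_singleton, if_true] at h
  rw [← h, sq]
  simp [push]

/-- cardinality of fibres -/
theorem card_fiber (f : G →+ K) (hf : Function.Surjective f) (k : K) :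
    (univ.filter (fun g => f g = k)).card * Fintype.card K = Fintype.card G := by
  classical
  have h1 : Fintype.card G = ∑ k : K, (univ.filter (fun g => f g = k)).card := by
    rw [← Finset.card_univ (α := G)]
    exact Finset.card_eq_sum_card_fiberwise (fun g _ => Finset.mem_univ _)
  have h2 : ∀ k' : K, (univ.filter (fun g => f g = k')).card =
      (univ.filter (fun g => f g = k)).card := fun k' =>
    AddMonoidHom.card_fiber_eq_of_mem_range f (by simpa using hf k') (by simpa using hf k)
  rw [h1, Finset.sum_congr rfl fun k' _ => h2 k', Finset.sum_const, smul_eq_mul, mul_comm,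
    Finset.card_univ]

/-- parity of a fibre sum -/
theorem Perf.push_parity {A : G → ℤ} (hA : Perf A) (f : G →+ K) (k : K) :
    (2 : ℤ) ∣ push f A k - (univ.filter (fun g => f g = k)).card := by
  rw [push_eq_filter]
  have h : ((univ.filter (fun g => f g = k)).card : ℤ) =
      ∑ g ∈ univ.filter (fun g => f g = k), (1 : ℤ) := by simp
  rw [h, ← Finset.sum_sub_distrib]
  refine Finset.dvd_sum fun g _ => ?_
  rcases hA.1 g with h | h <;> rw [h] <;> norm_num

/-- size of a fibre sum -/
theorem Perf.push_le {A : G → ℤ} (hA : Perf A) (f : G →+ K) (k : K) :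
    |push f A k| ≤ (univ.filter (fun g => f g = k)).card := by
  rw [push_eq_filter]
  refine (Finset.abs_sum_le_sum_abs _ _).trans ?_
  have h : ((univ.filter (fun g => f g = k)).card : ℤ) =
      ∑ g ∈ univ.filter (fun g => f g = k), (1 : ℤ) := by simp
  rw [h]
  refine Finset.sum_le_sum fun g _ => ?_
  rcases hA.1 g with h | h <;> rw [h] <;> norm_num

end

/-- transport along an isomorphism -/
theorem Perf.comp {G K : Type} [AddCommGroup G] [Fintype G] [AddCommGroup K] [Fintype K]
    {A : G → ℤ} (hA : Perf A) (e : K ≃+ G) : Perf (A ∘ e) := by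
  refine ⟨fun g => hA.1 _, fun d hd => ?_⟩
  have h := hA.2 (e d) (by simpa using hd)
  rw [← h, ← Equiv.sum_comp e.toEquiv]
  refine Finset.sum_congr rfl fun g _ => ?_
  simp

end Run7.h595
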