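import Mathlib
import Pool.Agent.Run7.h595.Div
import Pool.Agent.Run7.h595.Push

set_option autoImplicit false

/-!
The `p`-part of a perfect array on `H × (ℤ/p^x × ℤ/p^y)` is homocyclic.
-/

namespace Run7.h595

open Finset

variable {p : ℕ} [Fact p.Prime] {H : Type} [AddCommGroup H] [Fintype H]

theorem card_grp (x y : ℕ) : Fintype.card (H × (ZMod (p ^ x) × ZMod (p ^ y))) =
    Fintype.card H * (p ^ x * p ^ y) := by
  rw [Fintype.card_prod, Fintype.card_prod, ZMod.card, ZMod.card]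

theorem Perf.even_exp {x y : ℕ} {A : H × (ZMod (p ^ x) × ZMod (p ^ y)) → ℤ} (hA : Perf A)
    (hH : ¬ p ∣ Fintype.card H) : ∃ a, x + y = 2 * a := by
  have hp : p.Prime := Fact.out
  have h := hA.card_sq
  rw [card_grp] at h
  set m := (∑ g, A g).natAbs with hm
  have h1 : m ^ 2 = Fintype.card H * (p ^ x * p ^ y) := by
    have : ((m : ℤ)) ^ 2 = ((Fintype.card H * (p ^ x * p ^ y) : ℕ) : ℤ) := by
      rw [← h, hm, Int.natCast_natAbs, sq_abs]
    exact_mod_cast this
  have hc : Fintype.card H ≠ 0 := Fintype.card_ne_zero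
  have h2 := congrArg (padicValNat p) h1
  have hm0 : m ≠ 0 := by
    intro h0
    rw [h0] at h1
    have : Fintype.card H * (p ^ x * p ^ y) ≠ 0 :=
      mul_ne_zero hc (mul_ne_zero (pow_ne_zero _ hp.ne_zero) (pow_ne_zero _ hp.ne_zero))
    exact this (by rw [← h1]; simp)
  rw [padicValNat.pow, ← pow_add, padicValNat.mul hc (pow_ne_zero _ hp.ne_zero),
    padicValNat.prime_pow, padicValNat.eq_zero_of_not_dvd hH, zero_add] at h2
  exact ⟨padicValNat p m, h2.symm⟩

theorem Perf.not_lt {x y : ℕ} {A : H × (ZMod (p ^ x) × ZMod (p ^ y)) → ℤ} (hA : Perf A)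
    (hp2 : p ≠ 2) (hH : ¬ p ∣ Fintype.card H)
    (j : ℕ) (hj0 : j ≠ 0) (hj : ∀ h : H, (p ^ j) • h = -h) : ¬ x < y := by
  classical
  intro hxy
  have hp : p.Prime := Fact.out
  obtain ⟨a, ha⟩ := hA.even_exp hH
  obtain ⟨n, rfl⟩ : ∃ n, y = n + 1 := ⟨y - 1, by omega⟩
  have hxa : x + 1 ≤ a := by omega
  set f : H × (ZMod (p ^ x) × ZMod (p ^ (n + 1))) →+ H × ZMod (p ^ (n + 1)) :=
    AddMonoidHom.prodMap (AddMonoidHom.id H) (AddMonoidHom.snd _ _) with hf
  have hsurj : Function.Surjective f := by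
    rintro ⟨h, c⟩
    exact ⟨(h, (0, c)), rfl⟩
  have hfib : ∀ k, (univ.filter (fun g => f g = k)).card = p ^ x := by
    intro k
    have h1 := card_fiber f hsurj k
    rw [card_grp, Fintype.card_prod, ZMod.card] at h1
    have h2 : Fintype.card H * p ^ (n + 1) ≠ 0 :=
      mul_ne_zero Fintype.card_ne_zero (pow_ne_zero _ hp.ne_zero)
    apply Nat.eq_of_mul_eq_mul_right (Nat.pos_of_ne_zero h2)
    rw [h1]; ring
  have hN : (p : ℤ) ^ (2 * a) ∣
      (Fintype.card (H × (ZMod (p ^ x) × ZMod (p ^ (n + 1)))) : ℤ) := by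
    rw [card_grp, ← pow_add, ha]
    push_cast
    exact Dvd.intro_left _ rfl
  have hdiv := Div.dvd_diff p n H j hj0 hj (push f A) _ a hN (hA.push_sq f)
    (fun d hd => hA.push_zero f d hd)
  have hinv : ∀ h c, push f A (h, c) =
      push f A (h, c + ((p ^ n : ℕ) : ZMod (p ^ (n + 1)))) := by
    intro h c
    have h1 := hdiv h c
    have h2 : |push f A (h, c) - push f A (h, c + ((p ^ n : ℕ) : ZMod (p ^ (n + 1))))| <
        (p : ℤ) ^ a := by
      have h3 := hA.push_le f (h, c)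
      have h4 := hA.push_le f (h, c + ((p ^ n : ℕ) : ZMod (p ^ (n + 1))))
      rw [hfib] at h3 h4
      have h5 : (2 : ℤ) * p ^ x < p ^ a := by
        have h6 : (p : ℤ) ^ (x + 1) ≤ p ^ a :=
          pow_le_pow_right₀ (by exact_mod_cast hp.one_le) hxa
        have h7 : (3 : ℤ) ≤ p := by
          have := hp.two_le
          have : 3 ≤ p := by omega
          exact_mod_cast this
        have h8 : (0 : ℤ) < (p : ℤ) ^ x := pow_pos (by exact_mod_cast hp.pos) _
        rw [pow_succ] at h6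
        nlinarith
      push_cast at h3 h4
      calc _ ≤ |push f A (h, c)| + |push f A (h, c + ((p ^ n : ℕ) : ZMod (p ^ (n + 1))))| :=
            abs_sub _ _
        _ ≤ p ^ x + p ^ x := add_le_add h3 (by push_cast; exact h4)
        _ = 2 * p ^ x := by ring
        _ < _ := h5
    have h3 := Int.eq_zero_of_abs_lt_dvd h1 h2
    linarith
  have hne : ((0 : H), ((p ^ n : ℕ) : ZMod (p ^ (n + 1)))) ≠ 0 := by
    intro h
    have h1 := (Prod.ext_iff.1 h).2
    simp only [Prod.snd_zero] at h1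
    rw [ZMod.natCast_eq_zero_iff] at h1
    exact absurd (Nat.le_of_dvd (pow_pos hp.pos _) h1)
      (not_le.2 (Nat.pow_lt_pow_right hp.one_lt (Nat.lt_succ_self n)))
  have h1 := hA.push_zero f _ hne
  have h2 := hA.push_sq f
  have h3 : ∀ k : H × ZMod (p ^ (n + 1)),
      push f A (k + ((0 : H), ((p ^ n : ℕ) : ZMod (p ^ (n + 1))))) = push f A k := by
    rintro ⟨h, c⟩
    rw [hinv h c]
    congr 1
    simp
  rw [Finset.sum_congr rfl fun k _ => by rw [h3 k], h2] at h1
  have : Fintype.card (H × (ZMod (p ^ x) × ZMod (p ^ (n + 1)))) ≠ 0 := Fintype.card_ne_zero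
  exact this (by exact_mod_cast h1)

end Run7.h595
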