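import Mathlib
import Pool.Agent.Run7.h595.Hom

set_option autoImplicit false
set_option linter.unusedSectionVars false

/-!
Reduction of a perfect array on `H × (ℤ/p^(n+1))²` to one on `H × (ℤ/p^n)²`.
-/

namespace Run7.h595

open Finset

namespace Red

variable (p : ℕ) [Fact p.Prime] (n : ℕ)

/-- the element of order `p` -/
def tau : ZMod (p ^ (n + 1)) := ((p ^ n : ℕ) : ZMod (p ^ (n + 1)))

/-- reduction of residues -/
def r : ZMod (p ^ (n + 1)) →+ ZMod (p ^ n) :=
  (ZMod.castHom (pow_dvd_pow p (Nat.le_succ n)) (ZMod (p ^ n))).toAddMonoidHom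

/-- reduction mod `p` -/
def cp : ZMod (p ^ (n + 1)) →+ ZMod p :=
  (ZMod.castHom (dvd_pow_self p (Nat.succ_ne_zero n)) (ZMod p)).toAddMonoidHom

theorem r_natCast (k : ℕ) : r p n (k : ZMod (p ^ (n + 1))) = k := by
  simp [r]

theorem cp_natCast (k : ℕ) : cp p n (k : ZMod (p ^ (n + 1))) = k := by
  simp [cp]

theorem r_tau : r p n (tau p n) = 0 := by
  rw [tau, r_natCast]
  exact (ZMod.natCast_eq_zero_iff _ _).2 dvd_rfl

theorem tau_ne : tau p n ≠ 0 := by
  have hp : p.Prime := Fact.out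
  intro h
  rw [tau, ZMod.natCast_eq_zero_iff] at h
  exact absurd (Nat.le_of_dvd (pow_pos hp.pos _) h)
      (not_le.2 (Nat.pow_lt_pow_right hp.one_lt (Nat.lt_succ_self n)))

theorem r_surj : Function.Surjective (r p n) :=
  ZMod.castHom_surjective (pow_dvd_pow p (Nat.le_succ n))

theorem cp_surj : Function.Surjective (cp p n) :=
  ZMod.castHom_surjective (dvd_pow_self p (Nat.succ_ne_zero n))

/-- the subgroup of multiples of `p` -/
def SS : Finset (ZMod (p ^ (n + 1))) := univ.filter (fun b => cp p n b = 0)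

theorem card_SS : (SS p n).card = p ^ n := by
  have hp : p.Prime := Fact.out
  have h := card_fiber (cp p n) (cp_surj p n) 0
  rw [ZMod.card, ZMod.card] at h
  apply Nat.eq_of_mul_eq_mul_right hp.pos
  rw [← pow_succ]
  exact h

theorem mem_SS (b : ZMod (p ^ (n + 1))) : b ∈ SS p n ↔ cp p n b = 0 := by
  simp [SS]

theorem SS_mul (b v : ZMod (p ^ (n + 1))) (hb : b ∈ SS p n) (hv : r p n v = 0) : b * v = 0 := by
  rw [mem_SS, ← ZMod.natCast_zmod_val b, cp_natCast, ZMod.natCast_eq_zero_iff] at hb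
  rw [← ZMod.natCast_zmod_val v, r_natCast, ZMod.natCast_eq_zero_iff] at hv
  rw [← ZMod.natCast_zmod_val b, ← ZMod.natCast_zmod_val v, ← Nat.cast_mul,
    ZMod.natCast_eq_zero_iff]
  have h := Nat.mul_dvd_mul hb hv
  have e : p * p ^ n = p ^ (n + 1) := (pow_succ' p n).symm
  rwa [e] at h

theorem exists_b0 (v : ZMod (p ^ (n + 1))) (hv : r p n v ≠ 0) :
    ∃ b0 ∈ SS p n, b0 * v = tau p n := by
  have hp : p.Prime := Fact.out
  have hv0 : v.val ≠ 0 := by
    intro h
    apply hv
    rw [← ZMod.natCast_zmod_val v, h, r_natCast]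
    simp
  obtain ⟨k, m, hm, hkm⟩ := Nat.exists_eq_pow_mul_and_not_dvd hv0 p hp.ne_one
  have hkn : k < n := by
    by_contra hk
    apply hv
    rw [← ZMod.natCast_zmod_val v, r_natCast, ZMod.natCast_eq_zero_iff, hkm]
    exact Dvd.dvd.mul_right (pow_dvd_pow p (not_lt.1 hk)) m
  have hcop : Nat.Coprime m (p ^ (n + 1)) :=
    Nat.Coprime.pow_right _ ((Nat.Prime.coprime_iff_not_dvd hp).2 hm).symm
  obtain ⟨m', hm'⟩ : ∃ m' : ZMod (p ^ (n + 1)), (m : ZMod (p ^ (n + 1))) * m' = 1 :=
    ⟨((ZMod.unitOfCoprime m hcop)⁻¹ : (ZMod (p ^ (n + 1)))ˣ), by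
      have h1 : ((ZMod.unitOfCoprime m hcop : (ZMod (p ^ (n + 1)))ˣ) : ZMod (p ^ (n + 1))) = m :=
        ZMod.coe_unitOfCoprime m hcop
      rw [← h1]
      exact Units.mul_inv _⟩
  refine ⟨((p ^ (n - k) : ℕ) : ZMod (p ^ (n + 1))) * m', ?_, ?_⟩
  · rw [mem_SS, ← ZMod.natCast_zmod_val m', ← Nat.cast_mul, cp_natCast, ZMod.natCast_eq_zero_iff]
    exact Dvd.dvd.mul_right (dvd_pow_self p (by omega)) _
  · rw [← ZMod.natCast_zmod_val v, hkm, tau]
    have : p ^ n = p ^ (n - k) * p ^ k := by rw [← pow_add]; congr 1; omega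
    rw [this]
    push_cast
    linear_combination ((p : ZMod (p ^ (n + 1))) ^ (n - k) * (p : ZMod (p ^ (n + 1))) ^ k) * hm'

/-- number of solutions -/
def NN (u v : ZMod (p ^ (n + 1))) : ℤ := ∑ b ∈ SS p n, if u + b * v = 0 then 1 else 0

theorem NN_zero (u v : ZMod (p ^ (n + 1))) (hv : r p n v = 0) :
    NN p n u v = if u = 0 then (p : ℤ) ^ n else 0 := by
  rw [NN]
  have h : ∀ b ∈ SS p n, (if u + b * v = 0 then (1 : ℤ) else 0) = if u = 0 then 1 else 0 := by
    intro b hb
    rw [SS_mul p n b v hb hv, add_zero]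
  rw [Finset.sum_congr rfl h, Finset.sum_const, card_SS]
  split_ifs <;> simp

theorem NN_inv (u v : ZMod (p ^ (n + 1))) (hv : r p n v ≠ 0) :
    NN p n (u - tau p n) v = NN p n u v := by
  obtain ⟨b0, hb0, hb⟩ := exists_b0 p n v hv
  rw [NN, NN]
  refine Finset.sum_bij' (fun b _ => b - b0) (fun b _ => b + b0) ?_ ?_ ?_ ?_ ?_
  · intro b hb'
    rw [mem_SS] at *
    rw [map_sub, hb', hb0, sub_zero]
  · intro b hb'
    rw [mem_SS] at *
    rw [map_add, hb', hb0, add_zero]
  · intro b _; ring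
  · intro b _; ring
  · intro b _
    have : u - tau p n + b * v = u + (b - b0) * v := by rw [← hb]; ring
    rw [this]

variable (H : Type) [AddCommGroup H]

/-- the functionals -/
def fb (b : ZMod (p ^ (n + 1))) :
    H × (ZMod (p ^ (n + 1)) × ZMod (p ^ (n + 1))) →+ H × ZMod (p ^ (n + 1)) :=
  AddMonoidHom.prodMap (AddMonoidHom.id H)
    (AddMonoidHom.coprod (AddMonoidHom.id _) (AddMonoidHom.mulLeft b))

/-- partial reduction -/
def kap : H × (ZMod (p ^ (n + 1)) × ZMod (p ^ (n + 1))) →+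
    H × (ZMod (p ^ (n + 1)) × ZMod (p ^ n)) :=
  AddMonoidHom.prodMap (AddMonoidHom.id H) (AddMonoidHom.prodMap (AddMonoidHom.id _) (r p n))

/-- full reduction -/
def rho : H × (ZMod (p ^ (n + 1)) × ZMod (p ^ (n + 1))) →+
    H × (ZMod (p ^ n) × ZMod (p ^ n)) :=
  AddMonoidHom.prodMap (AddMonoidHom.id H) (AddMonoidHom.prodMap (r p n) (r p n))

theorem fb_apply (b : ZMod (p ^ (n + 1))) (h : H) (x y : ZMod (p ^ (n + 1))) :
    fb p n H b (h, (x, y)) = (h, x + b * y) := rfl

theorem kap_apply (h : H) (x y : ZMod (p ^ (n + 1))) :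
    kap p n H (h, (x, y)) = (h, (x, r p n y)) := rfl

theorem rho_apply (h : H) (x y : ZMod (p ^ (n + 1))) :
    rho p n H (h, (x, y)) = (h, (r p n x, r p n y)) := rfl

theorem rho_surj : Function.Surjective (rho p n H) := by
  rintro ⟨h, x, y⟩
  obtain ⟨x', rfl⟩ := r_surj p n x
  obtain ⟨y', rfl⟩ := r_surj p n y
  exact ⟨(h, (x', y')), rfl⟩

theorem weight [DecidableEq H] (h : H) (x y : ZMod (p ^ (n + 1)))
    (g : H × (ZMod (p ^ (n + 1)) × ZMod (p ^ (n + 1)))) :
    ∑ b ∈ SS p n, ((if fb p n H b g = (h, x + b * y) then (1 : ℤ) else 0) -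
      (if fb p n H b g = (h, x + b * y + tau p n) then (1 : ℤ) else 0)) =
    (p : ℤ) ^ n * ((if kap p n H g = (h, (x, r p n y)) then (1 : ℤ) else 0) -
      (if kap p n H g = (h, (x + tau p n, r p n y)) then (1 : ℤ) else 0)) := by
  obtain ⟨h', x', y'⟩ := g
  simp only [fb_apply, kap_apply, Prod.mk.injEq]
  by_cases hh : h' = h
  · simp only [hh, true_and]
    have e1 : ∀ b, (x' + b * y' = x + b * y) = ((x' - x) + b * (y' - y) = 0) := by
      intro b
      apply propext
      constructor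
      · intro h; linear_combination h
      · intro h; linear_combination h
    have e2 : ∀ b, (x' + b * y' = x + b * y + tau p n) =
        ((x' - x - tau p n) + b * (y' - y) = 0) := by
      intro b
      apply propext
      constructor
      · intro h; linear_combination h
      · intro h; linear_combination h
    simp only [e1, e2]
    rw [Finset.sum_sub_distrib]
    change NN p n (x' - x) (y' - y) - NN p n (x' - x - tau p n) (y' - y) = _
    by_cases hr : r p n (y' - y) = 0
    · have hr' : r p n y' = r p n y := by rwa [map_sub, sub_eq_zero] at hr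
      rw [NN_zero p n _ _ hr, NN_zero p n _ _ hr]
      have e3 : (x' - x = 0) = (x' = x) := propext sub_eq_zero
      have e4 : (x' - x - tau p n = 0) = (x' = x + tau p n) := by
        rw [sub_sub]; exact propext sub_eq_zero
      simp only [e3, e4, hr', and_true]
      split_ifs <;> ring
    · have hr' : ¬ r p n y' = r p n y := by rwa [map_sub, sub_eq_zero] at hr
      rw [NN_inv p n _ _ hr]
      simp [hr']
  · simp [hh]

theorem zmod_sum_of_inv (f : ZMod (p ^ (n + 1)) → ZMod p)
    (hf : ∀ c, f (c + tau p n) = f c) : ∑ c, f c = 0 := by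
  have h := Div.dvd_sum_of_inv (p := p) (n := n) (fun c => ((f c).val : ℤ)) (by
    intro c
    have := hf c
    rw [tau] at this
    rw [this])
  rw [← ZMod.intCast_zmod_eq_zero_iff_dvd] at h
  rw [← h]
  push_cast
  exact Finset.sum_congr rfl fun c _ => (ZMod.natCast_zmod_val (f c)).symm

variable {p n H}

theorem kap_inv [Fintype H] [DecidableEq H]
    {A : H × (ZMod (p ^ (n + 1)) × ZMod (p ^ (n + 1))) → ℤ} (hA : Perf A)
    (j : ℕ) (hj0 : j ≠ 0) (hj : ∀ h : H, (p ^ j) • h = -h)
    (h : H) (x y : ZMod (p ^ (n + 1))) :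
    (p : ℤ) ∣ push (kap p n H) A (h, (x, r p n y)) -
      push (kap p n H) A (h, (x + tau p n, r p n y)) := by
  have hp : p.Prime := Fact.out
  have e1 : ∑ b ∈ SS p n, (push (fb p n H b) A (h, x + b * y) -
      push (fb p n H b) A (h, x + b * y + tau p n)) =
      (p : ℤ) ^ n * (push (kap p n H) A (h, (x, r p n y)) -
      push (kap p n H) A (h, (x + tau p n, r p n y))) := by
    have e2 : ∀ b ∈ SS p n, (push (fb p n H b) A (h, x + b * y) -
      push (fb p n H b) A (h, x + b * y + tau p n)) = ∑ g, A g *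
        ((if fb p n H b g = (h, x + b * y) then (1 : ℤ) else 0) -
      (if fb p n H b g = (h, x + b * y + tau p n) then (1 : ℤ) else 0)) := by
      intro b _
      rw [push, push, ← Finset.sum_sub_distrib]
      refine Finset.sum_congr rfl fun g _ => ?_
      split_ifs <;> ring
    rw [Finset.sum_congr rfl e2, Finset.sum_comm]
    have e3 : ∀ g ∈ (univ : Finset (H × (ZMod (p ^ (n + 1)) × ZMod (p ^ (n + 1))))),
        ∑ b ∈ SS p n, A g * ((if fb p n H b g = (h, x + b * y) then (1 : ℤ) else 0) -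
      (if fb p n H b g = (h, x + b * y + tau p n) then (1 : ℤ) else 0)) =
      A g * ((p : ℤ) ^ n * ((if kap p n H g = (h, (x, r p n y)) then (1 : ℤ) else 0) -
      (if kap p n H g = (h, (x + tau p n, r p n y)) then (1 : ℤ) else 0))) := by
      intro g _
      rw [← Finset.mul_sum, weight]
    rw [Finset.sum_congr rfl e3, push, push, ← Finset.sum_sub_distrib, Finset.mul_sum]
    refine Finset.sum_congr rfl fun g _ => ?_
    split_ifs <;> ring
  have e4 : (p : ℤ) ^ (n + 1) ∣ ∑ b ∈ SS p n, (push (fb p n H b) A (h, x + b * y) -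
      push (fb p n H b) A (h, x + b * y + tau p n)) := by
    refine Finset.dvd_sum fun b _ => ?_
    have hN : (p : ℤ) ^ (2 * (n + 1)) ∣
        (Fintype.card (H × (ZMod (p ^ (n + 1)) × ZMod (p ^ (n + 1)))) : ℤ) := by
      rw [card_grp, ← pow_add]
      push_cast
      refine Dvd.intro_left (Fintype.card H : ℤ) ?_
      congr 1
      ring
    exact Div.dvd_diff p n H j hj0 hj (push (fb p n H b) A) _ (n + 1) hN (hA.push_sq _)
      (fun d hd => hA.push_zero _ d hd) h (x + b * y)
  rw [e1, pow_succ] at e4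
  exact Int.dvd_of_mul_dvd_mul_left (pow_ne_zero n (by exact_mod_cast hp.ne_zero)) e4

theorem rho_dvd [Fintype H] [DecidableEq H]
    {A : H × (ZMod (p ^ (n + 1)) × ZMod (p ^ (n + 1))) → ℤ} (hA : Perf A)
    (j : ℕ) (hj0 : j ≠ 0) (hj : ∀ h : H, (p ^ j) • h = -h)
    (k : H × (ZMod (p ^ n) × ZMod (p ^ n))) : (p : ℤ) ∣ push (rho p n H) A k := by
  obtain ⟨h, xb, yb⟩ := k
  obtain ⟨y, rfl⟩ := r_surj p n yb
  have e1 : push (rho p n H) A (h, (xb, r p n y)) =
      ∑ x, if r p n x = xb then push (kap p n H) A (h, (x, r p n y)) else 0 := by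
    simp only [push]
    have e2 : ∀ x ∈ (univ : Finset (ZMod (p ^ (n + 1)))),
        (if r p n x = xb then ∑ g, (if kap p n H g = (h, (x, r p n y)) then A g else 0) else 0) =
        ∑ g, (if r p n x = xb then (if kap p n H g = (h, (x, r p n y)) then A g else 0) else 0) := by
      intro x _
      split_ifs <;> simp
    rw [Finset.sum_congr rfl e2, Finset.sum_comm]
    refine Finset.sum_congr rfl fun g _ => ?_
    obtain ⟨h', x', y'⟩ := g
    simp only [rho_apply, kap_apply, Prod.mk.injEq]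
    rw [Finset.sum_eq_single x']
    · by_cases h1 : h' = h <;> by_cases h2 : r p n x' = xb <;> by_cases h3 : r p n y' = r p n y <;>
        simp [h1, h2, h3]
    · intro x _ hx
      simp [Ne.symm hx]
    · intro h; exact absurd (Finset.mem_univ _) h
  rw [← ZMod.intCast_zmod_eq_zero_iff_dvd, e1]
  push_cast
  refine zmod_sum_of_inv p n _ fun c => ?_
  rw [map_add, r_tau, add_zero]
  by_cases hc : r p n c = xb
  · rw [if_pos hc, if_pos hc]
    have := kap_inv hA j hj0 hj h c y
    rw [← ZMod.intCast_zmod_eq_zero_iff_dvd] at this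
    push_cast at this
    exact (sub_eq_zero.1 this).symm
  · rw [if_neg hc, if_neg hc]

/-- the reduced array -/
def red [DecidableEq H] [Fintype H] (A : H × (ZMod (p ^ (n + 1)) × ZMod (p ^ (n + 1))) → ℤ)
    (k : H × (ZMod (p ^ n) × ZMod (p ^ n))) : ℤ := push (rho p n H) A k / p

theorem red_spec [Fintype H] [DecidableEq H]
    {A : H × (ZMod (p ^ (n + 1)) × ZMod (p ^ (n + 1))) → ℤ} (hA : Perf A)
    (j : ℕ) (hj0 : j ≠ 0) (hj : ∀ h : H, (p ^ j) • h = -h)
    (k : H × (ZMod (p ^ n) × ZMod (p ^ n))) : push (rho p n H) A k = p * red A k :=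
  (Int.mul_ediv_cancel' (rho_dvd hA j hj0 hj k)).symm

theorem card_fib [Fintype H] [DecidableEq H] (k : H × (ZMod (p ^ n) × ZMod (p ^ n))) :
    (univ.filter (fun g => rho p n H g = k)).card = p ^ 2 := by
  have hp : p.Prime := Fact.out
  have h1 := card_fiber (rho p n H) (rho_surj p n H) k
  rw [card_grp, card_grp] at h1
  have h2 : Fintype.card H * (p ^ n * p ^ n) ≠ 0 :=
    mul_ne_zero Fintype.card_ne_zero (mul_ne_zero (pow_ne_zero _ hp.ne_zero)
      (pow_ne_zero _ hp.ne_zero))
  apply Nat.eq_of_mul_eq_mul_right (Nat.pos_of_ne_zero h2)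
  rw [h1]; ring

/-- **Reduction**: the sums over the cosets of the elementary subgroup form, after division by
`p`, a perfect array. -/
theorem perf_red [Fintype H] [DecidableEq H] (hp2 : p ≠ 2)
    {A : H × (ZMod (p ^ (n + 1)) × ZMod (p ^ (n + 1))) → ℤ} (hA : Perf A)
    (j : ℕ) (hj0 : j ≠ 0) (hj : ∀ h : H, (p ^ j) • h = -h) : Perf (red A) := by
  have hp : p.Prime := Fact.out
  have hpZ : (p : ℤ) ≠ 0 := by exact_mod_cast hp.ne_zero
  have hodd : ∀ k, red A k ≠ 0 := by
    intro k h0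
    have h1 := hA.push_parity (rho p n H) k
    rw [red_spec hA j hj0 hj, h0, card_fib] at h1
    have h2 : (2 : ℤ) ∣ (p : ℤ) ^ 2 := by
      have := dvd_neg.1 (by simpa using h1 : (2 : ℤ) ∣ -(p : ℤ) ^ 2)
      exact this
    have h3 : (2 : ℕ) ∣ p ^ 2 := by exact_mod_cast h2
    have h4 := (Nat.prime_dvd_prime_iff_eq Nat.prime_two hp).1
      (Nat.prime_two.dvd_of_dvd_pow h3)
    exact hp2 h4.symm
  have hsq : ∑ k, red A k * red A k = Fintype.card (H × (ZMod (p ^ n) × ZMod (p ^ n))) := by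
    have h1 := hA.push_sq (rho p n H)
    simp only [red_spec hA j hj0 hj] at h1
    have h2 : ((p : ℤ) ^ 2) * ∑ k, red A k * red A k =
        ((p : ℤ) ^ 2) * Fintype.card (H × (ZMod (p ^ n) × ZMod (p ^ n))) := by
      rw [Finset.mul_sum]
      have h3 : ((p : ℤ) ^ 2) * Fintype.card (H × (ZMod (p ^ n) × ZMod (p ^ n))) =
          Fintype.card (H × (ZMod (p ^ (n + 1)) × ZMod (p ^ (n + 1)))) := by
        rw [card_grp, card_grp]
        push_cast
        ring
      rw [h3, ← h1]
      exact Finset.sum_congr rfl fun k _ => by ring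
    exact mul_left_cancel₀ (pow_ne_zero 2 hpZ) h2
  have hge : ∀ k ∈ (univ : Finset (H × (ZMod (p ^ n) × ZMod (p ^ n)))),
      0 ≤ red A k * red A k - 1 := by
    intro k _
    have h1 := hodd k
    have h2 : 0 < red A k * red A k := mul_self_pos.2 h1
    linarith
  have hz : ∑ k, (red A k * red A k - 1) = 0 := by
    rw [Finset.sum_sub_distrib, hsq]
    simp
  have hall := (Finset.sum_eq_zero_iff_of_nonneg hge).1 hz
  refine ⟨fun k => ?_, fun d hd => ?_⟩
  · have h1 := hall k (Finset.mem_univ _)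
    exact mul_self_eq_one_iff.1 (by linarith)
  · have h1 := hA.push_zero (rho p n H) d hd
    simp only [red_spec hA j hj0 hj] at h1
    have h2 : ((p : ℤ) ^ 2) * ∑ k, red A k * red A (k + d) = 0 := by
      rw [Finset.mul_sum, ← h1]
      exact Finset.sum_congr rfl fun k _ => by ring
    exact (mul_eq_zero.1 h2).resolve_left (pow_ne_zero 2 hpZ)

end Red

end Run7.h595
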