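import Mathlib
import Pool.Agent.Run7.h595.Red
import Pool.Agent.Run7.h595.Cnt

set_option autoImplicit false
set_option linter.unusedSectionVars false

/-!
Necessary conditions for perfect arrays on `H × (ℤ/p^x × ℤ/p^y)`.
-/

namespace Run7.h595

open Finset

namespace Grp

variable {p : ℕ} [Fact p.Prime] {H : Type} [AddCommGroup H] [Fintype H]

/-- swapping the cyclic factors -/
def swp (x y : ℕ) : H × (ZMod (p ^ x) × ZMod (p ^ y)) ≃+ H × (ZMod (p ^ y) × ZMod (p ^ x)) :=
  AddEquiv.prodCongr (AddEquiv.refl H) AddEquiv.prodComm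

theorem exp_eq {x y : ℕ} {A : H × (ZMod (p ^ x) × ZMod (p ^ y)) → ℤ} (hA : Perf A)
    (hp2 : p ≠ 2) (hH : ¬ p ∣ Fintype.card H)
    (j : ℕ) (hj0 : j ≠ 0) (hj : ∀ h : H, (p ^ j) • h = -h) : x = y := by
  have h1 := hA.not_lt hp2 hH j hj0 hj
  have h2 := (hA.comp (swp y x)).not_lt hp2 hH j hj0 hj
  omega

theorem reduce (hp2 : p ≠ 2) (j : ℕ) (hj0 : j ≠ 0) (hj : ∀ h : H, (p ^ j) • h = -h) (x : ℕ) :
    ∀ (A : H × (ZMod (p ^ x) × ZMod (p ^ x)) → ℤ), Perf A → ∀ i, i ≤ x →
      ∃ A' : H × (ZMod (p ^ i) × ZMod (p ^ i)) → ℤ, Perf A' := by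
  classical
  induction x with
  | zero =>
    intro A hA i hi
    obtain rfl : i = 0 := by omega
    exact ⟨A, hA⟩
  | succ x ih =>
    intro A hA i hi
    by_cases h : i = x + 1
    · subst h; exact ⟨A, hA⟩
    · exact ih _ (Red.perf_red hp2 hA j hj0 hj) i (by omega)

instance sub0 : Subsingleton (ZMod (p ^ 0)) := by rw [pow_zero]; infer_instance

/-- trivial factors -/
def triv : H ≃+ H × (ZMod (p ^ 0) × ZMod (p ^ 0)) where
  toFun h := (h, 0)
  invFun x := x.1
  left_inv _ := rfl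
  right_inv x := by
    obtain ⟨h, a, b⟩ := x
    have ha : a = 0 := Subsingleton.elim _ _
    have hb : b = 0 := Subsingleton.elim _ _
    rw [ha, hb]
    rfl
  map_add' _ _ := Prod.ext rfl (add_zero (0 : ZMod (p ^ 0) × ZMod (p ^ 0))).symm

theorem base [DecidableEq H] (hp2 : p ≠ 2) (j : ℕ) (hj0 : j ≠ 0) (hj : ∀ h : H, (p ^ j) • h = -h)
    (A : H × (ZMod (p ^ (0 + 1)) × ZMod (p ^ (0 + 1))) → ℤ) (hA : Perf A) :
    ∃ U : Finset H, ∃ s : H → ℤ, (∀ h, s h = 1 ∨ s h = -1) ∧ (p + 1) * U.card = Fintype.card H ∧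
      ∀ d, d ≠ 0 → (p : ℤ) ∣ ∑ h, if h ∈ U ∧ h + d ∈ U then s h * s (h + d) else 0 := by
  have hp : p.Prime := Fact.out
  set f := Red.fb p 0 H 0 with hf
  have hsurj : Function.Surjective f := by
    rintro ⟨h, c⟩
    refine ⟨(h, (c, 0)), ?_⟩
    rw [hf, Red.fb_apply]
    simp
  have hfib : ∀ k, (univ.filter (fun g => f g = k)).card = p := by
    intro k
    have h1 := card_fiber f hsurj k
    rw [card_grp, Fintype.card_prod, ZMod.card] at h1
    have h2 : Fintype.card H * p ^ (0 + 1) ≠ 0 :=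
      mul_ne_zero Fintype.card_ne_zero (pow_ne_zero _ hp.ne_zero)
    apply Nat.eq_of_mul_eq_mul_right (Nat.pos_of_ne_zero h2)
    rw [h1]; ring
  have hS := Red.perf_red hp2 hA j hj0 hj
  have hS' := hS.comp (triv (p := p) (H := H))
  have hcount := Cnt.count hp2 (fun h c => push f A (h, c))
    (fun h => Red.red A (h, (0, 0))) (0 : ZMod (p ^ (0 + 1)))
    (by rw [ZMod.card]; ring)
    (by
      intro h c h2
      have h1 := hA.push_parity f (h, c)
      rw [hfib] at h1
      have h3 : (2 : ℤ) ∣ p := by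
        have := dvd_sub h2 h1
        rwa [sub_sub_cancel] at this
      have h4 : (2 : ℕ) ∣ p := by exact_mod_cast h3
      exact hp2 ((Nat.prime_dvd_prime_iff_eq Nat.prime_two hp).1 h4).symm)
    (by
      intro h c
      have h1 := hA.push_le f (h, c)
      rwa [hfib] at h1)
    (by
      intro h c
      have hN : (p : ℤ) ^ (2 * 1) ∣
          (Fintype.card (H × (ZMod (p ^ (0 + 1)) × ZMod (p ^ (0 + 1)))) : ℤ) := by
        rw [card_grp, ← pow_add]
        push_cast
        exact Dvd.intro_left _ rfl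
      have h1 := Div.dvd_diff p 0 H j hj0 hj (push f A) _ 1 hN (hA.push_sq f)
        (fun d hd => hA.push_zero f d hd) h
      have h2 : ∀ k : ℕ, (p : ℤ) ∣ push f A (h, (k : ZMod (p ^ (0 + 1)))) - push f A (h, 0) := by
        intro k
        induction k with
        | zero => simp
        | succ k ih =>
          have h3 := h1 (k : ZMod (p ^ (0 + 1)))
          rw [pow_one, pow_zero, Nat.cast_one] at h3
          have h4 := dvd_sub ih h3
          push_cast
          have h5 : push f A (h, (k : ZMod (p ^ (0 + 1)))) - push f A (h, 0) -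
              (push f A (h, (k : ZMod (p ^ (0 + 1)))) -
                push f A (h, (k : ZMod (p ^ (0 + 1))) + 1)) =
              push f A (h, (k : ZMod (p ^ (0 + 1))) + 1) - push f A (h, 0) := by ring
          rwa [h5] at h4
      have h3 := h2 c.val
      rwa [ZMod.natCast_zmod_val] at h3)
    (fun h => hS.1 _)
    (by
      intro h
      rw [← Red.red_spec hA j hj0 hj]
      simp only [push]
      rw [Finset.sum_comm]
      refine Finset.sum_congr rfl fun g _ => ?_
      obtain ⟨h', x', y'⟩ := g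
      rw [hf]
      simp only [Red.fb_apply, Red.rho_apply, Prod.mk.injEq, zero_mul, add_zero]
      rw [Finset.sum_eq_single x']
      · exact if_congr ⟨fun h => ⟨h.1, Subsingleton.elim _ _, Subsingleton.elim _ _⟩,
          fun h => ⟨h.1, rfl⟩⟩ rfl rfl
      · intro b _ hb
        rw [if_neg]
        rintro ⟨_, h⟩
        exact hb h.symm
      · intro h; exact absurd (Finset.mem_univ _) h)
    (by
      have h1 := hA.push_sq f
      rw [Fintype.sum_prod_type, card_grp] at h1
      rw [h1]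
      push_cast
      ring)
    (by
      intro d hd
      have h1 := hA.push_zero f (d, 0) (by
        intro h
        exact hd (Prod.ext_iff.1 h).1)
      rw [Fintype.sum_prod_type] at h1
      simpa using h1)
    (by
      intro d hd
      exact hS'.2 d hd)
  obtain ⟨U, hU1, hU2⟩ := hcount
  exact ⟨U, _, fun h => hS.1 _, hU1, hU2⟩

/-- **Group form** of the necessary conditions. -/
theorem necessary {x y : ℕ} {A : H × (ZMod (p ^ x) × ZMod (p ^ y)) → ℤ} (hA : Perf A)
    (hxy : x + y ≠ 0) (hp2 : p ≠ 2) (hH : ¬ p ∣ Fintype.card H)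
    (j : ℕ) (hj0 : j ≠ 0) (hj : ∀ h : H, (p ^ j) • h = -h) :
    x = y ∧ (∀ i, i ≤ x → ∃ A' : H × (ZMod (p ^ i) × ZMod (p ^ i)) → ℤ, Perf A') ∧
      (p + 1) ∣ Fintype.card H ∧ (5 ≤ p → (p + 1) * (p + 2) ≤ Fintype.card H) := by
  classical
  have hp : p.Prime := Fact.out
  obtain rfl := exp_eq hA hp2 hH j hj0 hj
  have hr := reduce hp2 j hj0 hj x A hA
  obtain ⟨A1, hA1⟩ := hr (0 + 1) (by omega)
  obtain ⟨A0, hA0⟩ := hr 0 (by omega)
  obtain ⟨U, s, hs, hU, hR⟩ := base hp2 j hj0 hj A1 hA1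
  refine ⟨rfl, hr, ⟨_, hU.symm⟩, fun hp5 => ?_⟩
  have hsq : ∃ m : ℕ, Fintype.card H = m ^ 2 := by
    have h1 := (hA0.comp (triv (p := p) (H := H))).card_sq
    refine ⟨(∑ g, (A0 ∘ (triv (p := p) (H := H))) g).natAbs, ?_⟩
    have h2 : ((∑ g, (A0 ∘ (triv (p := p) (H := H))) g).natAbs : ℤ) ^ 2 =
        Fintype.card H := by
      rw [Int.natCast_natAbs, sq_abs, h1]
    exact_mod_cast h2.symm
  have h1 := Cnt.lower hp hp5 U s hs hH hsq hU hR
  rw [← hU]
  exact Nat.mul_le_mul_left _ h1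

end Grp

end Run7.h595
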