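import Mathlib
import Pool.Agent.Run7.h595.Grp

set_option autoImplicit false
set_option linter.unusedSectionVars false

/-!
Two-dimensional perfect binary arrays and the passage to groups.
-/

namespace Run7.h595

open Finset

/-- A perfect binary array `PBA(s,t)` exists. -/
def PBA (s t : ℕ) : Prop :=
  ∃ (_ : NeZero s) (_ : NeZero t) (a : ZMod s → ZMod t → ℤ),
    (∀ i j, a i j = 1 ∨ a i j = -1) ∧
    ∀ u v, ∑ i, ∑ j, a i j * a (i + u) (j + v) = if u = 0 ∧ v = 0 then (s : ℤ) * t else 0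

theorem PBA_iff (s t : ℕ) : PBA s t ↔ ∃ (_ : NeZero s) (_ : NeZero t) (A : ZMod s × ZMod t → ℤ),
    Perf A := by
  constructor
  · rintro ⟨hs, ht, a, ha, hc⟩
    refine ⟨hs, ht, fun g => a g.1 g.2, fun g => ha _ _, ?_⟩
    rintro ⟨u, v⟩ hd
    rw [Fintype.sum_prod_type]
    have h := hc u v
    rw [if_neg (by
      rintro ⟨rfl, rfl⟩
      exact hd rfl)] at h
    exact h
  · rintro ⟨hs, ht, A, hA⟩
    refine ⟨hs, ht, fun i j => A (i, j), fun i j => hA.1 _, fun u v => ?_⟩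
    by_cases h : u = 0 ∧ v = 0
    · rw [if_pos h, h.1, h.2]
      simp only [add_zero]
      have := hA.sum_sq
      rw [Fintype.sum_prod_type] at this
      rw [this, Fintype.card_prod, ZMod.card, ZMod.card]
      push_cast
      ring
    · rw [if_neg h]
      have := hA.2 (u, v) (by
        intro h'
        exact h ⟨(Prod.ext_iff.1 h').1, (Prod.ext_iff.1 h').2⟩)
      rw [Fintype.sum_prod_type] at this
      exact this

/-- transfer of perfect arrays along isomorphisms -/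
theorem perf_equiv {G K : Type} [AddCommGroup G] [Fintype G] [AddCommGroup K] [Fintype K]
    (e : K ≃+ G) : (∃ A : G → ℤ, Perf A) ↔ ∃ A : K → ℤ, Perf A :=
  ⟨fun ⟨_, hA⟩ => ⟨_, hA.comp e⟩, fun ⟨_, hA⟩ => ⟨_, hA.comp e.symm⟩⟩

/-- splitting of the cyclic factors -/
noncomputable def split (p x y s t : ℕ) (hs : Nat.Coprime (p ^ x) s) (ht : Nat.Coprime (p ^ y) t) :
    ZMod (p ^ x * s) × ZMod (p ^ y * t) ≃+ (ZMod s × ZMod t) × (ZMod (p ^ x) × ZMod (p ^ y)) :=
  (AddEquiv.prodCongr (ZMod.chineseRemainder hs).toAddEquiv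
    (ZMod.chineseRemainder ht).toAddEquiv).trans
    ((AddEquiv.prodProdProdComm _ _ _ _).trans AddEquiv.prodComm)

theorem PBA_split (p x y s t : ℕ) [Fact p.Prime] [NeZero s] [NeZero t]
    (hs : Nat.Coprime p s) (ht : Nat.Coprime p t) :
    PBA (p ^ x * s) (p ^ y * t) ↔
      ∃ A : (ZMod s × ZMod t) × (ZMod (p ^ x) × ZMod (p ^ y)) → ℤ, Perf A := by
  rw [PBA_iff]
  have e := split p x y s t (Nat.Coprime.pow_left _ hs) (Nat.Coprime.pow_left _ ht)
  have h1 : NeZero (p ^ x * s) := inferInstance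
  have h2 : NeZero (p ^ y * t) := inferInstance
  constructor
  · rintro ⟨i1, i2, A, hA⟩
    have e1 : i1 = h1 := Subsingleton.elim _ _
    have e2 : i2 = h2 := Subsingleton.elim _ _
    subst e1 e2
    exact (perf_equiv e.symm).1 ⟨A, hA⟩
  · rintro ⟨A, hA⟩
    obtain ⟨A', hA'⟩ := (perf_equiv e).1 ⟨A, hA⟩
    exact ⟨h1, h2, A', hA'⟩

/-- **Necessary conditions**, in product form. -/
theorem necessary_prod {p x y s t : ℕ} (hp : p.Prime) (hp2 : p ≠ 2) (hs0 : s ≠ 0) (ht0 : t ≠ 0)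
    (hs : Nat.Coprime p s) (ht : Nat.Coprime p t) (hxy : x + y ≠ 0)
    (j : ℕ) (hj0 : j ≠ 0) (hjs : (p : ZMod s) ^ j = -1) (hjt : (p : ZMod t) ^ j = -1)
    (h : PBA (p ^ x * s) (p ^ y * t)) :
    x = y ∧ (∀ i, i ≤ x → PBA (p ^ i * s) (p ^ i * t)) ∧ (p + 1) ∣ s * t ∧
      (5 ≤ p → (p + 1) * (p + 2) ≤ s * t) := by
  have : Fact p.Prime := ⟨hp⟩
  have : NeZero s := ⟨hs0⟩
  have : NeZero t := ⟨ht0⟩
  rw [PBA_split p x y s t hs ht] at h
  obtain ⟨A, hA⟩ := h
  have hc : Fintype.card (ZMod s × ZMod t) = s * t := by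
    rw [Fintype.card_prod, ZMod.card, ZMod.card]
  have hH : ¬ p ∣ Fintype.card (ZMod s × ZMod t) := by
    rw [hc, ← Nat.Prime.coprime_iff_not_dvd hp]
    exact Nat.Coprime.mul_right hs ht
  have hj : ∀ h : ZMod s × ZMod t, (p ^ j) • h = -h := by
    rintro ⟨a, b⟩
    have e1 : (p ^ j) • a = -a := by
      rw [nsmul_eq_mul, Nat.cast_pow, hjs]; ring
    have e2 : (p ^ j) • b = -b := by
      rw [nsmul_eq_mul, Nat.cast_pow, hjt]; ring
    exact Prod.ext e1 e2
  obtain ⟨h1, h2, h3, h4⟩ := Grp.necessary hA hxy hp2 hH j hj0 hj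
  rw [hc] at h3 h4
  refine ⟨h1, fun i hi => ?_, h3, h4⟩
  rw [PBA_split p i i s t hs ht]
  exact h2 i hi

/-- **Necessary conditions** for a prime self-conjugate modulo the `p`-free part of the
exponent. -/
theorem necessary_pba {s t p : ℕ} (hp : p.Prime) (hp2 : p ≠ 2) (hpst : p ∣ s * t)
    (hsc : ∃ j : ℕ, (p : ZMod (ordCompl[p] (Nat.lcm s t))) ^ j = -1) (h : PBA s t) :
    s.factorization p = t.factorization p ∧
      (∀ i, i ≤ s.factorization p → PBA (s / p ^ i) (t / p ^ i)) ∧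
      (p + 1) ∣ ordCompl[p] (s * t) ∧
      (5 ≤ p → (p + 1) * (p + 2) ≤ ordCompl[p] (s * t)) := by
  obtain ⟨hs, ht, _⟩ := id h
  have hs0 : s ≠ 0 := hs.out
  have ht0 : t ≠ 0 := ht.out
  -- a nonzero exponent
  obtain ⟨j, hj0, hj⟩ : ∃ j : ℕ, j ≠ 0 ∧ (p : ZMod (ordCompl[p] (Nat.lcm s t))) ^ j = -1 := by
    obtain ⟨j, hj⟩ := hsc
    by_cases hj0 : j = 0
    · subst hj0
      refine ⟨1, one_ne_zero, ?_⟩
      obtain ⟨k, hk⟩ := hp.odd_of_ne_two hp2
      rw [pow_zero] at hj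
      rw [pow_one]
      have h2 : (1 : ZMod (ordCompl[p] (Nat.lcm s t))) + 1 = 0 := by
        nth_rw 2 [hj]
        exact add_neg_cancel 1
      have h3 : (p : ZMod (ordCompl[p] (Nat.lcm s t))) =
          (k : ZMod (ordCompl[p] (Nat.lcm s t))) * (1 + 1) + 1 := by
        have h4 := congrArg (fun m : ℕ => (m : ZMod (ordCompl[p] (Nat.lcm s t)))) hk
        push_cast at h4
        rw [h4]
        ring
      rw [h3, h2, mul_zero, zero_add]
      exact hj
    · exact ⟨j, hj0, hj⟩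
  have hl0 : Nat.lcm s t ≠ 0 := Nat.lcm_ne_zero hs0 ht0
  have hds : ordCompl[p] s ∣ ordCompl[p] (Nat.lcm s t) :=
    Nat.ordCompl_dvd_ordCompl_of_dvd (Nat.dvd_lcm_left s t) p
  have hdt : ordCompl[p] t ∣ ordCompl[p] (Nat.lcm s t) :=
    Nat.ordCompl_dvd_ordCompl_of_dvd (Nat.dvd_lcm_right s t) p
  have hjs : (p : ZMod (ordCompl[p] s)) ^ j = -1 := by
    have := congrArg (ZMod.castHom hds (ZMod (ordCompl[p] s))) hj
    rwa [map_pow, map_natCast, map_neg, map_one] at this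
  have hjt : (p : ZMod (ordCompl[p] t)) ^ j = -1 := by
    have := congrArg (ZMod.castHom hdt (ZMod (ordCompl[p] t))) hj
    rwa [map_pow, map_natCast, map_neg, map_one] at this
  have hs' : p ^ (s.factorization p) * ordCompl[p] s = s := Nat.ordProj_mul_ordCompl_eq_self s p
  have ht' : p ^ (t.factorization p) * ordCompl[p] t = t := Nat.ordProj_mul_ordCompl_eq_self t p
  have hcs : Nat.Coprime p (ordCompl[p] s) := Nat.coprime_ordCompl hp hs0
  have hct : Nat.Coprime p (ordCompl[p] t) := Nat.coprime_ordCompl hp ht0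
  have hs1 : ordCompl[p] s ≠ 0 := (Nat.ordCompl_pos p hs0).ne'
  have ht1 : ordCompl[p] t ≠ 0 := (Nat.ordCompl_pos p ht0).ne'
  have hxy : s.factorization p + t.factorization p ≠ 0 := by
    have h1 := hp.factorization_pos_of_dvd (mul_ne_zero hs0 ht0) hpst
    rw [Nat.factorization_mul hs0 ht0, Finsupp.add_apply] at h1
    exact h1.ne'
  have h' : PBA (p ^ (s.factorization p) * ordCompl[p] s)
      (p ^ (t.factorization p) * ordCompl[p] t) := by rw [hs', ht']; exact h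
  obtain ⟨h1, h2, h3, h4⟩ := necessary_prod hp hp2 hs1 ht1 hcs hct hxy j hj0 hjs hjt h'
  have hm : ordCompl[p] s * ordCompl[p] t = ordCompl[p] (s * t) := (Nat.ordCompl_mul s t p).symm
  rw [hm] at h3 h4
  refine ⟨h1, fun i hi => ?_, h3, h4⟩
  have e1 : s / p ^ i = p ^ (s.factorization p - i) * ordCompl[p] s := by
    have : s = p ^ i * (p ^ (s.factorization p - i) * ordCompl[p] s) := by
      rw [← mul_assoc, ← pow_add, Nat.add_sub_cancel' hi, hs']
    conv_lhs => rw [this]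
    exact Nat.mul_div_cancel_left _ (pow_pos hp.pos _)
  have e2 : t / p ^ i = p ^ (s.factorization p - i) * ordCompl[p] t := by
    have : t = p ^ i * (p ^ (s.factorization p - i) * ordCompl[p] t) := by
      rw [← mul_assoc, ← pow_add, Nat.add_sub_cancel' hi, h1, ht']
    conv_lhs => rw [this]
    exact Nat.mul_div_cancel_left _ (pow_pos hp.pos _)
  rw [e1, e2]
  exact h2 _ (Nat.sub_le _ _)

end Run7.h595
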