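import Mathlib

set_option autoImplicit false
set_option linter.unusedSectionVars false

/-!
The digit function and its correlations.
-/

namespace Run7.h595

open Finset

namespace Gam

/-- the sign of a ternary digit -/
def gam (n : ℤ) : ℤ := if n % 3 = 2 then -1 else 1

/-- the product of the signs of the lowest `b` ternary digits -/
def Gam : ℕ → ℤ → ℤ
  | 0, _ => 1
  | b + 1, n => gam n * Gam b (n / 3)

theorem gam_pm (n : ℤ) : gam n = 1 ∨ gam n = -1 := by
  unfold gam; split_ifs <;> simp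

theorem Gam_pm (b : ℕ) : ∀ n : ℤ, Gam b n = 1 ∨ Gam b n = -1 := by
  induction b with
  | zero => intro n; left; rfl
  | succ b ih =>
    intro n
    rw [Gam]
    rcases gam_pm n with h1 | h1 <;> rcases ih (n / 3) with h2 | h2 <;> rw [h1, h2] <;> norm_num

theorem gam_add (n k : ℤ) : gam (n + 3 * k) = gam n := by
  unfold gam
  rw [Int.add_mul_emod_self_left]

theorem Gam_add (b : ℕ) : ∀ n k : ℤ, Gam b (n + 3 ^ b * k) = Gam b n := by
  induction b with
  | zero => intro n k; rfl
  | succ b ih =>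
    intro n k
    rw [Gam, Gam]
    have h1 : n + 3 ^ (b + 1) * k = n + 3 * (3 ^ b * k) := by ring
    rw [h1, gam_add, Int.add_mul_ediv_left _ _ (by norm_num), ih]

theorem Gam_congr (b : ℕ) (n m : ℤ) (h : (3 : ℤ) ^ b ∣ n - m) : Gam b n = Gam b m := by
  obtain ⟨k, hk⟩ := h
  have : n = m + 3 ^ b * k := by linarith
  rw [this, Gam_add]

theorem Gam_digit (b : ℕ) (c n : ℤ) : Gam (b + 1) (c + 3 * n) = gam c * Gam b (c / 3 + n) := by
  rw [Gam, gam_add, Int.add_mul_ediv_left _ _ (by norm_num)]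

/-- splitting a range sum into residues modulo `3` -/
theorem sum_range_three_mul (f : ℕ → ℤ) (n : ℕ) :
    ∑ k ∈ range (3 * n), f k = ∑ y ∈ range n, ∑ c ∈ range 3, f (c + 3 * y) := by
  induction n with
  | zero => simp
  | succ n ih =>
    rw [show 3 * (n + 1) = 3 * n + 1 + 1 + 1 by ring, Finset.sum_range_succ, Finset.sum_range_succ,
      Finset.sum_range_succ, ih, Finset.sum_range_succ]
    simp only [Finset.sum_range_succ, Finset.sum_range_zero]
    rw [show 0 + 3 * n = 3 * n by ring, show 1 + 3 * n = 3 * n + 1 by ring,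
      show 2 + 3 * n = 3 * n + 1 + 1 by ring]
    ring

/-- sum of a periodic function over three periods -/
theorem sum_range_period (f : ℕ → ℤ) (n : ℕ) (hf : ∀ k, f (k + n) = f k) :
    ∑ k ∈ range (3 * n), f k = 3 * ∑ k ∈ range n, f k := by
  have h1 : ∀ m, ∑ k ∈ range n, f (m * n + k) = ∑ k ∈ range n, f k := by
    intro m
    induction m with
    | zero => simp
    | succ m ih =>
      rw [← ih]
      refine Finset.sum_congr rfl fun k _ => ?_
      rw [← hf (m * n + k)]
      congr 1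
      ring
  rw [show 3 * n = n + n + n by ring, Finset.sum_range_add, Finset.sum_range_add]
  have h2 := h1 1
  have h3 := h1 2
  rw [one_mul] at h2
  rw [show 2 * n = n + n by ring] at h3
  rw [h2, h3]
  ring

theorem sum_Gam (b : ℕ) : ∑ k ∈ range (3 ^ b), Gam b (k : ℤ) = 1 := by
  induction b with
  | zero => simp [Gam]
  | succ b ih =>
    rw [show 3 ^ (b + 1) = 3 * 3 ^ b by ring, sum_range_three_mul]
    have h1 : ∀ y ∈ range (3 ^ b), ∑ c ∈ range 3, Gam (b + 1) (((c + 3 * y : ℕ)) : ℤ) =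
        Gam b (y : ℤ) := by
      intro y _
      simp only [Finset.sum_range_succ, Finset.sum_range_zero]
      push_cast
      rw [Gam_digit, Gam_digit, Gam_digit]
      simp only [gam]
      norm_num
    rw [Finset.sum_congr rfl h1, ih]

/-- the digit function on residues -/
def g (b : ℕ) (x : ZMod (3 ^ b)) : ℤ := Gam b (x.val : ℤ)

theorem g_pm (b : ℕ) (x : ZMod (3 ^ b)) : g b x = 1 ∨ g b x = -1 := Gam_pm b _

theorem g_intCast (b : ℕ) (n : ℤ) : g b (n : ZMod (3 ^ b)) = Gam b n := by
  unfold g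
  apply Gam_congr
  have h : (((n : ZMod (3 ^ b)).val : ℤ) : ZMod (3 ^ b)) = (n : ZMod (3 ^ b)) := by
    rw [Int.cast_natCast, ZMod.natCast_zmod_val]
  have h2 := (ZMod.intCast_eq_intCast_iff_dvd_sub _ _ _).1 h.symm
  exact_mod_cast h2

theorem sum_zmod (N : ℕ) [NeZero N] (f : ZMod N → ℤ) :
    ∑ x, f x = ∑ k ∈ range N, f (k : ZMod N) := by
  rw [← Fin.sum_univ_eq_sum_range (fun k => f (k : ZMod N)) N]
  obtain ⟨n, rfl⟩ : ∃ n, N = n + 1 := ⟨N - 1, by have := NeZero.ne N; omega⟩
  refine Finset.sum_congr rfl fun x _ => ?_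
  congr 1
  exact (ZMod.natCast_zmod_val (n := n + 1) x).symm

theorem sum_g (b : ℕ) : ∑ x, g b x = 1 := by
  rw [sum_zmod, ← sum_Gam b]
  refine Finset.sum_congr rfl fun k _ => ?_
  exact_mod_cast g_intCast b k

/-- the correlation sums -/
def R (b : ℕ) (u v : ℤ) : ℤ :=
  ∑ r ∈ range (3 ^ b), ∑ m ∈ range (3 ^ b),
    Gam b r * Gam b (r + (v - 3 * u * r) * (1 + 3 * m))

theorem R_zero (u v : ℤ) : R 0 u v = 1 := by
  simp [R, Gam]

/-- sum over an affine progression with unit step -/
theorem sum_affine (b : ℕ) (e D : ℤ) (hD : ¬ (3 : ℤ) ∣ D) :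
    ∑ m ∈ range (3 ^ b), Gam b (e + D * m) = 1 := by
  have hcop : IsCoprime D ((3 : ℤ) ^ b) := by
    apply IsCoprime.pow_right
    rw [isCoprime_comm]
    exact (Int.prime_three.coprime_iff_not_dvd).2 hD
  have hunit : IsUnit (D : ZMod (3 ^ b)) := by
    obtain ⟨x, y, hxy⟩ := hcop
    have h1 := congrArg (fun z : ℤ => (z : ZMod (3 ^ b))) hxy
    push_cast at h1
    have h2 : ((3 : ZMod (3 ^ b)) ^ b) = 0 := by
      have := ZMod.natCast_self (3 ^ b)
      push_cast at this
      exact this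
    rw [h2, mul_zero, add_zero] at h1
    exact IsUnit.of_mul_eq_one _ (by rw [mul_comm]; exact h1)
  have h1 : ∑ m ∈ range (3 ^ b), Gam b (e + D * m) =
      ∑ m : ZMod (3 ^ b), g b ((e : ZMod (3 ^ b)) + D * m) := by
    rw [sum_zmod]
    refine Finset.sum_congr rfl fun m _ => ?_
    rw [← g_intCast]
    push_cast
    rfl
  rw [h1, ← sum_g b]
  have hbij : Function.Bijective (fun m : ZMod (3 ^ b) => (e : ZMod (3 ^ b)) + D * m) := by
    apply Finite.injective_iff_bijective.1
    intro x y hxy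
    have h3 := add_left_cancel hxy
    exact hunit.mul_left_cancel h3
  exact Function.Bijective.sum_comp hbij (g b)

theorem R_unit (b : ℕ) (u v : ℤ) (hv : ¬ (3 : ℤ) ∣ v) : R (b + 1) u v = -3 := by
  unfold R
  have h1 : ∀ r ∈ range (3 ^ (b + 1)), ∑ m ∈ range (3 ^ (b + 1)),
      Gam (b + 1) r * Gam (b + 1) (r + (v - 3 * u * r) * (1 + 3 * m)) =
      3 * (Gam (b + 1) r * gam (r + v)) := by
    intro r _
    rw [← Finset.mul_sum]
    have hD : ¬ (3 : ℤ) ∣ (v - 3 * u * r) := by
      intro h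
      apply hv
      have := dvd_add h (Dvd.intro (u * r) rfl : (3 : ℤ) ∣ 3 * (u * r))
      rwa [show v - 3 * u * r + 3 * (u * r) = v by ring] at this
    have h2 : ∀ m ∈ range (3 ^ (b + 1)),
        Gam (b + 1) (r + (v - 3 * u * r) * (1 + 3 * m)) =
        gam (r + v) * Gam b ((r + (v - 3 * u * r)) / 3 + (v - 3 * u * r) * m) := by
      intro m _
      rw [show (r : ℤ) + (v - 3 * u * r) * (1 + 3 * m) =
        (r + (v - 3 * u * r)) + 3 * ((v - 3 * u * r) * m) by ring, Gam_digit]
      congr 1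
      rw [show (r : ℤ) + (v - 3 * u * r) = r + v + 3 * (-(u * r)) by ring, gam_add]
    rw [Finset.sum_congr rfl h2, ← Finset.mul_sum, show 3 ^ (b + 1) = 3 * 3 ^ b by ring,
      sum_range_period (fun m => Gam b ((r + (v - 3 * u * r)) / 3 + (v - 3 * u * r) * (m : ℤ)))]
    · rw [sum_affine b _ _ hD]
      ring
    · intro m
      apply Gam_congr
      refine ⟨v - 3 * u * r, ?_⟩
      push_cast
      ring
  rw [Finset.sum_congr rfl h1, ← Finset.mul_sum, show 3 ^ (b + 1) = 3 * 3 ^ b by ring,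
    sum_range_three_mul]
  have h3 : ∀ y ∈ range (3 ^ b), ∑ c ∈ range 3,
      Gam (b + 1) ((c + 3 * y : ℕ) : ℤ) * gam (((c + 3 * y : ℕ) : ℤ) + v) = - Gam b y := by
    intro y _
    simp only [Finset.sum_range_succ, Finset.sum_range_zero]
    push_cast
    rw [Gam_digit, Gam_digit, Gam_digit, show (0 : ℤ) + 3 * y + v = v + 3 * y by ring,
      show (1 : ℤ) + 3 * y + v = 1 + v + 3 * y by ring,
      show (2 : ℤ) + 3 * y + v = 2 + v + 3 * y by ring, gam_add, gam_add, gam_add]
    have h4 : v % 3 = 1 ∨ v % 3 = 2 := by omega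
    simp only [gam]
    rcases h4 with h4 | h4
    · rw [if_neg (by norm_num), if_neg (by omega), if_neg (by norm_num), if_pos (by omega),
        if_pos (by norm_num), if_neg (by omega)]
      norm_num
    · rw [if_neg (by norm_num), if_pos (by omega), if_neg (by norm_num), if_neg (by omega),
        if_pos (by norm_num), if_neg (by omega)]
      norm_num
  rw [Finset.sum_congr rfl h3, Finset.sum_neg_distrib, sum_Gam]
  norm_num

theorem R_rec (b : ℕ) (u w : ℤ) : R (b + 1) u (3 * w) =
    3 * ∑ c ∈ range 3, R b u (w - u * c) := by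
  unfold R
  have h0 : ∀ f : ℕ → ℤ, ∑ r ∈ range (3 ^ (b + 1)), f r =
      ∑ c ∈ range 3, ∑ y ∈ range (3 ^ b), f (c + 3 * y) := by
    intro f
    rw [show 3 ^ (b + 1) = 3 * 3 ^ b by ring, sum_range_three_mul, Finset.sum_comm]
  rw [h0, Finset.mul_sum]
  refine Finset.sum_congr rfl fun c hc => ?_
  rw [Finset.mul_sum]
  refine Finset.sum_congr rfl fun y _ => ?_
  have hc3 : c < 3 := Finset.mem_range.1 hc
  have hdiv : (c : ℤ) / 3 = 0 := by omega
  have h1 : ∀ m ∈ range (3 ^ (b + 1)),
      Gam (b + 1) ((c + 3 * y : ℕ) : ℤ) * Gam (b + 1) (((c + 3 * y : ℕ) : ℤ) +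
        (3 * w - 3 * u * ((c + 3 * y : ℕ) : ℤ)) * (1 + 3 * m)) =
      Gam b y * Gam b (y + (w - u * c - 3 * u * y) * (1 + 3 * m)) := by
    intro m _
    push_cast
    rw [show (c : ℤ) + 3 * y + (3 * w - 3 * u * (c + 3 * y)) * (1 + 3 * m) =
      c + 3 * (y + (w - u * c - 3 * u * y) * (1 + 3 * m)) by ring, Gam_digit, Gam_digit, hdiv,
      zero_add, zero_add]
    rcases gam_pm c with h | h <;> rw [h] <;> ring
  rw [Finset.sum_congr rfl h1, show 3 ^ (b + 1) = 3 * 3 ^ b by ring,
    sum_range_period (fun m => Gam b y * Gam b (y + (w - u * c - 3 * u * y) * (1 + 3 * (m : ℤ))))]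
  intro m
  congr 1
  apply Gam_congr
  refine ⟨3 * (w - u * c - 3 * u * y), ?_⟩
  push_cast
  ring

theorem R_nine (b : ℕ) : ∀ u w : ℤ, ¬ (3 : ℤ) ∣ u → R (b + 1) u (3 * w) = 9 := by
  induction b with
  | zero =>
    intro u w _
    rw [R_rec]
    simp [R_zero]
  | succ b ih =>
    intro u w hu
    rw [R_rec]
    simp only [Finset.sum_range_succ, Finset.sum_range_zero]
    have h1 : u % 3 = 1 ∨ u % 3 = 2 := by omega
    have h2 : w % 3 = 0 ∨ w % 3 = 1 ∨ w % 3 = 2 := by omega
    have key : ∀ z : ℤ, z % 3 = 0 → R (b + 1) u z = 9 := by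
      intro z hz
      obtain ⟨q, rfl⟩ : ∃ q, z = 3 * q := ⟨z / 3, by omega⟩
      exact ih u q hu
    have key2 : ∀ z : ℤ, z % 3 ≠ 0 → R (b + 1) u z = -3 := by
      intro z hz
      exact R_unit b u z (by omega)
    push_cast
    rcases h1 with h1 | h1 <;> rcases h2 with h2 | h2 | h2
    · rw [key _ (by omega), key2 _ (by omega), key2 _ (by omega)]; norm_num
    · rw [key2 (w - u * 0) (by omega), key (w - u * 1) (by omega), key2 (w - u * 2) (by omega)]
      norm_num
    · rw [key2 (w - u * 0) (by omega), key2 (w - u * 1) (by omega), key (w - u * 2) (by omega)]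
      norm_num
    · rw [key _ (by omega), key2 _ (by omega), key2 _ (by omega)]; norm_num
    · rw [key2 (w - u * 0) (by omega), key2 (w - u * 1) (by omega), key (w - u * 2) (by omega)]
      norm_num
    · rw [key2 (w - u * 0) (by omega), key (w - u * 1) (by omega), key2 (w - u * 2) (by omega)]
      norm_num

theorem R_three (b : ℕ) : ∀ u w : ℤ, R (b + 1) (3 * u) (3 * w) = 9 * R b u w := by
  induction b with
  | zero =>
    intro u w
    rw [R_rec]
    simp [R_zero]
  | succ b ih =>
    intro u w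
    rw [R_rec]
    by_cases hw : (3 : ℤ) ∣ w
    · obtain ⟨w', rfl⟩ := hw
      have h1 : ∀ c ∈ range 3, R (b + 1) (3 * u) (3 * w' - 3 * u * c) =
          9 * R b u (w' - u * c) := by
        intro c _
        rw [show 3 * w' - 3 * u * c = 3 * (w' - u * c) by ring, ih]
      rw [Finset.sum_congr rfl h1, R_rec, ← Finset.mul_sum]
      ring
    · have h1 : ∀ c ∈ range 3, R (b + 1) (3 * u) (w - 3 * u * c) = -3 := by
        intro c _
        apply R_unit
        intro h
        apply hw
        have := dvd_add h (Dvd.intro (u * c) rfl : (3 : ℤ) ∣ 3 * (u * c))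
        rwa [show w - 3 * u * c + 3 * (u * c) = w by ring] at this
      rw [Finset.sum_congr rfl h1, R_unit b u w hw]
      simp

/-- the sum of the four correlations vanishes at nonzero shifts -/
theorem R_sum (b : ℕ) : ∀ u v : ℤ, ¬ ((3 : ℤ) ^ b ∣ u ∧ (3 : ℤ) ^ b ∣ v) →
    R b u v + R b v u + R b u (u + v) + R b u (u - v) = 0 := by
  induction b with
  | zero => intro u v h; exact absurd (by simp) h
  | succ b ih =>
    intro u v h
    by_cases hu : (3 : ℤ) ∣ u
    · obtain ⟨u', rfl⟩ := hu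
      by_cases hv : (3 : ℤ) ∣ v
      · obtain ⟨v', rfl⟩ := hv
        rw [R_three, R_three, show 3 * u' + 3 * v' = 3 * (u' + v') by ring,
          show 3 * u' - 3 * v' = 3 * (u' - v') by ring, R_three, R_three]
        have := ih u' v' (by
          rintro ⟨h1, h2⟩
          apply h
          rw [pow_succ']
          exact ⟨mul_dvd_mul_left 3 h1, mul_dvd_mul_left 3 h2⟩)
        linarith
      · rw [R_unit b _ v hv, R_nine b v u' hv, R_unit b _ _ (by omega), R_unit b _ _ (by omega)]
        norm_num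
    · by_cases hv : (3 : ℤ) ∣ v
      · obtain ⟨v', rfl⟩ := hv
        rw [R_nine b u v' hu, R_unit b _ u hu, R_unit b _ _ (by omega), R_unit b _ _ (by omega)]
        norm_num
      · by_cases hs : (3 : ℤ) ∣ u + v
        · obtain ⟨q, hq⟩ := hs
          rw [hq, R_nine b u q hu, R_unit b _ v hv, R_unit b _ u hu, R_unit b _ _ (by omega)]
          norm_num
        · obtain ⟨q, hq⟩ : (3 : ℤ) ∣ u - v := by
            have h1 : u % 3 = 1 ∨ u % 3 = 2 := by omega
            have h2 : v % 3 = 1 ∨ v % 3 = 2 := by omega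
            rcases h1 with h1 | h1 <;> rcases h2 with h2 | h2 <;> omega
          rw [hq, R_nine b u q hu, R_unit b _ v hv, R_unit b _ u hu, R_unit b _ _ (by omega)]
          norm_num

end Gam

end Run7.h595
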