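import Mathlib
import Pool.Agent.Run7.h595.Gam
import Pool.Agent.Run7.h595.Arr

set_option autoImplicit false
set_option linter.unusedSectionVars false

/-!
Perfect arrays on `H × (ℤ/3^b)²` for `H` of order four.
-/

namespace Run7.h595

open Finset

namespace Exist

open Gam

variable (b : ℕ)

theorem three_nilp : IsNilpotent (3 : ZMod (3 ^ b)) := by
  refine ⟨b, ?_⟩
  have := ZMod.natCast_self (3 ^ b)
  push_cast at this
  exact this

theorem isUnit_one_add (z : ZMod (3 ^ b)) : IsUnit (1 + 3 * z) := by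
  apply IsNilpotent.isUnit_one_add
  exact (Commute.all _ _).isNilpotent_mul_right (three_nilp b)

theorem cancel (z x : ZMod (3 ^ b)) (h : (1 + 3 * z) * x = 0) : x = 0 :=
  (isUnit_one_add b z).mul_right_eq_zero.1 h

/-- the inverse of `1 + 3m` -/
noncomputable def J (m : ZMod (3 ^ b)) : ZMod (3 ^ b) := ((isUnit_one_add b m).unit⁻¹ : (ZMod (3 ^ b))ˣ)

theorem J_mul (m : ZMod (3 ^ b)) : (1 + 3 * m) * J b m = 1 := by
  have := (isUnit_one_add b m).mul_val_inv
  exact this

theorem J_eq (m x : ZMod (3 ^ b)) (h : (1 + 3 * m) * x = 1) : x = J b m := by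
  have h1 := J_mul b m
  have h2 : (1 + 3 * m) * (x - J b m) = 0 := by rw [mul_sub, h, h1, sub_self]
  exact sub_eq_zero.1 (cancel b m _ h2)

/-- the basic array -/
noncomputable def F (m l : ZMod (3 ^ b)) : ℤ := g b (l * J b m)

theorem F_pm (m l : ZMod (3 ^ b)) : F b m l = 1 ∨ F b m l = -1 := g_pm b _

/-- the involution -/
noncomputable def sig (m : ZMod (3 ^ b)) : ZMod (3 ^ b) := -(m * J b m)

theorem J_sig (m : ZMod (3 ^ b)) : 1 + 3 * sig b m = J b m := by
  unfold sig
  have := J_mul b m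
  linear_combination -this

theorem sig_sig (m : ZMod (3 ^ b)) : sig b (sig b m) = m := by
  have h1 : J b (sig b m) = 1 + 3 * m := by
    symm
    apply J_eq
    rw [J_sig, mul_comm]
    exact J_mul b m
  conv_lhs => rw [sig, h1, sig]
  have := J_mul b m
  linear_combination m * this

theorem corrF (U V : ℤ) :
    ∑ m : ZMod (3 ^ b), ∑ l : ZMod (3 ^ b), F b m l * F b (m + (U : ZMod (3 ^ b)))
      (l + (V : ZMod (3 ^ b))) = R b U V := by
  have h1 : ∀ m : ZMod (3 ^ b), ∑ l : ZMod (3 ^ b), F b m l * F b (m + (U : ZMod (3 ^ b)))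
      (l + (V : ZMod (3 ^ b))) = ∑ r : ZMod (3 ^ b), g b r *
        g b (r + ((V : ZMod (3 ^ b)) - 3 * U * r) * J b (m + U)) := by
    intro m
    have hbij : Function.Bijective (fun r : ZMod (3 ^ b) => r * (1 + 3 * m)) := by
      apply Finite.injective_iff_bijective.1
      intro x y hxy
      exact (isUnit_one_add b m).mul_right_cancel hxy
    rw [← Function.Bijective.sum_comp hbij]
    refine Finset.sum_congr rfl fun r _ => ?_
    unfold F
    have e1 : r * (1 + 3 * m) * J b m = r := by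
      have := J_mul b m
      linear_combination r * this
    have e2 : (r * (1 + 3 * m) + (V : ZMod (3 ^ b))) * J b (m + U) =
        r + ((V : ZMod (3 ^ b)) - 3 * U * r) * J b (m + U) := by
      have := J_mul b (m + U)
      linear_combination r * this
    simp only [e1, e2]
  rw [Finset.sum_congr rfl fun m _ => h1 m, Finset.sum_comm]
  have h2 : ∀ r : ZMod (3 ^ b), ∑ m : ZMod (3 ^ b), g b r *
        g b (r + ((V : ZMod (3 ^ b)) - 3 * U * r) * J b (m + U)) =
      ∑ m : ZMod (3 ^ b), g b r *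
        g b (r + ((V : ZMod (3 ^ b)) - 3 * U * r) * (1 + 3 * m)) := by
    intro r
    have e1 : Function.Bijective (fun m : ZMod (3 ^ b) => sig b (m + (U : ZMod (3 ^ b)))) := by
      apply Finite.injective_iff_bijective.1
      intro x y hxy
      have h3 := congrArg (sig b) hxy
      simp only [sig_sig] at h3
      exact add_right_cancel h3
    rw [← Function.Bijective.sum_comp e1 (fun m => g b r *
        g b (r + ((V : ZMod (3 ^ b)) - 3 * U * r) * (1 + 3 * m)))]
    refine Finset.sum_congr rfl fun m _ => ?_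
    rw [J_sig]
  rw [Finset.sum_congr rfl fun r _ => h2 r, sum_zmod]
  unfold R
  refine Finset.sum_congr rfl fun r _ => ?_
  rw [sum_zmod]
  refine Finset.sum_congr rfl fun m _ => ?_
  rw [← g_intCast, ← g_intCast]
  push_cast
  rfl

/-- the four arrays -/
noncomputable def arr (k : Fin 4) (x : ZMod (3 ^ b) × ZMod (3 ^ b)) : ℤ :=
  match k with
  | 0 => F b x.1 x.2
  | 1 => F b x.2 x.1
  | 2 => F b x.1 (x.1 + x.2)
  | 3 => F b x.1 (x.1 - x.2)

theorem arr_pm (k : Fin 4) (x : ZMod (3 ^ b) × ZMod (3 ^ b)) :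
    arr b k x = 1 ∨ arr b k x = -1 := by
  fin_cases k <;> exact F_pm b _ _

/-- the linear forms -/
def lf (k : Fin 4) (x : ZMod (3 ^ b) × ZMod (3 ^ b)) : ZMod (3 ^ b) :=
  match k with
  | 0 => x.2
  | 1 => x.1
  | 2 => x.1 + x.2
  | 3 => x.1 - x.2

/-- the companion forms -/
def mf (k : Fin 4) (x : ZMod (3 ^ b) × ZMod (3 ^ b)) : ZMod (3 ^ b) :=
  match k with
  | 0 => x.1
  | 1 => x.2
  | 2 => x.1
  | 3 => x.1

theorem arr_eq (k : Fin 4) (x : ZMod (3 ^ b) × ZMod (3 ^ b)) :
    arr b k x = g b (lf b k x * J b (mf b k x)) := by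
  fin_cases k <;> rfl

theorem lf_sub (k : Fin 4) (x y : ZMod (3 ^ b) × ZMod (3 ^ b)) :
    lf b k (x - y) = lf b k x - lf b k y := by
  fin_cases k <;> simp [lf] <;> ring

theorem mf_sub (k : Fin 4) (x y : ZMod (3 ^ b) × ZMod (3 ^ b)) :
    mf b k (x - y) = mf b k x - mf b k y := by
  fin_cases k <;> simp [mf]

theorem inj_core (k k' : Fin 4) (hk : k ≠ k') (x : ZMod (3 ^ b) × ZMod (3 ^ b))
    (r s : ZMod (3 ^ b)) (h1 : lf b k x = 3 * r * mf b k x)
    (h2 : lf b k' x = 3 * s * mf b k' x) : x = 0 := by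
  obtain ⟨x, y⟩ := x
  have fin : ∀ x y : ZMod (3 ^ b), x = 0 → y = 0 → (x, y) = (0 : ZMod (3 ^ b) × ZMod (3 ^ b)) := by
    rintro _ _ rfl rfl; rfl
  fin_cases k <;> fin_cases k' <;> simp only [lf, mf] at h1 h2
  · exact absurd rfl hk
  · have h : x = 0 := cancel b (-(3 * r * s)) x (by linear_combination h2 + 3 * s * h1)
    exact fin _ _ h (by rw [h1, h]; ring)
  · have h : x = 0 := cancel b (r - s) x (by linear_combination h2 - h1)
    exact fin _ _ h (by rw [h1, h]; ring)
  · have h : x = 0 := cancel b (-r - s) x (by linear_combination h2 + h1)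
    exact fin _ _ h (by rw [h1, h]; ring)
  · have h : x = 0 := cancel b (-(3 * r * s)) x (by linear_combination h1 + 3 * r * h2)
    exact fin _ _ h (by rw [h2, h]; ring)
  · exact absurd rfl hk
  · have h : y = 0 := cancel b (r - 3 * r * s) y (by linear_combination h2 - (1 - 3 * s) * h1)
    exact fin _ _ (by rw [h1, h]; ring) h
  · have h : y = 0 := cancel b (- r + 3 * r * s) y (by linear_combination -h2 + (1 - 3 * s) * h1)
    exact fin _ _ (by rw [h1, h]; ring) h
  · have h : x = 0 := cancel b (s - r) x (by linear_combination h1 - h2)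
    exact fin _ _ h (by rw [h2, h]; ring)
  · have h : y = 0 := cancel b (s - 3 * r * s) y (by linear_combination h1 - (1 - 3 * r) * h2)
    exact fin _ _ (by rw [h2, h]; ring) h
  · exact absurd rfl hk
  · have h : x = 0 := cancel b (r + s - 1) x (by linear_combination -h1 - h2)
    exact fin _ _ h (by rw [h] at h1; linear_combination h1)
  · have h : x = 0 := cancel b (-s - r) x (by linear_combination h1 + h2)
    exact fin _ _ h (by rw [h2, h]; ring)
  · have h : y = 0 := cancel b (- s + 3 * r * s) y (by linear_combination -h1 + (1 - 3 * r) * h2)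
    exact fin _ _ (by rw [h2, h]; ring) h
  · have h : x = 0 := cancel b (r + s - 1) x (by linear_combination -h1 - h2)
    exact fin _ _ h (by rw [h] at h1; linear_combination -h1)
  · exact absurd rfl hk

theorem cross (k k' : Fin 4) (hk : k ≠ k') (d : ZMod (3 ^ b) × ZMod (3 ^ b)) :
    ∑ x, arr b k x * arr b k' (x + d) = 1 := by
  set φ : ZMod (3 ^ b) × ZMod (3 ^ b) → ZMod (3 ^ b) × ZMod (3 ^ b) := fun x =>
    (lf b k x * J b (mf b k x), lf b k' (x + d) * J b (mf b k' (x + d))) with hφ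
  have hinj : Function.Injective φ := by
    intro x y hxy
    rw [hφ] at hxy
    have e1 := (Prod.ext_iff.1 hxy).1
    have e2 := (Prod.ext_iff.1 hxy).2
    simp only at e1 e2
    have key : ∀ (k : Fin 4) (x y : ZMod (3 ^ b) × ZMod (3 ^ b)),
        lf b k x * J b (mf b k x) = lf b k y * J b (mf b k y) →
        lf b k (x - y) = 3 * (lf b k x * J b (mf b k x)) * mf b k (x - y) := by
      intro k x y h
      rw [lf_sub, mf_sub]
      have j1 := J_mul b (mf b k x)
      have j2 := J_mul b (mf b k y)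
      linear_combination (1 + 3 * mf b k y) * h - lf b k x * j1 + lf b k y * j2
    have h1 := key k x y e1
    have h2 := key k' (x + d) (y + d) e2
    rw [add_sub_add_right_eq_sub] at h2
    exact sub_eq_zero.1 (inj_core b k k' hk (x - y) _ _ h1 h2)
  have hbij : Function.Bijective φ := Finite.injective_iff_bijective.1 hinj
  have h1 : ∀ x, arr b k x * arr b k' (x + d) = g b (φ x).1 * g b (φ x).2 := by
    intro x
    rw [arr_eq, arr_eq]
  rw [Finset.sum_congr rfl fun x _ => h1 x,
    Function.Bijective.sum_comp hbij (fun z => g b z.1 * g b z.2), Fintype.sum_prod_type]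
  simp only
  rw [← Finset.sum_mul_sum, sum_g]
  norm_num

theorem auto_sum (d : ZMod (3 ^ b) × ZMod (3 ^ b)) (hd : d ≠ 0) :
    ∑ k : Fin 4, ∑ x, arr b k x * arr b k (x + d) = 0 := by
  obtain ⟨u, v⟩ := d
  set U : ℤ := (u.val : ℤ) with hU
  set V : ℤ := (v.val : ℤ) with hV
  have hu : u = (U : ZMod (3 ^ b)) := by rw [hU, Int.cast_natCast, ZMod.natCast_zmod_val]
  have hv : v = (V : ZMod (3 ^ b)) := by rw [hV, Int.cast_natCast, ZMod.natCast_zmod_val]
  have hne : ¬ ((3 : ℤ) ^ b ∣ U ∧ (3 : ℤ) ^ b ∣ V) := by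
    rintro ⟨h1, h2⟩
    apply hd
    have e1 : u = 0 := by
      rw [hu, ZMod.intCast_zmod_eq_zero_iff_dvd]
      exact_mod_cast h1
    have e2 : v = 0 := by
      rw [hv, ZMod.intCast_zmod_eq_zero_iff_dvd]
      exact_mod_cast h2
    rw [e1, e2]; rfl
  rw [Fin.sum_univ_four]
  have h0 : ∑ x, arr b 0 x * arr b 0 (x + (u, v)) = R b U V := by
    rw [← corrF, Fintype.sum_prod_type, hu, hv]
    rfl
  have h1 : ∑ x, arr b 1 x * arr b 1 (x + (u, v)) = R b V U := by
    rw [← corrF, Fintype.sum_prod_type_right, hu, hv]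
    rfl
  have h2 : ∑ x, arr b 2 x * arr b 2 (x + (u, v)) = R b U (U + V) := by
    rw [← corrF, Fintype.sum_prod_type]
    refine Finset.sum_congr rfl fun x _ => ?_
    rw [← Equiv.sum_comp (Equiv.addLeft x) (fun l => F b x l * F b (x + (U : ZMod (3 ^ b)))
      (l + ((U + V : ℤ) : ZMod (3 ^ b))))]
    refine Finset.sum_congr rfl fun y _ => ?_
    simp only [arr, Prod.mk_add_mk, Equiv.coe_addLeft]
    rw [← hu]
    congr 2
    push_cast
    rw [← hu, ← hv]
    ring
  have h3 : ∑ x, arr b 3 x * arr b 3 (x + (u, v)) = R b U (U - V) := by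
    rw [← corrF, Fintype.sum_prod_type]
    refine Finset.sum_congr rfl fun x _ => ?_
    rw [← Equiv.sum_comp (Equiv.subLeft x) (fun l => F b x l * F b (x + (U : ZMod (3 ^ b)))
      (l + ((U - V : ℤ) : ZMod (3 ^ b))))]
    refine Finset.sum_congr rfl fun y _ => ?_
    simp only [arr, Prod.mk_add_mk, Equiv.subLeft_apply]
    rw [← hu]
    congr 2
    push_cast
    rw [← hu, ← hv]
    ring
  rw [h0, h1, h2, h3]
  exact R_sum b U V hne

/-- **Existence** of a perfect array on `H × (ℤ/3^b)²`. -/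
theorem exists_perf {H : Type} [AddCommGroup H] [Fintype H] (hH : Fintype.card H = 4)
    (S : H → ℤ) (hS : Perf S) :
    ∃ A : H × (ZMod (3 ^ b) × ZMod (3 ^ b)) → ℤ, Perf A := by
  set κ : H ≃ Fin 4 := Fintype.equivFinOfCardEq hH
  refine ⟨fun z => S z.1 * arr b (κ z.1) z.2, ?_, ?_⟩
  · rintro ⟨h, x⟩
    simp only
    rcases hS.1 h with h1 | h1 <;> rcases arr_pm b (κ h) x with h2 | h2 <;> rw [h1, h2] <;>
      norm_num
  · rintro ⟨d, e⟩ hde
    rw [Fintype.sum_prod_type]
    simp only [Prod.mk_add_mk]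
    have h1 : ∀ h : H, ∑ x, S h * arr b (κ h) x * (S (h + d) * arr b (κ (h + d)) (x + e)) =
        S h * S (h + d) * ∑ x, arr b (κ h) x * arr b (κ (h + d)) (x + e) := by
      intro h
      rw [Finset.mul_sum]
      exact Finset.sum_congr rfl fun x _ => by ring
    rw [Finset.sum_congr rfl fun h _ => h1 h]
    by_cases hd : d = 0
    · subst hd
      have he : e ≠ 0 := by
        rintro rfl; exact hde rfl
      simp only [add_zero]
      have h2 : ∀ h : H, S h * S h * ∑ x, arr b (κ h) x * arr b (κ h) (x + e) =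
          ∑ x, arr b (κ h) x * arr b (κ h) (x + e) := by
        intro h
        rcases hS.1 h with h3 | h3 <;> rw [h3] <;> ring
      rw [Finset.sum_congr rfl fun h _ => h2 h,
        Equiv.sum_comp κ (fun k => ∑ x, arr b k x * arr b k (x + e))]
      exact auto_sum b e he
    · have h2 : ∀ h : H, ∑ x, arr b (κ h) x * arr b (κ (h + d)) (x + e) = 1 := by
        intro h
        apply cross
        intro h3
        have h4 := κ.injective h3
        exact hd (by simpa using h4)
      simp only [h2, mul_one]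
      exact hS.2 d hd

/-- product of perfect arrays -/
theorem perf_prod {G K : Type} [AddCommGroup G] [Fintype G] [AddCommGroup K] [Fintype K]
    {A : G → ℤ} {B : K → ℤ} (hA : Perf A) (hB : Perf B) :
    Perf (fun z : G × K => A z.1 * B z.2) := by
  refine ⟨?_, ?_⟩
  · rintro ⟨x, y⟩
    simp only
    rcases hA.1 x with h1 | h1 <;> rcases hB.1 y with h2 | h2 <;> rw [h1, h2] <;> norm_num
  · rintro ⟨d, e⟩ hde
    rw [Fintype.sum_prod_type]
    simp only [Prod.mk_add_mk]
    have h1 : ∑ x, ∑ y, A x * B y * (A (x + d) * B (y + e)) =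
        (∑ x, A x * A (x + d)) * ∑ y, B y * B (y + e) := by
      rw [Finset.sum_mul_sum]
      refine Finset.sum_congr rfl fun x _ => Finset.sum_congr rfl fun y _ => ?_
      ring
    rw [h1]
    by_cases hd : d = 0
    · have he : e ≠ 0 := by
        rintro rfl; exact hde (by rw [hd]; rfl)
      rw [hB.2 e he, mul_zero]
    · rw [hA.2 d hd, zero_mul]

theorem perf22 : Perf (fun h : ZMod 2 × ZMod 2 => if h = (1, 1) then (-1 : ℤ) else 1) := by
  unfold Perf
  decide

theorem perf4 : Perf (fun h : ZMod 4 => if h = 3 then (-1 : ℤ) else 1) := by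
  unfold Perf
  decide

theorem perf14 : Perf (fun h : ZMod 1 × ZMod 4 => if h.2 = 3 then (-1 : ℤ) else 1) := by
  unfold Perf
  decide

theorem perf41 : Perf (fun h : ZMod 4 × ZMod 1 => if h.1 = 3 then (-1 : ℤ) else 1) := by
  unfold Perf
  decide

theorem pba_22 : PBA (3 ^ b * 2) (3 ^ b * 2) := by
  have : Fact (Nat.Prime 3) := ⟨Nat.prime_three⟩
  rw [PBA_split 3 b b 2 2 (by norm_num) (by norm_num)]
  exact exists_perf b (by rw [Fintype.card_prod, ZMod.card]) _ perf22

theorem pba_14 : PBA (3 ^ b * 1) (3 ^ b * 4) := by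
  have : Fact (Nat.Prime 3) := ⟨Nat.prime_three⟩
  rw [PBA_split 3 b b 1 4 (by norm_num) (by norm_num)]
  exact exists_perf b (by rw [Fintype.card_prod, ZMod.card, ZMod.card]) _ perf14

theorem pba_41 : PBA (3 ^ b * 4) (3 ^ b * 1) := by
  have : Fact (Nat.Prime 3) := ⟨Nat.prime_three⟩
  rw [PBA_split 3 b b 4 1 (by norm_num) (by norm_num)]
  exact exists_perf b (by rw [Fintype.card_prod, ZMod.card, ZMod.card]) _ perf41

theorem pba_44 : PBA (3 ^ b * 4) (3 ^ b * 4) := by
  have : Fact (Nat.Prime 3) := ⟨Nat.prime_three⟩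
  rw [PBA_split 3 b b 4 4 (by norm_num) (by norm_num)]
  obtain ⟨A, hA⟩ := exists_perf b (H := ZMod 4) (by rw [ZMod.card]) _ perf4
  exact (perf_equiv (AddEquiv.prodAssoc (M := ZMod 4) (N := ZMod 4)
    (P := ZMod (3 ^ b) × ZMod (3 ^ b)))).1 ⟨_, perf_prod perf4 hA⟩

end Exist

end Run7.h595
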