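import Mathlib
import Pool.Agent.Run7.h595.Exist

set_option autoImplicit false
set_option linter.unusedSectionVars false

/-!
Classification when every odd prime is self-conjugate.
-/

namespace Run7.h595

open Finset

/-- every odd prime divisor of `s t` is self-conjugate modulo the prime-to-itself part of the
exponent `lcm s t` -/
def AllSelfConj (s t : ℕ) : Prop :=
  ∀ p : ℕ, p.Prime → p ≠ 2 → p ∣ s * t → ∃ j : ℕ, (p : ZMod (ordCompl[p] (Nat.lcm s t))) ^ j = -1

theorem AllSelfConj.mono {s t s' t' : ℕ} (h : AllSelfConj s t) (hs : s' ∣ s) (ht : t' ∣ t) :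
    AllSelfConj s' t' := by
  intro p hp hp2 hps
  obtain ⟨j, hj⟩ := h p hp hp2 (hps.trans (Nat.mul_dvd_mul hs ht))
  refine ⟨j, ?_⟩
  have hl : Nat.lcm s' t' ∣ Nat.lcm s t :=
    Nat.lcm_dvd (hs.trans (Nat.dvd_lcm_left s t)) (ht.trans (Nat.dvd_lcm_right s t))
  have hd : ordCompl[p] (Nat.lcm s' t') ∣ ordCompl[p] (Nat.lcm s t) :=
    Nat.ordCompl_dvd_ordCompl_of_dvd hl p
  have := congrArg (ZMod.castHom hd (ZMod (ordCompl[p] (Nat.lcm s' t')))) hj
  rwa [map_pow, map_natCast, map_neg, map_one] at this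

/-- if `p^j ≡ -1 (mod 2^k)` for an odd `p` then `2^k ∣ p + 1` -/
theorem two_pow_dvd {p k j : ℕ} (hp2 : ¬ 2 ∣ p) (h : (p : ZMod (2 ^ k)) ^ j = -1) :
    2 ^ k ∣ p + 1 := by
  have h1 : 2 ^ k ∣ p ^ j + 1 := by
    have h2 : ((p ^ j + 1 : ℕ) : ZMod (2 ^ k)) = 0 := by
      push_cast
      rw [h]; ring
    exact (ZMod.natCast_eq_zero_iff _ _).1 h2
  by_cases hk : k ≤ 1
  · have h3 : 2 ∣ p + 1 := by omega
    interval_cases k
    · simp
    · simpa using h3
  · -- then `j` is odd
    have h4 : 4 ∣ p ^ j + 1 := by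
      have : 2 ^ 2 ∣ 2 ^ k := pow_dvd_pow 2 (by omega)
      exact this.trans h1
    have hjodd : Odd j := by
      by_contra hj
      rw [Nat.not_odd_iff_even] at hj
      obtain ⟨i, rfl⟩ := hj
      have h5 : p ^ (i + i) % 4 = 1 := by
        rw [← two_mul, pow_mul, Nat.pow_mod]
        have h6 : p ^ 2 % 4 = 1 := by
          rw [Nat.pow_mod]
          have : p % 4 = 1 ∨ p % 4 = 3 := by omega
          rcases this with h | h <;> rw [h]
        rw [h6, one_pow]
        rfl
      omega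
    obtain ⟨q, hq⟩ : p + 1 ∣ p ^ j + 1 := by
      have := Odd.nat_add_dvd_pow_add_pow p 1 hjodd
      rwa [one_pow] at this
    have hqodd : ¬ 2 ∣ q := by
      -- modulo `p + 1` considerations in `ℤ`
      intro h2q
      obtain ⟨q', rfl⟩ := h2q
      -- `(p^j + 1)/(p+1)` is a sum of `j` odd terms
      have h7 : ((p : ℤ) ^ j + 1) = (p + 1) * ∑ i ∈ range j, (-(p : ℤ)) ^ i := by
        have := mul_neg_geom_sum (-(p : ℤ)) j
        rw [Odd.neg_pow hjodd] at this
        linarith
      have h8 : ((p : ℤ) ^ j + 1) = (p + 1) * (2 * q') := by exact_mod_cast hq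
      have h9 : (∑ i ∈ range j, (-(p : ℤ)) ^ i) = 2 * q' := by
        have h10 : ((p : ℤ) + 1) ≠ 0 := by positivity
        exact mul_left_cancel₀ h10 (h7.symm.trans h8)
      have h11 : (∑ i ∈ range j, (-(p : ℤ)) ^ i) % 2 = 1 := by
        have h12 : ∀ i, ((-(p : ℤ)) ^ i) % 2 = 1 := by
          intro i
          have h13 : Odd (-(p : ℤ)) := by
            rw [odd_neg]
            have : Odd p := by
              rw [← Nat.not_even_iff_odd]
              intro he
              exact hp2 he.two_dvd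
            exact_mod_cast this
          exact Int.odd_iff.1 (h13.pow)
        rw [Finset.sum_int_mod, Finset.sum_congr rfl fun i _ => h12 i]
        simp only [sum_const, card_range, nsmul_eq_mul, mul_one]
        have := Nat.odd_iff.1 hjodd
        omega
      rw [h9] at h11
      omega
    have h14 : Nat.Coprime (2 ^ k) q := by
      apply Nat.Coprime.pow_left
      exact (Nat.Prime.coprime_iff_not_dvd Nat.prime_two).2 hqodd
    rw [hq] at h1
    exact h14.dvd_of_dvd_mul_right h1

/-- a number whose only prime divisor can be `2` is a power of `2` -/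
theorem eq_two_pow {n : ℕ} (hn : n ≠ 0) (h : ∀ p, p.Prime → p ∣ n → p = 2) : ∃ k, n = 2 ^ k := by
  exact ⟨_, Nat.eq_prime_pow_of_unique_prime_dvd hn (p := 2) (fun {d} hd hdn => h d hd hdn)⟩

/-- the order of a perfect array is a square -/
theorem PBA.sq {s t : ℕ} (h : PBA s t) : ∃ m : ℕ, s * t = m ^ 2 := by
  rw [PBA_iff] at h
  obtain ⟨_, _, A, hA⟩ := h
  have h1 := hA.card_sq
  rw [Fintype.card_prod, ZMod.card, ZMod.card] at h1
  refine ⟨(∑ g, A g).natAbs, ?_⟩
  have h2 : ((∑ g, A g).natAbs : ℤ) ^ 2 = ((s * t : ℕ) : ℤ) := by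
    rw [Int.natCast_natAbs, sq_abs, h1]
  exact_mod_cast h2.symm

/-- no odd prime other than `3` divides the order -/
theorem only_three : ∀ n s t : ℕ, s * t ≤ n → PBA s t → AllSelfConj s t →
    ∀ p, p.Prime → p ≠ 2 → p ∣ s * t → p = 3 := by
  intro n
  induction n with
  | zero =>
    intro s t hst h
    obtain ⟨hs, ht, _⟩ := h
    have := Nat.mul_pos (Nat.pos_of_ne_zero hs.out) (Nat.pos_of_ne_zero ht.out)
    omega
  | succ n ih =>
    intro s t hst h hsc p hp hp2 hpst
    obtain ⟨hs, ht, _⟩ := id h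
    have hs0 : s ≠ 0 := hs.out
    have ht0 : t ≠ 0 := ht.out
    by_contra hp3
    have hp5 : 5 ≤ p := by
      have h1 := hp.two_le
      by_contra hlt
      have : p = 4 := by omega
      rw [this] at hp
      exact absurd hp (by norm_num)
    by_cases hq : ∃ q, q.Prime ∧ q ≠ 2 ∧ q ≠ p ∧ q ∣ s * t
    · obtain ⟨q, hqp, hq2, hqne, hqst⟩ := hq
      obtain ⟨h1, h2, _, _⟩ := necessary_pba hqp hq2 hqst (hsc q hqp hq2 hqst) h
      set α := s.factorization q with hα
      have hα0 : α ≠ 0 := by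
        have h3 := hqp.factorization_pos_of_dvd (mul_ne_zero hs0 ht0) hqst
        rw [Nat.factorization_mul hs0 ht0, Finsupp.add_apply] at h3
        omega
      have hds : q ^ α ∣ s := Nat.ordProj_dvd s q
      have hdt : q ^ α ∣ t := by rw [h1]; exact Nat.ordProj_dvd t q
      obtain ⟨s', hs'⟩ := hds
      obtain ⟨t', ht'⟩ := hdt
      have hqpos : 0 < q ^ α := pow_pos hqp.pos _
      have e1 : s / q ^ α = s' := by rw [hs']; exact Nat.mul_div_cancel_left _ hqpos
      have e2 : t / q ^ α = t' := by rw [ht']; exact Nat.mul_div_cancel_left _ hqpos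
      have h3 := h2 α le_rfl
      rw [e1, e2] at h3
      have hs'0 : s' ≠ 0 := by rintro rfl; simp at hs'; exact hs0 hs'
      have ht'0 : t' ≠ 0 := by rintro rfl; simp at ht'; exact ht0 ht'
      have hlt : s' * t' ≤ n := by
        have h4 : 2 ≤ q ^ α := by
          calc 2 ≤ q := hqp.two_le
            _ = q ^ 1 := (pow_one q).symm
            _ ≤ q ^ α := Nat.pow_le_pow_right hqp.pos (Nat.one_le_iff_ne_zero.2 hα0)
        have h5 : 0 < s' * t' := Nat.mul_pos (Nat.pos_of_ne_zero hs'0) (Nat.pos_of_ne_zero ht'0)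
        have h6 : s * t = q ^ α * q ^ α * (s' * t') := by
          conv_lhs => rw [hs', ht']
          ring
        have h7 : 4 ≤ q ^ α * q ^ α := by nlinarith
        rw [h6] at hst
        nlinarith
      have hp' : p ∣ s' * t' := by
        have h6 : s * t = q ^ α * q ^ α * (s' * t') := by
          conv_lhs => rw [hs', ht']
          ring
        rw [h6] at hpst
        rcases (Nat.Prime.dvd_mul hp).1 hpst with h7 | h7
        · exfalso
          have h8 : p ∣ q := by
            rcases (Nat.Prime.dvd_mul hp).1 h7 with h8 | h8 <;> exact hp.dvd_of_dvd_pow h8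
          exact hqne ((Nat.prime_dvd_prime_iff_eq hp hqp).1 h8).symm
        · exact h7
      exact hp3 (ih s' t' hlt h3 (hsc.mono (Dvd.intro_left _ hs'.symm) (Dvd.intro_left _ ht'.symm))
        p hp hp2 hp')
    · push Not at hq
      obtain ⟨h1, _, _, h4⟩ := necessary_pba hp hp2 hpst (hsc p hp hp2 hpst) h
      have h5 := h4 hp5
      have hl0 : Nat.lcm s t ≠ 0 := Nat.lcm_ne_zero hs0 ht0
      have hpow : ∀ m, m ∣ Nat.lcm s t → m ≠ 0 → ∃ k, ordCompl[p] m = 2 ^ k := by
        intro m hm hm0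
        apply eq_two_pow (Nat.ordCompl_pos p hm0).ne'
        intro r hr hrd
        by_contra hr2
        have h6 : r ∣ s * t := by
          have h7 : r ∣ m := hrd.trans (Nat.ordCompl_dvd m p)
          exact (h7.trans hm).trans (Nat.lcm_dvd_mul s t)
        have h7 : r = p := by
          by_contra hne
          exact hq r hr hr2 hne h6
        rw [h7] at hrd
        exact Nat.not_dvd_ordCompl hp hm0 hrd
      obtain ⟨k, hk⟩ := hpow _ dvd_rfl hl0
      obtain ⟨x, hx⟩ := hpow s (Nat.dvd_lcm_left s t) hs0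
      obtain ⟨y, hy⟩ := hpow t (Nat.dvd_lcm_right s t) ht0
      obtain ⟨j, hj⟩ := hsc p hp hp2 hpst
      rw [hk] at hj
      have hp2' : ¬ 2 ∣ p := by
        intro h
        exact hp2 ((Nat.prime_dvd_prime_iff_eq Nat.prime_two hp).1 h).symm
      have h6 := two_pow_dvd hp2' hj
      have hds : ordCompl[p] s ∣ 2 ^ k := by
        rw [← hk]; exact Nat.ordCompl_dvd_ordCompl_of_dvd (Nat.dvd_lcm_left s t) p
      have hdt : ordCompl[p] t ∣ 2 ^ k := by
        rw [← hk]; exact Nat.ordCompl_dvd_ordCompl_of_dvd (Nat.dvd_lcm_right s t) p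
      have h7 := Nat.le_of_dvd (by omega) (hds.trans h6)
      have h8 := Nat.le_of_dvd (by omega) (hdt.trans h6)
      rw [Nat.ordCompl_mul] at h5
      have h9 := Nat.mul_le_mul h7 h8
      nlinarith

/-- **Classification.** -/
theorem classification {s t : ℕ} (hodd : ∃ p, p.Prime ∧ p ≠ 2 ∧ p ∣ s * t)
    (hsc : AllSelfConj s t) :
    PBA s t ↔ ∃ b : ℕ, 1 ≤ b ∧ ((s = 2 * 3 ^ b ∧ t = 2 * 3 ^ b) ∨ (s = 3 ^ b ∧ t = 4 * 3 ^ b) ∨
      (s = 4 * 3 ^ b ∧ t = 3 ^ b) ∨ (s = 4 * 3 ^ b ∧ t = 4 * 3 ^ b)) := by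
  constructor
  · intro h
    obtain ⟨hs, ht, _⟩ := id h
    have hs0 : s ≠ 0 := hs.out
    have ht0 : t ≠ 0 := ht.out
    have honly := only_three (s * t) s t le_rfl h hsc
    have h3 : 3 ∣ s * t := by
      obtain ⟨p, hp, hp2, hpst⟩ := hodd
      rwa [honly p hp hp2 hpst] at hpst
    obtain ⟨h1, h2, h4, _⟩ := necessary_pba Nat.prime_three (by norm_num) h3
      (hsc 3 Nat.prime_three (by norm_num) h3) h
    set b := s.factorization 3 with hb
    have hb0 : b ≠ 0 := by
      have h5 := Nat.prime_three.factorization_pos_of_dvd (mul_ne_zero hs0 ht0) h3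
      rw [Nat.factorization_mul hs0 ht0, Finsupp.add_apply] at h5
      omega
    have hl0 : Nat.lcm s t ≠ 0 := Nat.lcm_ne_zero hs0 ht0
    have hpow : ∀ m, m ∣ Nat.lcm s t → m ≠ 0 → ∃ k, ordCompl[3] m = 2 ^ k := by
      intro m hm hm0
      apply eq_two_pow (Nat.ordCompl_pos 3 hm0).ne'
      intro r hr hrd
      by_contra hr2
      have h6 : r ∣ s * t := by
        have h7 : r ∣ m := hrd.trans (Nat.ordCompl_dvd m 3)
        exact (h7.trans hm).trans (Nat.lcm_dvd_mul s t)
      have h7 : r = 3 := honly r hr hr2 h6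
      rw [h7] at hrd
      exact Nat.not_dvd_ordCompl Nat.prime_three hm0 hrd
    obtain ⟨k, hk⟩ := hpow _ dvd_rfl hl0
    obtain ⟨x, hx⟩ := hpow s (Nat.dvd_lcm_left s t) hs0
    obtain ⟨y, hy⟩ := hpow t (Nat.dvd_lcm_right s t) ht0
    obtain ⟨j, hj⟩ := hsc 3 Nat.prime_three (by norm_num) h3
    rw [hk] at hj
    have h6 : 2 ^ k ∣ 3 + 1 := two_pow_dvd (by norm_num) hj
    have hds : 2 ^ x ∣ 4 := by
      rw [← hx]
      refine (Nat.ordCompl_dvd_ordCompl_of_dvd (Nat.dvd_lcm_left s t) 3).trans ?_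
      rw [hk]; exact h6
    have hdt : 2 ^ y ∣ 4 := by
      rw [← hy]
      refine (Nat.ordCompl_dvd_ordCompl_of_dvd (Nat.dvd_lcm_right s t) 3).trans ?_
      rw [hk]; exact h6
    have hx2 : x ≤ 2 := (Nat.pow_dvd_pow_iff_le_right (by norm_num : 1 < 2)).1
      (by simpa using hds : 2 ^ x ∣ 2 ^ 2)
    have hy2 : y ≤ 2 := (Nat.pow_dvd_pow_iff_le_right (by norm_num : 1 < 2)).1
      (by simpa using hdt : 2 ^ y ∣ 2 ^ 2)
    have hs' : 3 ^ b * 2 ^ x = s := by rw [← hx, hb]; exact Nat.ordProj_mul_ordCompl_eq_self s 3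
    have ht' : 3 ^ b * 2 ^ y = t := by rw [← hy, h1]; exact Nat.ordProj_mul_ordCompl_eq_self t 3
    rw [Nat.ordCompl_mul, hx, hy] at h4
    -- the 2-part is a square
    have h7 := h2 b le_rfl
    have e1 : s / 3 ^ b = 2 ^ x := by
      rw [← hs']; exact Nat.mul_div_cancel_left _ (pow_pos (by norm_num) _)
    have e2 : t / 3 ^ b = 2 ^ y := by
      rw [← ht']; exact Nat.mul_div_cancel_left _ (pow_pos (by norm_num) _)
    rw [e1, e2] at h7
    obtain ⟨m, hm⟩ := h7.sq
    refine ⟨b, Nat.one_le_iff_ne_zero.2 hb0, ?_⟩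
    rw [← hs', ← ht']
    interval_cases x <;> interval_cases y
    · norm_num at h4
    · norm_num at h4
    · right; left; constructor <;> ring
    · norm_num at h4
    · left; constructor <;> ring
    · exfalso
      have h8 : m ^ 2 = 8 := by rw [← hm]; norm_num
      have h9 : m ≤ 2 := by nlinarith
      interval_cases m <;> omega
    · right; right; left; constructor <;> ring
    · exfalso
      have h8 : m ^ 2 = 8 := by rw [← hm]; norm_num
      have h9 : m ≤ 2 := by nlinarith
      interval_cases m <;> omega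
    · right; right; right; constructor <;> ring
  · rintro ⟨b, _, h | h | h | h⟩
    · obtain ⟨rfl, rfl⟩ := h
      have := Exist.pba_22 b
      rwa [mul_comm] at this
    · obtain ⟨rfl, rfl⟩ := h
      have := Exist.pba_14 b
      rwa [mul_one, mul_comm _ 4] at this
    · obtain ⟨rfl, rfl⟩ := h
      have := Exist.pba_41 b
      rwa [mul_one, mul_comm _ 4] at this
    · obtain ⟨rfl, rfl⟩ := h
      have := Exist.pba_44 b
      rwa [mul_comm] at this

end Run7.h595
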