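import Mathlib
import Pool.Agent.Run7.h595.Class

set_option autoImplicit false
set_option linter.unusedSectionVars false

/-!
Removing several self-conjugate primes at once.
-/

namespace Run7.h595

open Finset

/-- `p` is an odd prime divisor of `s t`, self-conjugate modulo the `p`-free part of the
exponent -/
def Good (s t p : ℕ) : Prop :=
  p.Prime ∧ p ≠ 2 ∧ p ∣ s * t ∧ ∃ j : ℕ, (p : ZMod (ordCompl[p] (Nat.lcm s t))) ^ j = -1

theorem sc_mono {s t s' t' p : ℕ} (hs : s' ∣ s) (ht : t' ∣ t)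
    (h : ∃ j : ℕ, (p : ZMod (ordCompl[p] (Nat.lcm s t))) ^ j = -1) :
    ∃ j : ℕ, (p : ZMod (ordCompl[p] (Nat.lcm s' t'))) ^ j = -1 := by
  obtain ⟨j, hj⟩ := h
  refine ⟨j, ?_⟩
  have hl : Nat.lcm s' t' ∣ Nat.lcm s t :=
    Nat.lcm_dvd (hs.trans (Nat.dvd_lcm_left s t)) (ht.trans (Nat.dvd_lcm_right s t))
  have hd : ordCompl[p] (Nat.lcm s' t') ∣ ordCompl[p] (Nat.lcm s t) :=
    Nat.ordCompl_dvd_ordCompl_of_dvd hl p
  have := congrArg (ZMod.castHom hd (ZMod (ordCompl[p] (Nat.lcm s' t')))) hj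
  rwa [map_pow, map_natCast, map_neg, map_one] at this

theorem PBA.ne {s t : ℕ} (h : PBA s t) : s ≠ 0 ∧ t ≠ 0 := by
  obtain ⟨hs, ht, _⟩ := h
  exact ⟨hs.out, ht.out⟩

/-- removing the full parts of a set of good primes -/
theorem remove (Q : Finset ℕ) : ∀ s t : ℕ, PBA s t → (∀ p ∈ Q, Good s t p) →
    ∃ s' t' : ℕ, PBA s' t' ∧ s = (∏ q ∈ Q, q ^ s.factorization q) * s' ∧
      t = (∏ q ∈ Q, q ^ s.factorization q) * t' := by
  classical
  induction Q using Finset.induction_on with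
  | empty => intro s t h _; exact ⟨s, t, h, by simp, by simp⟩
  | insert q Q hq ih =>
    intro s t h hQ
    obtain ⟨hs0, ht0⟩ := h.ne
    obtain ⟨hqp, hq2, hqst, hqsc⟩ := hQ q (Finset.mem_insert_self q Q)
    obtain ⟨h1, h2, _, _⟩ := necessary_pba hqp hq2 hqst hqsc h
    have h3 := h2 _ le_rfl
    have hqpos : 0 < q ^ s.factorization q := pow_pos hqp.pos _
    obtain ⟨s1, hs1⟩ : q ^ s.factorization q ∣ s := Nat.ordProj_dvd s q
    obtain ⟨t1, ht1⟩ : q ^ s.factorization q ∣ t := by rw [h1]; exact Nat.ordProj_dvd t q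
    set α := s.factorization q with hα
    have e1 : s / q ^ α = s1 := by
      conv_lhs => rw [hs1]
      exact Nat.mul_div_cancel_left _ hqpos
    have e2 : t / q ^ α = t1 := by
      conv_lhs => rw [ht1]
      exact Nat.mul_div_cancel_left _ hqpos
    rw [e1, e2] at h3
    have hs10 := h3.ne.1
    have ht10 := h3.ne.2
    have hfac : ∀ p ∈ Q, s.factorization p = s1.factorization p := by
      intro p hp
      have hne : p ≠ q := by rintro rfl; exact hq hp
      conv_lhs => rw [hs1]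
      rw [Nat.factorization_mul hqpos.ne' hs10, Finsupp.add_apply, hqp.factorization_pow,
        Finsupp.single_apply, if_neg (Ne.symm hne), zero_add]
    obtain ⟨s', t', h4, h5, h6⟩ := ih s1 t1 h3 (by
      intro p hp
      obtain ⟨hpp, hp2, hpst, hpsc⟩ := hQ p (Finset.mem_insert_of_mem hp)
      refine ⟨hpp, hp2, ?_, sc_mono (Dvd.intro_left _ hs1.symm) (Dvd.intro_left _ ht1.symm) hpsc⟩
      have hne : p ≠ q := by rintro rfl; exact hq hp
      have e3 : s * t = q ^ α * q ^ α * (s1 * t1) := by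
        conv_lhs => rw [hs1, ht1]
        ring
      rw [e3] at hpst
      rcases (Nat.Prime.dvd_mul hpp).1 hpst with h7 | h7
      · exfalso
        have h8 : p ∣ q := by
          rcases (Nat.Prime.dvd_mul hpp).1 h7 with h8 | h8 <;> exact hpp.dvd_of_dvd_pow h8
        exact hne ((Nat.prime_dvd_prime_iff_eq hpp hqp).1 h8)
      · exact h7)
    have hprod : ∏ p ∈ Q, p ^ s.factorization p = ∏ p ∈ Q, p ^ s1.factorization p :=
      Finset.prod_congr rfl fun p hp => by rw [hfac p hp]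
    refine ⟨s', t', h4, ?_, ?_⟩
    · rw [Finset.prod_insert hq, hprod, mul_assoc, ← h5]
      exact hs1
    · rw [Finset.prod_insert hq, hprod, mul_assoc, ← h6]
      exact ht1

/-- **Necessary conditions** for a set of good primes. -/
theorem necessary_multi (Q : Finset ℕ) (s t : ℕ) (h : PBA s t) (hQ : ∀ p ∈ Q, Good s t p)
    (p : ℕ) (hp : p ∈ Q) :
    ∃ k : ℕ, s * t = (p + 1) * k * ∏ q ∈ Q, q ^ (s * t).factorization q ∧ (p = 3 ∨ p + 2 ≤ k) := by
  classical
  obtain ⟨hs0, ht0⟩ := h.ne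
  obtain ⟨hpp, hp2, hpst, hpsc⟩ := hQ p hp
  obtain ⟨s', t', h1, h2, h3⟩ := remove (Q.erase p) s t h (fun q hq => hQ q (Finset.mem_of_mem_erase hq))
  set D := ∏ q ∈ Q.erase p, q ^ s.factorization q with hD
  obtain ⟨hs'0, ht'0⟩ := h1.ne
  have hst : s * t = D * D * (s' * t') := by
    conv_lhs => rw [h2, h3]
    ring
  have hpD : ¬ p ∣ D := by
    intro hpd
    rw [hD, Prime.dvd_finsetProd_iff hpp.prime] at hpd
    obtain ⟨q, hq, hpq⟩ := hpd
    have h4 := hpp.dvd_of_dvd_pow hpq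
    have hqp := (hQ q (Finset.mem_of_mem_erase hq)).1
    exact (Finset.ne_of_mem_erase hq) ((Nat.prime_dvd_prime_iff_eq hpp hqp).1 h4).symm
  have hp' : p ∣ s' * t' := by
    rw [hst] at hpst
    rcases (Nat.Prime.dvd_mul hpp).1 hpst with h7 | h7
    · exfalso
      rcases (Nat.Prime.dvd_mul hpp).1 h7 with h8 | h8 <;> exact hpD h8
    · exact h7
  obtain ⟨_, _, h4, h5⟩ := necessary_pba hpp hp2 hp'
    (sc_mono (Dvd.intro_left _ h2.symm) (Dvd.intro_left _ h3.symm) hpsc) h1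
  obtain ⟨k, hk⟩ := h4
  have hD0 : D ≠ 0 := by
    rintro h0
    rw [h0] at h2
    exact hs0 (by rw [h2]; simp)
  have hfacp : (s * t).factorization p = (s' * t').factorization p := by
    rw [hst, Nat.factorization_mul (mul_ne_zero hD0 hD0) (mul_ne_zero hs'0 ht'0),
      Finsupp.add_apply, Nat.factorization_eq_zero_of_not_dvd, zero_add]
    intro hd
    rcases (Nat.Prime.dvd_mul hpp).1 hd with h8 | h8 <;> exact hpD h8
  have hfacq : ∏ q ∈ Q.erase p, q ^ (s * t).factorization q = D * D := by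
    rw [hD, ← Finset.prod_mul_distrib]
    refine Finset.prod_congr rfl fun q hq => ?_
    obtain ⟨hqp, hq2, hqst, hqsc⟩ := hQ q (Finset.mem_of_mem_erase hq)
    obtain ⟨h6, _, _, _⟩ := necessary_pba hqp hq2 hqst hqsc h
    rw [Nat.factorization_mul hs0 ht0, Finsupp.add_apply, ← h6, pow_add]
  refine ⟨k, ?_, ?_⟩
  · rw [← Finset.mul_prod_erase Q _ hp, hfacq, hfacp]
    have h7 := Nat.ordProj_mul_ordCompl_eq_self (s' * t') p
    rw [hk] at h7
    calc s * t = D * D * (s' * t') := hst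
      _ = D * D * (p ^ (s' * t').factorization p * ((p + 1) * k)) := by rw [h7]
      _ = (p + 1) * k * (p ^ (s' * t').factorization p * (D * D)) := by ring
  · by_cases hp3 : p = 3
    · left; exact hp3
    · right
      have hp5 : 5 ≤ p := by
        have h8 := hpp.two_le
        by_contra hlt
        have : p = 4 := by omega
        rw [this] at hpp
        exact absurd hpp (by norm_num)
      have h9 := h5 hp5
      rw [hk] at h9
      exact Nat.le_of_mul_le_mul_left h9 (Nat.succ_pos p)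

/-- **Necessary conditions**, in terms of the square root. -/
theorem necessary_square (Q : Finset ℕ) (s t : ℕ) (h : PBA s t) (hne : Q.Nonempty)
    (hQ : ∀ p ∈ Q, Good s t p) :
    ∃ n : ℕ, s * t = (2 * n) ^ 2 * ∏ q ∈ Q, q ^ (s * t).factorization q ∧
      ∀ p ∈ Q, (p + 1) ∣ (2 * n) ^ 2 ∧ (p = 3 ∨ p + 3 ≤ 2 * n) := by
  classical
  obtain ⟨s', t', h1, h2, h3⟩ := remove Q s t h hQ
  obtain ⟨m, hm⟩ := h1.sq
  obtain ⟨hs0, ht0⟩ := h.ne
  set P := ∏ q ∈ Q, q ^ (s * t).factorization q with hP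
  have hP0 : P ≠ 0 := by
    rw [hP, Finset.prod_ne_zero_iff]
    intro q hq
    exact pow_ne_zero _ (hQ q hq).1.ne_zero
  have hPD : P = (∏ q ∈ Q, q ^ s.factorization q) * (∏ q ∈ Q, q ^ s.factorization q) := by
    rw [hP, ← Finset.prod_mul_distrib]
    refine Finset.prod_congr rfl fun q hq => ?_
    obtain ⟨hqp, hq2, hqst, hqsc⟩ := hQ q hq
    obtain ⟨h6, _, _, _⟩ := necessary_pba hqp hq2 hqst hqsc h
    rw [Nat.factorization_mul hs0 ht0, Finsupp.add_apply, ← h6, pow_add]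
  have hst : s * t = m ^ 2 * P := by
    rw [hPD, ← hm]
    conv_lhs => rw [h2, h3]
    ring
  have hkey : ∀ p ∈ Q, ∃ k : ℕ, m ^ 2 = (p + 1) * k ∧ (p = 3 ∨ p + 2 ≤ k) := by
    intro p hp
    obtain ⟨k, hk, hk2⟩ := necessary_multi Q s t h hQ p hp
    rw [← hP] at hk
    refine ⟨k, ?_, hk2⟩
    have h7 : m ^ 2 * P = (p + 1) * k * P := by rw [← hst, hk]
    exact Nat.eq_of_mul_eq_mul_right (Nat.pos_of_ne_zero hP0) h7
  have hmeven : 2 ∣ m := by
    obtain ⟨p, hp⟩ := hne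
    obtain ⟨k, hk, _⟩ := hkey p hp
    obtain ⟨hpp, hp2, _, _⟩ := hQ p hp
    obtain ⟨c, hc⟩ := hpp.odd_of_ne_two hp2
    have h8 : 2 ∣ m ^ 2 := by
      rw [hk]
      exact Dvd.dvd.mul_right ⟨c + 1, by omega⟩ k
    exact Nat.prime_two.dvd_of_dvd_pow h8
  obtain ⟨n, rfl⟩ := hmeven
  refine ⟨n, hst, fun p hp => ?_⟩
  obtain ⟨k, hk, hk2⟩ := hkey p hp
  obtain ⟨hpp, hp2, _, _⟩ := hQ p hp
  refine ⟨⟨k, hk⟩, ?_⟩
  rcases hk2 with h9 | h9
  · left; exact h9
  · right
    obtain ⟨c, hc⟩ := hpp.odd_of_ne_two hp2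
    by_contra hlt
    have h10 : 2 * n ≤ p + 1 := by omega
    nlinarith

end Run7.h595
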