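import Mathlib
import Pool.Agent.Run7.h595.Multi

set_option autoImplicit false
set_option linter.unusedSectionVars false

/-!
Passing to a coprime direct factor.
-/

namespace Run7.h595

open Finset

namespace Odd

variable {G : Type} [AddCommGroup G] [Fintype G]

/-- A function with autocorrelation `N δ`, `q ∣ N`, is divisible by a prime `q` which is
self-conjugate modulo the exponent of the group. -/
theorem dvd_of_corr (q : ℕ) [Fact q.Prime] (j : ℕ) (hj0 : j ≠ 0) (hj : ∀ g : G, (q ^ j) • g = -g)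
    (f : G → ℤ) (N : ℤ) (hN : (q : ℤ) ∣ N) (h0 : ∑ g, f g * f g = N)
    (h1 : ∀ d, d ≠ 0 → ∑ g, f g * f (g + d) = 0) (g : G) : (q : ℤ) ∣ f g := by
  classical
  set x : Div.F q G := ∑ g, AddMonoidAlgebra.single g ((f g : ℤ) : ZMod q) with hx
  have e1 : Div.starF q G x = ∑ g, AddMonoidAlgebra.single (-g) ((f g : ℤ) : ZMod q) := by
    rw [hx, map_sum]
    exact Finset.sum_congr rfl fun g _ => Div.starF_single q G g _
  have key : x * Div.starF q G x = 0 := by
    rw [e1, hx, Finset.sum_mul_sum, Finset.sum_comm]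
    have e2 : ∀ g' : G, (∑ g : G,
        (AddMonoidAlgebra.single g ((f g : ℤ) : ZMod q) *
          AddMonoidAlgebra.single (-g') ((f g' : ℤ) : ZMod q) : Div.F q G)) =
        ∑ d, AddMonoidAlgebra.single d (((f g' * f (g' + d) : ℤ)) : ZMod q) := by
      intro g'
      rw [← Equiv.sum_comp (Equiv.addLeft g')]
      refine Finset.sum_congr rfl fun d _ => ?_
      rw [AddMonoidAlgebra.single_mul_single]
      simp only [Equiv.coe_addLeft]
      push_cast
      rw [mul_comm, add_neg_eq_iff_eq_add.2 (add_comm g' d)]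
    rw [Finset.sum_congr rfl fun g' _ => e2 g', Finset.sum_comm]
    refine Finset.sum_eq_zero fun d _ => ?_
    have e3 : (∑ g' : G, (AddMonoidAlgebra.single d (((f g' * f (g' + d) : ℤ)) : ZMod q) :
        Div.F q G)) = AddMonoidAlgebra.single d (((∑ g', f g' * f (g' + d) : ℤ)) : ZMod q) := by
      rw [Int.cast_sum]
      exact (map_sum (AddMonoidAlgebra.singleAddHom (R := ZMod q) d) _ _).symm
    rw [e3]
    by_cases hd : d = 0
    · subst hd
      simp only [add_zero]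
      rw [h0, (ZMod.intCast_zmod_eq_zero_iff_dvd _ q).2 hN]
      simp
    · rw [h1 d hd]
      simp
  have hz := Div.F_red q G j hj0 hj x key
  have h2 := congrArg (fun z => z.coeff g) hz
  rw [hx] at h2
  simp only [AddMonoidAlgebra.coeff_sum, Finsupp.finsetSum_apply, AddMonoidAlgebra.coeff_zero,
    Finsupp.zero_apply, AddMonoidAlgebra.coeff_single, Finsupp.single_apply] at h2
  rw [Finset.sum_ite_eq' univ g] at h2
  simp only [Finset.mem_univ, if_true] at h2
  exact (ZMod.intCast_zmod_eq_zero_iff_dvd _ q).1 h2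

/-- divisibility by a product of self-conjugate primes -/
theorem dvd_all (n : ℕ) : n ≠ 0 → (∀ q : ℕ, q.Prime → q ∣ n → ∃ j : ℕ, j ≠ 0 ∧
      ∀ g : G, (q ^ j) • g = -g) →
    ∀ (f : G → ℤ) (N : ℤ), ∑ g, f g * f g = N * (n : ℤ) ^ 2 →
    (∀ d, d ≠ 0 → ∑ g, f g * f (g + d) = 0) → ∀ g, (n : ℤ) ∣ f g := by
  induction n using Nat.strong_induction_on with
  | _ n ih =>
    intro hn hq f N h0 h1 g
    by_cases hn1 : n = 1
    · subst hn1; simp
    · obtain ⟨q, hqp, hqn⟩ := Nat.exists_prime_and_dvd hn1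
      have : Fact q.Prime := ⟨hqp⟩
      obtain ⟨m, rfl⟩ := hqn
      obtain ⟨j, hj0, hj⟩ := hq q hqp (Dvd.intro _ rfl)
      have hm0 : m ≠ 0 := by rintro rfl; exact hn (by simp)
      have hqZ : (q : ℤ) ≠ 0 := by exact_mod_cast hqp.ne_zero
      have hd : ∀ g, (q : ℤ) ∣ f g := dvd_of_corr q j hj0 hj f _
        (by push_cast; exact ⟨N * (m : ℤ) ^ 2 * q, by ring⟩) h0 h1
      choose f' hf' using hd
      have hlt : m < q * m := by
        have := hqp.two_le
        have := Nat.pos_of_ne_zero hm0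
        nlinarith
      have h0' : ∑ g, f' g * f' g = N * (m : ℤ) ^ 2 := by
        have e : ((q : ℤ) ^ 2) * ∑ g, f' g * f' g = ((q : ℤ) ^ 2) * (N * (m : ℤ) ^ 2) := by
          rw [Finset.mul_sum]
          have : ∑ g, f g * f g = ∑ g, (q : ℤ) ^ 2 * (f' g * f' g) :=
            Finset.sum_congr rfl fun g _ => by rw [hf' g]; ring
          rw [← this, h0]
          push_cast
          ring
        exact mul_left_cancel₀ (pow_ne_zero 2 hqZ) e
      have h1' : ∀ d, d ≠ 0 → ∑ g, f' g * f' (g + d) = 0 := by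
        intro d hd
        have e : ((q : ℤ) ^ 2) * ∑ g, f' g * f' (g + d) = 0 := by
          rw [Finset.mul_sum, ← h1 d hd]
          exact Finset.sum_congr rfl fun g _ => by rw [hf' g, hf' (g + d)]; ring
        exact (mul_eq_zero.1 e).resolve_left (pow_ne_zero 2 hqZ)
      have := ih m hlt hm0 (fun r hr hrm => hq r hr (Dvd.dvd.mul_left hrm q)) f' N h0' h1' g
      rw [hf' g]
      push_cast
      exact mul_dvd_mul_left _ this

/-- **Reduction**: a perfect array on `G × G₂`, where `G₂` has odd order `n²` and every prime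
divisor of `n` is self-conjugate modulo the exponent of `G`, gives a perfect array on `G`. -/
theorem perf_fst {G₂ : Type} [AddCommGroup G₂] [Fintype G₂] (n : ℕ)
    (hn : Fintype.card G₂ = n ^ 2) (hodd : ¬ 2 ∣ n)
    (hq : ∀ q : ℕ, q.Prime → q ∣ n → ∃ j : ℕ, j ≠ 0 ∧ ∀ g : G, (q ^ j) • g = -g)
    {A : G × G₂ → ℤ} (hA : Perf A) : ∃ B : G → ℤ, Perf B := by
  classical
  have hn0 : n ≠ 0 := by rintro rfl; exact hodd (by simp)
  have hnZ : (n : ℤ) ≠ 0 := by exact_mod_cast hn0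
  set f := push (AddMonoidHom.fst G G₂) A with hf
  have hsurj : Function.Surjective (AddMonoidHom.fst G G₂) := fun g => ⟨(g, 0), rfl⟩
  have hcard : Fintype.card (G × G₂) = Fintype.card G * n ^ 2 := by
    rw [Fintype.card_prod, hn]
  have hfib : ∀ k, (univ.filter (fun g => AddMonoidHom.fst G G₂ g = k)).card = n ^ 2 := by
    intro k
    have h1 := card_fiber (AddMonoidHom.fst G G₂) hsurj k
    rw [hcard, mul_comm] at h1
    exact Nat.eq_of_mul_eq_mul_left Fintype.card_pos h1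
  have h0 : ∑ g, f g * f g = (Fintype.card G : ℤ) * (n : ℤ) ^ 2 := by
    rw [hf, hA.push_sq, hcard]; push_cast; ring
  have h1 : ∀ d, d ≠ 0 → ∑ g, f g * f (g + d) = 0 := fun d hd => hA.push_zero _ d hd
  have hdvd := dvd_all n hn0 hq f _ h0 h1
  choose B hB using hdvd
  have hne : ∀ g, B g ≠ 0 := by
    intro g hg
    have h2 := hA.push_parity (AddMonoidHom.fst G G₂) g
    rw [← hf, hB g, hg, hfib] at h2
    have h3 : (2 : ℤ) ∣ (n : ℤ) ^ 2 := by
      have := dvd_neg.1 (by simpa using h2 : (2 : ℤ) ∣ -(n : ℤ) ^ 2)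
      exact this
    have h4 : (2 : ℕ) ∣ n ^ 2 := by exact_mod_cast h3
    exact hodd (Nat.prime_two.dvd_of_dvd_pow h4)
  have hsq : ∑ g, B g * B g = Fintype.card G := by
    have e : ((n : ℤ) ^ 2) * ∑ g, B g * B g = ((n : ℤ) ^ 2) * Fintype.card G := by
      rw [Finset.mul_sum, mul_comm _ (Fintype.card G : ℤ), ← h0]
      exact Finset.sum_congr rfl fun g _ => by rw [hB g]; ring
    exact mul_left_cancel₀ (pow_ne_zero 2 hnZ) e
  have hge : ∀ k ∈ (univ : Finset G), 0 ≤ B k * B k - 1 := by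
    intro k _
    have h2 : 0 < B k * B k := mul_self_pos.2 (hne k)
    linarith
  have hz : ∑ k, (B k * B k - 1) = 0 := by
    rw [Finset.sum_sub_distrib, hsq]
    simp
  have hall := (Finset.sum_eq_zero_iff_of_nonneg hge).1 hz
  refine ⟨B, fun k => ?_, fun d hd => ?_⟩
  · have h2 := hall k (Finset.mem_univ _)
    exact mul_self_eq_one_iff.1 (by linarith)
  · have h2 := h1 d hd
    have h3 : ((n : ℤ) ^ 2) * ∑ k, B k * B (k + d) = 0 := by
      rw [Finset.mul_sum, ← h2]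
      exact Finset.sum_congr rfl fun k _ => by rw [hB k, hB (k + d)]; ring
    exact (mul_eq_zero.1 h3).resolve_left (pow_ne_zero 2 hnZ)

end Odd

/-- splitting of the cyclic factors, general form -/
noncomputable def split' (s₁ s₂ t₁ t₂ : ℕ) (hs : Nat.Coprime s₁ s₂) (ht : Nat.Coprime t₁ t₂) :
    ZMod (s₁ * s₂) × ZMod (t₁ * t₂) ≃+ (ZMod s₁ × ZMod t₁) × (ZMod s₂ × ZMod t₂) :=
  (AddEquiv.prodCongr (ZMod.chineseRemainder hs).toAddEquiv
    (ZMod.chineseRemainder ht).toAddEquiv).trans (AddEquiv.prodProdProdComm _ _ _ _)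

/-- **Reduction for arrays.** -/
theorem pba_factor {s₁ s₂ t₁ t₂ : ℕ} (hco : Nat.Coprime (s₁ * t₁) (s₂ * t₂))
    (hodd : ¬ 2 ∣ s₂ * t₂)
    (hq : ∀ q : ℕ, q.Prime → q ∣ s₂ * t₂ → ∃ j : ℕ, Nat.lcm s₁ t₁ ∣ q ^ j + 1)
    (h : PBA (s₁ * s₂) (t₁ * t₂)) : PBA s₁ t₁ := by
  obtain ⟨hs0, ht0⟩ := h.ne
  have hs10 : s₁ ≠ 0 := left_ne_zero_of_mul hs0
  have hs20 : s₂ ≠ 0 := right_ne_zero_of_mul hs0
  have ht10 : t₁ ≠ 0 := left_ne_zero_of_mul ht0
  have ht20 : t₂ ≠ 0 := right_ne_zero_of_mul ht0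
  have i1 : NeZero s₁ := ⟨hs10⟩
  have i2 : NeZero s₂ := ⟨hs20⟩
  have i3 : NeZero t₁ := ⟨ht10⟩
  have i4 : NeZero t₂ := ⟨ht20⟩
  obtain ⟨m, hm⟩ := h.sq
  have hm' : (s₂ * t₂) * (s₁ * t₁) = m ^ 2 := by rw [← hm]; ring
  obtain ⟨n, hn⟩ : ∃ n, s₂ * t₂ = n ^ 2 := by
    have hu : IsUnit (gcd (s₂ * t₂) (s₁ * t₁)) := by
      have : Nat.gcd (s₂ * t₂) (s₁ * t₁) = 1 := hco.symm
      show IsUnit (Nat.gcd (s₂ * t₂) (s₁ * t₁))
      rw [this]
      exact isUnit_one
    exact exists_eq_pow_of_mul_eq_pow hu hm'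
  have hcs : Nat.Coprime s₁ s₂ :=
    Nat.Coprime.coprime_dvd_left (Dvd.intro _ rfl) (Nat.Coprime.coprime_dvd_right (Dvd.intro _ rfl) hco)
  have hct : Nat.Coprime t₁ t₂ :=
    Nat.Coprime.coprime_dvd_left (Dvd.intro_left _ rfl)
      (Nat.Coprime.coprime_dvd_right (Dvd.intro_left _ rfl) hco)
  rw [PBA_iff] at h ⊢
  obtain ⟨j1, j2, A, hA⟩ := h
  have k1 : NeZero (s₁ * s₂) := inferInstance
  have k2 : NeZero (t₁ * t₂) := inferInstance
  have e1 : j1 = k1 := Subsingleton.elim _ _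
  have e2 : j2 = k2 := Subsingleton.elim _ _
  subst e1 e2
  have hA' := hA.comp (split' s₁ s₂ t₁ t₂ hcs hct).symm
  obtain ⟨B, hB⟩ := Odd.perf_fst n
    (by rw [Fintype.card_prod, ZMod.card, ZMod.card, hn])
    (by
      intro h2
      exact hodd (by rw [hn]; exact Dvd.dvd.pow h2 two_ne_zero))
    (by
      intro q hqp hqn
      have hqst : q ∣ s₂ * t₂ := by rw [hn]; exact Dvd.dvd.pow hqn two_ne_zero
      obtain ⟨j, hj⟩ := hq q hqp hqst
      have hq2 : q ≠ 2 := by rintro rfl; exact hodd hqst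
      -- a nonzero exponent
      obtain ⟨j', hj'0, hj'⟩ : ∃ j' : ℕ, j' ≠ 0 ∧ Nat.lcm s₁ t₁ ∣ q ^ j' + 1 := by
        by_cases hj0 : j = 0
        · subst hj0
          refine ⟨1, one_ne_zero, ?_⟩
          obtain ⟨c, hc⟩ := hqp.odd_of_ne_two hq2
          rw [pow_zero] at hj
          rw [pow_one]
          exact hj.trans ⟨c + 1, by omega⟩
        · exact ⟨j, hj0, hj⟩
      refine ⟨j', hj'0, ?_⟩
      rintro ⟨a, b⟩
      have e3 : ∀ (w : ℕ), w ∣ Nat.lcm s₁ t₁ → ∀ a : ZMod w, (q ^ j') • a = -a := by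
        intro w hw a
        have h5 := (ZMod.natCast_eq_zero_iff (q ^ j' + 1) w).2 (hw.trans hj')
        push_cast at h5
        rw [nsmul_eq_mul, Nat.cast_pow, eq_neg_of_add_eq_zero_left h5]
        ring
      exact Prod.ext (e3 s₁ (Nat.dvd_lcm_left _ _) a) (e3 t₁ (Nat.dvd_lcm_right _ _) b))
    hA'
  exact ⟨i1, i3, B, hB⟩

end Run7.h595
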