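import Mathlib

set_option autoImplicit false

/-!
The equation `A² + p B² = W²` for a prime `p ≡ 3 (mod 4)`.
-/

namespace Run7.h595

namespace Quad

theorem mod_four_of_primes (n : ℕ) (hn : n ≠ 0) (h : ∀ q : ℕ, q.Prime → q ∣ n → q % 4 = 1) :
    n % 4 = 1 := by
  induction n using Nat.strong_induction_on with
  | _ n ih =>
    by_cases h1 : n = 1
    · subst h1; rfl
    · obtain ⟨q, hq, m, rfl⟩ := Nat.exists_prime_and_dvd h1
      have hm0 : m ≠ 0 := by rintro rfl; exact hn (by simp)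
      have h2 := h q hq (Dvd.intro _ rfl)
      have hlt : m < q * m := by
        have := hq.two_le
        have := Nat.pos_of_ne_zero hm0
        nlinarith
      have h3 := ih m hlt hm0 (fun r hr hrm => h r hr (Dvd.dvd.mul_left hrm q))
      rw [Nat.mul_mod, h2, h3]

theorem key {p : ℕ} (hp : p.Prime) (hp4 : p % 4 = 3) {A B W : ℤ} (hW : 0 < W)
    (hWodd : ¬ (2 : ℤ) ∣ W) (hpW : ¬ (p : ℤ) ∣ W)
    (hq : ∀ q : ℕ, q.Prime → (q : ℤ) ∣ W → (∃ z : ZMod q, z ^ 2 = -(p : ZMod q)) → q % 4 = 1)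
    (h : A ^ 2 + p * B ^ 2 = W ^ 2) (hA : (p : ℤ) ∣ A - W) :
    (4 : ℤ) ∣ A - W ∧ (4 : ℤ) ∣ B := by
  have hpZ : Prime (p : ℤ) := Nat.prime_iff_prime_int.1 hp
  have hp0 : (p : ℤ) ≠ 0 := by exact_mod_cast hp.ne_zero
  have hppos : (0 : ℤ) < p := by exact_mod_cast hp.pos
  have hp4' : (p : ℤ) % 4 = 3 := by omega
  set g : ℕ := Int.gcd A W with hg
  have hg0 : g ≠ 0 := by
    rw [hg, Ne, Int.gcd_eq_zero_iff]
    rintro ⟨_, h0⟩
    omega
  have hgZ : (g : ℤ) ≠ 0 := by exact_mod_cast hg0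
  obtain ⟨A1, hA1⟩ : (g : ℤ) ∣ A := Int.gcd_dvd_left _ _
  obtain ⟨W1, hW1⟩ : (g : ℤ) ∣ W := Int.gcd_dvd_right _ _
  have hcop : IsCoprime A1 W1 := by
    have h1 := Int.gcd_eq_gcd_ab A W
    rw [← hg] at h1
    generalize Int.gcdA A W = x at h1
    generalize Int.gcdB A W = y at h1
    refine ⟨x, y, ?_⟩
    have h2 : (g : ℤ) * (x * A1 + y * W1) = g * 1 := by
      linear_combination -h1 - x * hA1 - y * hW1
    exact mul_left_cancel₀ hgZ h2
  have hpg : ¬ (p : ℤ) ∣ g := fun h0 => hpW (h0.trans (Dvd.intro _ hW1.symm))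
  obtain ⟨B1, hB1⟩ : (g : ℤ) ∣ B := by
    have h1 : (g : ℤ) ^ 2 ∣ p * B ^ 2 := ⟨W1 ^ 2 - A1 ^ 2, by
      have : p * B ^ 2 = W ^ 2 - A ^ 2 := by linarith
      rw [this, hA1, hW1]; ring⟩
    have h2 : IsCoprime ((g : ℤ) ^ 2) (p : ℤ) :=
      ((Prime.coprime_iff_not_dvd hpZ).2 hpg).symm.pow_left
    have h3 := h2.dvd_of_dvd_mul_left h1
    exact (Int.pow_dvd_pow_iff two_ne_zero).1 h3
  have hg2 : (g : ℤ) ^ 2 ≠ 0 := pow_ne_zero 2 hgZ
  have h1 : A1 ^ 2 + p * B1 ^ 2 = W1 ^ 2 := by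
    apply mul_left_cancel₀ hg2
    rw [hA1, hB1, hW1] at h
    linear_combination h
  have hpA1 : (p : ℤ) ∣ A1 - W1 := by
    have h2 : (p : ℤ) ∣ g * (A1 - W1) := by
      have : (g : ℤ) * (A1 - W1) = A - W := by rw [hA1, hW1]; ring
      rwa [this]
    exact (hpZ.dvd_or_dvd h2).resolve_left hpg
  have hW1pos : 0 < W1 := by
    have hgpos : (0 : ℤ) < g := by exact_mod_cast Nat.pos_of_ne_zero hg0
    by_contra hle
    push Not at hle
    have : W ≤ 0 := by rw [hW1]; exact mul_nonpos_of_nonneg_of_nonpos hgpos.le hle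
    omega
  have hW1mod : W1 % 4 = 1 := by
    obtain ⟨w, rfl⟩ := Int.eq_ofNat_of_zero_le hW1pos.le
    have hw0 : w ≠ 0 := by
      rintro rfl
      simp at hW1pos
    have h2 := mod_four_of_primes w hw0 (by
      intro q hqp hqw
      have : Fact q.Prime := ⟨hqp⟩
      have hqW1 : (q : ℤ) ∣ (w : ℤ) := by exact_mod_cast hqw
      refine hq q hqp (by rw [hW1]; exact Dvd.dvd.mul_left hqW1 _) ?_
      have hqZ : Prime (q : ℤ) := Nat.prime_iff_prime_int.1 hqp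
      have hqA1 : ¬ (q : ℤ) ∣ A1 := by
        intro h0
        have := hcop.isUnit_of_dvd' h0 hqW1
        exact hqZ.not_isUnit this
      have hqB1 : ¬ (q : ℤ) ∣ B1 := by
        intro h0
        apply hqA1
        have h3 : (q : ℤ) ∣ A1 ^ 2 := by
          have : A1 ^ 2 = w ^ 2 - p * B1 ^ 2 := by linarith
          rw [this]
          exact dvd_sub (Dvd.dvd.pow hqW1 two_ne_zero)
            (Dvd.dvd.mul_left (Dvd.dvd.pow h0 two_ne_zero) _)
        exact hqZ.dvd_of_dvd_pow h3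
      have h4 : (B1 : ZMod q) ≠ 0 := by
        rw [Ne, ZMod.intCast_zmod_eq_zero_iff_dvd]
        exact hqB1
      have h5 : ((A1 : ZMod q)) ^ 2 + p * (B1 : ZMod q) ^ 2 = 0 := by
        have h6 := congrArg (fun z : ℤ => (z : ZMod q)) h1
        push_cast at h6
        rw [h6]
        have h7 : (w : ZMod q) = 0 := (ZMod.natCast_eq_zero_iff _ _).2 hqw
        rw [h7]; simp
      refine ⟨(A1 : ZMod q) / B1, ?_⟩
      rw [div_pow, div_eq_iff (pow_ne_zero 2 h4)]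
      linear_combination h5)
    omega
  -- parities
  have hB1even : (2 : ℤ) ∣ B1 := by
    by_contra hodd
    have h2 : B1 % 2 = 1 := by omega
    have h3 : B1 ^ 2 % 4 = 1 := by
      rcases (by omega : B1 % 4 = 1 ∨ B1 % 4 = 3) with h | h <;>
        simp [pow_two, Int.mul_emod, h]
    have h4 : W1 ^ 2 % 4 = 1 := by simp [pow_two, Int.mul_emod, hW1mod]
    have h5 : (p * B1 ^ 2) % 4 = 3 := by rw [Int.mul_emod, hp4', h3]; rfl
    have h6 : A1 ^ 2 % 4 = 0 ∨ A1 ^ 2 % 4 = 1 := by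
      rcases (by omega : A1 % 4 = 0 ∨ A1 % 4 = 1 ∨ A1 % 4 = 2 ∨ A1 % 4 = 3) with h | h | h | h <;>
        simp [pow_two, Int.mul_emod, h]
    omega
  obtain ⟨B2, hB2⟩ := hB1even
  have hA1odd : ¬ (2 : ℤ) ∣ A1 := by
    intro h0
    obtain ⟨a, ha⟩ := h0
    have h2 : W1 ^ 2 = 4 * (a ^ 2 + p * B2 ^ 2) := by rw [← h1, ha, hB2]; ring
    have h4 : W1 ^ 2 % 4 = 1 := by simp [pow_two, Int.mul_emod, hW1mod]
    omega
  obtain ⟨m, hm⟩ : (2 : ℤ) ∣ W1 - A1 := by omega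
  obtain ⟨n, hn⟩ : (2 : ℤ) ∣ W1 + A1 := by omega
  have hmn : m * n = p * B2 ^ 2 := by
    have h2 : (2 * m) * (2 * n) = 4 * (p * B2 ^ 2) := by
      rw [← hm, ← hn, show (W1 - A1) * (W1 + A1) = W1 ^ 2 - A1 ^ 2 by ring, ← h1, hB2]; ring
    linarith
  obtain ⟨m1, hm1⟩ : (p : ℤ) ∣ m := by
    have h2 : (p : ℤ) ∣ 2 * m := by
      rw [← hm]
      have := dvd_neg.2 hpA1
      rwa [neg_sub] at this
    rcases hpZ.dvd_or_dvd h2 with h3 | h3
    · exfalso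
      have h4 : (p : ℤ) ≤ 2 := Int.le_of_dvd (by norm_num) h3
      have h5 := hp.two_le
      omega
    · exact h3
  have hm1n : m1 * n = B2 ^ 2 := by
    apply mul_left_cancel₀ hp0
    rw [← hmn, hm1]; ring
  have hcop2 : IsCoprime m1 n := by
    obtain ⟨a, b, hab⟩ := hcop
    -- `a A1 + b W1 = 1`, `W1 = m + n`, `A1 = n - m`
    have e1 : W1 = m + n := by linarith
    have e2 : A1 = n - m := by linarith
    refine ⟨(b - a) * p, a + b, ?_⟩
    rw [e1, e2, hm1] at hab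
    linear_combination hab
  have hA1le : |A1| ≤ W1 := by
    apply abs_le_of_sq_le_sq _ hW1pos.le
    rw [← h1]
    have : 0 ≤ (p : ℤ) * B1 ^ 2 := by positivity
    linarith
  rw [abs_le] at hA1le
  have hn0 : 0 ≤ n := by linarith [hA1le.1]
  have hm0 : 0 ≤ m := by linarith [hA1le.2]
  have hm10 : 0 ≤ m1 := by
    by_contra hlt
    push Not at hlt
    have : m < 0 := by rw [hm1]; exact mul_neg_of_pos_of_neg hppos hlt
    omega
  obtain ⟨a, ha⟩ : ∃ a : ℤ, m1 = a ^ 2 := by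
    obtain ⟨a, ha⟩ := Int.sq_of_gcd_eq_one (Int.isCoprime_iff_gcd_eq_one.1 hcop2) hm1n
    rcases ha with ha | ha
    · exact ⟨a, ha⟩
    · refine ⟨0, ?_⟩
      have : 0 ≤ a ^ 2 := sq_nonneg a
      have h2 : m1 = 0 := by omega
      rw [h2]; ring
  obtain ⟨b, hb⟩ : ∃ b : ℤ, n = b ^ 2 := by
    obtain ⟨b, hb⟩ := Int.sq_of_gcd_eq_one (Int.isCoprime_iff_gcd_eq_one.1 hcop2.symm)
      (by rw [mul_comm]; exact hm1n)
    rcases hb with hb | hb
    · exact ⟨b, hb⟩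
    · refine ⟨0, ?_⟩
      have : 0 ≤ b ^ 2 := sq_nonneg b
      have h2 : n = 0 := by omega
      rw [h2]; ring
  have haeven : (2 : ℤ) ∣ a := by
    by_contra hodd
    have h3 : a ^ 2 % 4 = 1 := by
      rcases (by omega : a % 4 = 1 ∨ a % 4 = 3) with h | h <;>
        simp [pow_two, Int.mul_emod, h]
    have h5 : (p * a ^ 2) % 4 = 3 := by rw [Int.mul_emod, hp4', h3]; rfl
    have h6 : b ^ 2 % 4 = 0 ∨ b ^ 2 % 4 = 1 := by
      rcases (by omega : b % 4 = 0 ∨ b % 4 = 1 ∨ b % 4 = 2 ∨ b % 4 = 3) with h | h | h | h <;>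
        simp [pow_two, Int.mul_emod, h]
    have h7 : W1 = p * a ^ 2 + b ^ 2 := by
      have : W1 = m + n := by linarith
      rw [this, hm1, ha, hb]
    omega
  obtain ⟨a', ha'⟩ := haeven
  have r1 : (4 : ℤ) ∣ A1 - W1 := by
    refine ⟨-(2 * p * a' ^ 2), ?_⟩
    have : A1 - W1 = -(2 * m) := by linarith
    rw [this, hm1, ha, ha']; ring
  have r2 : (4 : ℤ) ∣ B1 := by
    have h2 : (2 : ℤ) ∣ B2 := by
      have h3 : (2 : ℤ) ∣ B2 ^ 2 := by
        rw [← hm1n, ha, ha']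
        exact ⟨2 * a' ^ 2 * n, by ring⟩
      exact Int.prime_two.dvd_of_dvd_pow h3
    obtain ⟨c, hc⟩ := h2
    exact ⟨c, by rw [hB2, hc]; ring⟩
  constructor
  · have : A - W = g * (A1 - W1) := by rw [hA1, hW1]; ring
    rw [this]
    exact Dvd.dvd.mul_left r1 _
  · rw [hB1]
    exact Dvd.dvd.mul_left r2 _

/-- both signs -/
theorem key' {p : ℕ} (hp : p.Prime) (hp4 : p % 4 = 3) {A B W : ℤ} (hW : 0 < W)
    (hWodd : ¬ (2 : ℤ) ∣ W) (hpW : ¬ (p : ℤ) ∣ W)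
    (hq : ∀ q : ℕ, q.Prime → (q : ℤ) ∣ W → (∃ z : ZMod q, z ^ 2 = -(p : ZMod q)) → q % 4 = 1)
    (h : A ^ 2 + p * B ^ 2 = W ^ 2) (ε : ℤ) (hε : ε = 1 ∨ ε = -1) (hA : (p : ℤ) ∣ A - ε * W) :
    (4 : ℤ) ∣ A - ε * W ∧ (4 : ℤ) ∣ B := by
  rcases hε with rfl | rfl
  · rw [one_mul] at *
    exact key hp hp4 hW hWodd hpW hq h hA
  · have h1 : (-A) ^ 2 + p * B ^ 2 = W ^ 2 := by rw [← h]; ring
    have h2 : (p : ℤ) ∣ -A - W := by
      have := dvd_neg.2 hA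
      have e : -(A - -1 * W) = -A - W := by ring
      rwa [e] at this
    obtain ⟨h3, h4⟩ := key hp hp4 hW hWodd hpW hq h1 h2
    refine ⟨?_, h4⟩
    have := dvd_neg.2 h3
    have e : -(-A - W) = A - -1 * W := by ring
    rwa [e] at this

end Quad

end Run7.h595
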