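import Mathlib
import Pool.Agent.Run7.h595.Quad

set_option autoImplicit false
set_option linter.unusedSectionVars false

/-!
The group ring `ℤ[ℤ/p]`, its Galois action, and the relative norm to the quadratic subfield.
-/

namespace Run7.h595

open Finset

namespace Kl

variable (p : ℕ) [Fact p.Prime]

/-- the group ring `ℤ[ℤ/p]` -/
abbrev L := AddMonoidAlgebra ℤ (ZMod p)

/-- the element with given coefficients -/
noncomputable def el (f : ZMod p → ℤ) : L p := ∑ g, AddMonoidAlgebra.single g (f g)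

theorem el_coeff (f : ZMod p → ℤ) (g : ZMod p) : (el p f).coeff g = f g := by
  classical
  rw [el, AddMonoidAlgebra.coeff_sum, Finsupp.finsetSum_apply]
  simp [Finsupp.single_apply]

theorem el_eta (x : L p) : el p (fun g => x.coeff g) = x := by
  ext g
  rw [el_coeff]

/-- the sum of all group elements -/
noncomputable def J : L p := el p (fun _ => 1)

theorem J_coeff (g : ZMod p) : (J p).coeff g = 1 := el_coeff p _ g

/-- multiplication by `r` on the group -/
noncomputable def sg (r : ZMod p) : L p →+* L p :=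
  AddMonoidAlgebra.mapDomainRingHom ℤ (AddMonoidHom.mulLeft r)

theorem sg_single (r g : ZMod p) (n : ℤ) :
    sg p r (AddMonoidAlgebra.single g n) = AddMonoidAlgebra.single (r * g) n := by
  simp [sg]

theorem sg_sg (r s : ZMod p) (x : L p) : sg p r (sg p s x) = sg p (r * s) x := by
  induction x using AddMonoidAlgebra.induction_linear with
  | zero => simp
  | add f g hf hg => simp [hf, hg]
  | single a b => simp [sg_single, mul_assoc]

theorem sg_el (r : ZMod p) (hr : r ≠ 0) (f : ZMod p → ℤ) :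
    sg p r (el p f) = el p (fun g => f (r⁻¹ * g)) := by
  rw [el, map_sum, el]
  rw [← Equiv.sum_comp (Equiv.mulLeft₀ r hr) (fun g => AddMonoidAlgebra.single g (f (r⁻¹ * g)))]
  refine Finset.sum_congr rfl fun g _ => ?_
  rw [sg_single]
  change _ = AddMonoidAlgebra.single (r * g) (f (r⁻¹ * (r * g)))
  rw [inv_mul_cancel_left₀ hr]

theorem sg_coeff (r : ZMod p) (hr : r ≠ 0) (x : L p) (g : ZMod p) :
    (sg p r x).coeff (r * g) = x.coeff g := by
  conv_lhs => rw [← el_eta p x]
  rw [sg_el p r hr, el_coeff, inv_mul_cancel_left₀ hr]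

theorem sg_J (r : ZMod p) (hr : r ≠ 0) : sg p r (J p) = J p := by
  rw [J, sg_el p r hr]

theorem sg_one (x : L p) : sg p 1 x = x := by
  induction x using AddMonoidAlgebra.induction_linear with
  | zero => simp
  | add f g hf hg => simp [hf, hg]
  | single a b => simp [sg_single]

/-- augmentation modulo `p` -/
noncomputable def rho : L p →+* ZMod p :=
  (AddMonoidAlgebra.lift ℤ (ZMod p) (ZMod p) 1).toRingHom

theorem rho_single (g : ZMod p) (n : ℤ) : rho p (AddMonoidAlgebra.single g n) = n := by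
  change (AddMonoidAlgebra.lift ℤ (ZMod p) (ZMod p) 1) (AddMonoidAlgebra.single g n) = n
  rw [AddMonoidAlgebra.lift_single]
  simp

theorem rho_sg (r : ZMod p) (x : L p) : rho p (sg p r x) = rho p x := by
  induction x using AddMonoidAlgebra.induction_linear with
  | zero => simp
  | add f g hf hg => simp [hf, hg]
  | single a b => rw [sg_single, rho_single, rho_single]

theorem rho_el (f : ZMod p → ℤ) : rho p (el p f) = ((∑ g, f g : ℤ) : ZMod p) := by
  rw [el, map_sum]
  simp only [rho_single]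
  push_cast
  rfl

theorem rho_J : rho p (J p) = 0 := by
  rw [J, rho_el]
  simp

/-- the ideal generated by `n` and `J` -/
noncomputable def I (n : ℤ) : Ideal (L p) := Ideal.span {(n : L p), J p}

theorem mul_J_coeff (b : L p) : ∃ m : ℤ, ∀ g, (b * J p).coeff g = m := by
  induction b using AddMonoidAlgebra.induction_linear with
  | zero => exact ⟨0, fun g => by simp⟩
  | add f g hf hg =>
    obtain ⟨m, hm⟩ := hf
    obtain ⟨m', hm'⟩ := hg
    refine ⟨m + m', fun g => ?_⟩
    rw [add_mul, AddMonoidAlgebra.coeff_add, Finsupp.add_apply, hm, hm']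
  | single a b =>
    refine ⟨b, fun g => ?_⟩
    rw [AddMonoidAlgebra.coeff_single_mul_apply, J_coeff, mul_one]

theorem intCast_mul_coeff (n : ℤ) (x : L p) (g : ZMod p) :
    ((n : L p) * x).coeff g = n * x.coeff g := by
  rw [← zsmul_eq_mul, AddMonoidAlgebra.coeff_smul, Finsupp.smul_apply, smul_eq_mul]

theorem mem_I (n : ℤ) (x : L p) : x ∈ I p n ↔ ∃ m : ℤ, ∀ g, n ∣ x.coeff g - m := by
  rw [I, Ideal.mem_span_pair]
  constructor
  · rintro ⟨a, b, rfl⟩
    obtain ⟨m, hm⟩ := mul_J_coeff p b
    refine ⟨m, fun g => ⟨a.coeff g, ?_⟩⟩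
    rw [AddMonoidAlgebra.coeff_add, Finsupp.add_apply, hm, mul_comm a, intCast_mul_coeff]
    ring
  · rintro ⟨m, hm⟩
    choose c hc using hm
    refine ⟨el p c, (m : L p), ?_⟩
    ext g
    rw [AddMonoidAlgebra.coeff_add, Finsupp.add_apply, mul_comm (el p c), intCast_mul_coeff,
      intCast_mul_coeff, el_coeff, J_coeff]
    linarith [hc g]

theorem I_le (n m : ℤ) (h : n ∣ m) : I p m ≤ I p n := by
  intro x hx
  rw [mem_I] at *
  obtain ⟨k, hk⟩ := hx
  exact ⟨k, fun g => h.trans (hk g)⟩

theorem sg_mem_I (n : ℤ) (r : ZMod p) (hr : r ≠ 0) (x : L p) (hx : x ∈ I p n) :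
    sg p r x ∈ I p n := by
  rw [I, Ideal.mem_span_pair] at *
  obtain ⟨a, b, rfl⟩ := hx
  refine ⟨sg p r a, sg p r b, ?_⟩
  rw [map_add, map_mul, map_mul, map_intCast, sg_J p r hr]

theorem rho_mem_I (x : L p) (hx : x ∈ I p 0) : rho p x = 0 := by
  rw [I, Ideal.mem_span_pair] at hx
  obtain ⟨a, b, rfl⟩ := hx
  rw [map_add, map_mul, map_mul, rho_J]
  simp

/-- the nonzero squares -/
noncomputable def S : Finset (ZMod p) := by
  classical
  exact univ.filter (fun r => quadraticChar (ZMod p) r = 1)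

theorem mem_S (r : ZMod p) : r ∈ S p ↔ quadraticChar (ZMod p) r = 1 := by
  rw [S]
  simp

theorem S_ne {r : ZMod p} (hr : r ∈ S p) : r ≠ 0 := by
  rintro rfl
  rw [mem_S] at hr
  simp at hr

/-- the relative norm -/
noncomputable def nm (x : L p) : L p := ∏ r ∈ S p, sg p r x

theorem nm_mul (x y : L p) : nm p (x * y) = nm p x * nm p y := by
  simp only [nm, map_mul, Finset.prod_mul_distrib]

theorem nm_intCast (n : ℤ) : nm p (n : L p) = ((n ^ (S p).card : ℤ) : L p) := by
  simp [nm]

theorem sg_nm (s : ZMod p) (hs : s ∈ S p) (x : L p) : sg p s (nm p x) = nm p x := by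
  have hs0 := S_ne p hs
  rw [nm, map_prod]
  refine Finset.prod_bij' (fun r _ => s * r) (fun r _ => s⁻¹ * r) ?_ ?_ ?_ ?_ ?_
  · intro r hr
    rw [mem_S] at *
    rw [map_mul, hs, hr, one_mul]
  · intro r hr
    rw [mem_S] at *
    have h1 : quadraticChar (ZMod p) s⁻¹ = 1 := by
      have h2 : quadraticChar (ZMod p) (s * s⁻¹) = 1 := by
        rw [mul_inv_cancel₀ hs0, map_one]
      rwa [map_mul, hs, one_mul] at h2
    rw [map_mul, h1, hr, one_mul]
  · intro r _
    exact inv_mul_cancel_left₀ hs0 r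
  · intro r _
    exact mul_inv_cancel_left₀ hs0 r
  · intro r _
    rw [sg_sg]

theorem sg_nm' (r : ZMod p) (x : L p) : sg p r (nm p x) = nm p (sg p r x) := by
  simp only [nm, map_prod, sg_sg, mul_comm]

theorem nm_coeff (s : ZMod p) (hs : s ∈ S p) (x : L p) (g : ZMod p) :
    (nm p x).coeff (s * g) = (nm p x).coeff g := by
  conv_lhs => rw [← sg_nm p s hs x]
  exact sg_coeff p s (S_ne p hs) _ g

theorem nm_congr (n : ℤ) (x y : L p) (h : x - y ∈ I p n) : nm p x - nm p y ∈ I p n := by
  rw [← Ideal.Quotient.eq] at *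
  rw [nm, nm, map_prod, map_prod]
  refine Finset.prod_congr rfl fun r hr => ?_
  rw [Ideal.Quotient.eq] at *
  rw [← map_sub]
  exact sg_mem_I p n r (S_ne p hr) _ h

theorem rho_nm (x : L p) : rho p (nm p x) = rho p x ^ (S p).card := by
  rw [nm, map_prod]
  simp only [rho_sg]
  rw [Finset.prod_const]

end Kl

end Run7.h595
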