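import Mathlib
import Pool.Agent.Run7.h595.Rng

set_option autoImplicit false
set_option linter.unusedSectionVars false

/-!
The relative norm to the imaginary quadratic field, and the sign law.
-/

namespace Run7.h595

open Finset

namespace Kl

variable (p : ℕ) [Fact p.Prime]

/-- evaluation at a nontrivial character -/
noncomputable def ev : L p →+* ℂ :=
  (AddMonoidAlgebra.lift ℤ ℂ (ZMod p) (ZMod.stdAddChar (N := p)).toMonoidHom).toRingHom

theorem ev_single (g : ZMod p) (n : ℤ) :
    ev p (AddMonoidAlgebra.single g n) = n * ZMod.stdAddChar g := by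
  change (AddMonoidAlgebra.lift ℤ ℂ (ZMod p) (ZMod.stdAddChar (N := p)).toMonoidHom)
    (AddMonoidAlgebra.single g n) = _
  rw [AddMonoidAlgebra.lift_single, zsmul_eq_mul]
  rfl

theorem ev_el (f : ZMod p → ℤ) : ev p (el p f) = ∑ g, (f g : ℂ) * ZMod.stdAddChar g := by
  rw [el, map_sum]
  exact Finset.sum_congr rfl fun g _ => ev_single p g _

theorem sum_char : ∑ g : ZMod p, (ZMod.stdAddChar g : ℂ) = 0 := by
  have hp : p.Prime := Fact.out
  apply AddChar.sum_eq_zero_of_ne_one
  have h := ZMod.isPrimitive_stdAddChar p (a := 1) one_ne_zero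
  intro h1
  apply h
  rw [h1]
  ext x
  simp

theorem ev_J : ev p (J p) = 0 := by
  rw [J, ev_el]
  simp only [Int.cast_one, one_mul]
  exact sum_char p

theorem ev_I (x : L p) (hx : x ∈ I p 0) : ev p x = 0 := by
  rw [I, Ideal.mem_span_pair] at hx
  obtain ⟨a, b, rfl⟩ := hx
  rw [map_add, map_mul, map_mul, ev_J]
  simp

/-- the Gauss sum -/
noncomputable def G : ℂ := gaussSum ((quadraticChar (ZMod p)).ringHomComp (Int.castRingHom ℂ))
  (ZMod.stdAddChar (N := p))

theorem G_eq : G p = ∑ g, ((quadraticChar (ZMod p) g : ℤ) : ℂ) * ZMod.stdAddChar g := by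
  rw [G, gaussSum]
  rfl

variable {p}

theorem chi_neg_one (hp4 : p % 4 = 3) : quadraticChar (ZMod p) (-1) = -1 := by
  have hp2 : p ≠ 2 := by rintro rfl; norm_num at hp4
  rw [quadraticChar_neg_one (by rwa [ZMod.ringChar_zmod_n]), ZMod.card,
    ZMod.χ₄_nat_three_mod_four hp4]

theorem G_sq (hp4 : p % 4 = 3) : G p ^ 2 = -(p : ℂ) := by
  have hp2 : p ≠ 2 := by rintro rfl; norm_num at hp4
  have hr : ringChar (ZMod p) ≠ 2 := by rwa [ZMod.ringChar_zmod_n]
  rw [G, gaussSum_sq]
  · rw [MulChar.ringHomComp_apply, chi_neg_one hp4, ZMod.card]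
    simp
  · intro h
    apply quadraticChar_ne_one hr
    rw [MulChar.ringHomComp_eq_one_iff (RingHom.injective_int _)] at h
    exact h
  · exact (quadraticChar_isQuadratic (ZMod p)).comp _
  · exact ZMod.isPrimitive_stdAddChar p

/-- the shape of an element invariant under squares -/
theorem shape (hp4 : p % 4 = 3) (x : L p) (g : ZMod p) :
    2 * (nm p x).coeff g = ((nm p x).coeff 1 + (nm p x).coeff (-1)) +
      (if g = 0 then (2 * (nm p x).coeff 0 - (nm p x).coeff 1 - (nm p x).coeff (-1)) else 0) +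
      ((nm p x).coeff 1 - (nm p x).coeff (-1)) * quadraticChar (ZMod p) g := by
  by_cases hg : g = 0
  · subst hg
    simp
  · rw [if_neg hg]
    rcases quadraticChar_dichotomy hg with h | h
    · have h1 := nm_coeff p g ((mem_S p g).2 h) x 1
      rw [mul_one] at h1
      rw [h1, h]
      ring
    · have h2 : quadraticChar (ZMod p) (-g) = 1 := by
        rw [neg_eq_neg_one_mul, map_mul, h, chi_neg_one hp4]; norm_num
      have h1 := nm_coeff p (-g) ((mem_S p (-g)).2 h2) x (-1)
      rw [neg_mul_neg, mul_one] at h1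
      rw [h1, h]
      ring

theorem ev_nm (hp4 : p % 4 = 3) (x : L p) :
    2 * ev p (nm p x) =
      ((2 * (nm p x).coeff 0 - (nm p x).coeff 1 - (nm p x).coeff (-1) : ℤ) : ℂ) +
      (((nm p x).coeff 1 - (nm p x).coeff (-1) : ℤ) : ℂ) * G p := by
  conv_lhs => rw [← el_eta p (nm p x), ev_el, Finset.mul_sum]
  have h1 : ∀ g ∈ (univ : Finset (ZMod p)), 2 * (((nm p x).coeff g : ℂ) * ZMod.stdAddChar g) =
      (((nm p x).coeff 1 + (nm p x).coeff (-1) : ℤ) : ℂ) * ZMod.stdAddChar g +
      (if g = 0 then ((2 * (nm p x).coeff 0 - (nm p x).coeff 1 - (nm p x).coeff (-1) : ℤ) : ℂ)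
        else 0) +
      (((nm p x).coeff 1 - (nm p x).coeff (-1) : ℤ) : ℂ) *
        (((quadraticChar (ZMod p) g : ℤ) : ℂ) * ZMod.stdAddChar g) := by
    intro g _
    have h2 := congrArg (fun z : ℤ => (z : ℂ)) (shape hp4 x g)
    by_cases hg : g = 0
    · subst hg
      simp only [if_true] at h2 ⊢
      push_cast at h2 ⊢
      rw [AddChar.map_zero_eq_one]
      simp
    · simp only [if_neg hg] at h2 ⊢
      push_cast at h2 ⊢
      linear_combination (ZMod.stdAddChar g : ℂ) * h2
  rw [Finset.sum_congr rfl h1, Finset.sum_add_distrib, Finset.sum_add_distrib, ← Finset.mul_sum,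
    ← Finset.mul_sum, sum_char, G_eq, Finset.sum_ite_eq']
  simp

/-- the involution swaps the two nonzero coefficients -/
theorem nm_neg_coeff (x : L p) (g : ZMod p) :
    (nm p (sg p (-1) x)).coeff g = (nm p x).coeff (-g) := by
  have h0 : (-1 : ZMod p) ≠ 0 := neg_ne_zero.2 one_ne_zero
  rw [← sg_nm']
  have := sg_coeff p (-1) h0 (nm p x) (-g)
  rwa [neg_mul_neg, one_mul] at this

theorem norm_eq (hp4 : p % 4 = 3) (x : L p) (w : ℤ)
    (h : x * sg p (-1) x - (w : L p) ∈ I p 0) :
    (2 * (nm p x).coeff 0 - (nm p x).coeff 1 - (nm p x).coeff (-1)) ^ 2 +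
      p * ((nm p x).coeff 1 - (nm p x).coeff (-1)) ^ 2 = 4 * w ^ (S p).card := by
  have h1 := nm_congr p 0 _ _ h
  rw [nm_mul, nm_intCast] at h1
  have h2 := ev_I p _ h1
  rw [map_sub, map_mul, map_intCast, sub_eq_zero] at h2
  have h3 := ev_nm hp4 x
  have h4 := ev_nm hp4 (sg p (-1) x)
  rw [nm_neg_coeff, nm_neg_coeff, nm_neg_coeff, neg_neg, neg_zero] at h4
  have h5 := G_sq hp4
  set a := (nm p x).coeff 0
  set b := (nm p x).coeff 1
  set c := (nm p x).coeff (-1)
  have h6 : (((2 * a - b - c) ^ 2 + p * (b - c) ^ 2 : ℤ) : ℂ) = ((4 * w ^ (S p).card : ℤ) : ℂ) := by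
    push_cast at *
    have h7 : (2 * ev p (nm p x)) * (2 * ev p (nm p (sg p (-1) x))) =
        4 * (w : ℂ) ^ (S p).card := by
      linear_combination 4 * h2
    rw [h3, h4] at h7
    linear_combination h7 + ((b : ℂ) - c) ^ 2 * h5
  exact_mod_cast h6

theorem two_card_S (hp2 : p ≠ 2) : 2 * (S p).card = p - 1 := by
  classical
  have hp : p.Prime := Fact.out
  have h1 := quadraticChar_sum_zero (F := ZMod p) (by rwa [ZMod.ringChar_zmod_n])
  have h2 : ∀ g ∈ (univ : Finset (ZMod p)), quadraticChar (ZMod p) g =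
      2 * (if g ∈ S p then 1 else 0) - 1 + (if g = 0 then 1 else 0) := by
    intro g _
    by_cases hg : g = 0
    · subst hg
      have : (0 : ZMod p) ∉ S p := fun h => S_ne p h rfl
      simp [this]
    · rcases quadraticChar_dichotomy hg with h | h
      · rw [if_pos ((mem_S p g).2 h), if_neg hg, h]; norm_num
      · rw [if_neg (by rw [mem_S, h]; norm_num), if_neg hg, h]; norm_num
  rw [Finset.sum_congr rfl h2, Finset.sum_add_distrib, Finset.sum_sub_distrib, ← Finset.mul_sum,
    Finset.sum_ite_mem, Finset.univ_inter, Finset.sum_ite_eq'] at h1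
  simp only [Finset.sum_const, Finset.card_univ, ZMod.card, nsmul_eq_mul, mul_one,
    Finset.mem_univ, if_true] at h1
  have := hp.two_le
  omega

theorem odd_card_S (hp4 : p % 4 = 3) : Odd (S p).card := by
  have hp2 : p ≠ 2 := by rintro rfl; norm_num at hp4
  have h := two_card_S hp2
  rw [Nat.odd_iff]
  omega

end Kl

end Run7.h595
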