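import Mathlib
import Pool.Agent.Run7.h595.Nrm

set_option autoImplicit false
set_option linter.unusedSectionVars false

/-!
The sign law for `p ≡ 3 (mod 4)`.
-/

namespace Run7.h595

open Finset

namespace Kl

variable {p : ℕ} [Fact p.Prime]

theorem intCast_coeff (n : ℤ) (g : ZMod p) : ((n : L p)).coeff g = if g = 0 then n else 0 := by
  classical
  rw [AddMonoidAlgebra.intCast_def, AddMonoidAlgebra.coeff_single, Finsupp.single_apply]
  by_cases hg : g = 0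
  · subst hg; simp
  · rw [if_neg (Ne.symm hg), if_neg hg]

theorem rho_eq (x : L p) : rho p x = ((∑ g, x.coeff g : ℤ) : ZMod p) := by
  conv_lhs => rw [← el_eta p x]
  exact rho_el p _

theorem sum_nm (hp4 : p % 4 = 3) (x : L p) :
    2 * ∑ g, (nm p x).coeff g = p * ((nm p x).coeff 1 + (nm p x).coeff (-1)) +
      (2 * (nm p x).coeff 0 - (nm p x).coeff 1 - (nm p x).coeff (-1)) := by
  have hp2 : p ≠ 2 := by rintro rfl; norm_num at hp4
  rw [Finset.mul_sum, Finset.sum_congr rfl fun g _ => shape hp4 x g, Finset.sum_add_distrib,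
    Finset.sum_add_distrib, ← Finset.mul_sum, quadraticChar_sum_zero (by rwa [ZMod.ringChar_zmod_n]),
    Finset.sum_ite_eq']
  simp [ZMod.card]

/-- **The sign law.** -/
theorem sign_law (hp4 : p % 4 = 3) {v : ℤ} (hv0 : v ≠ 0) (hv2 : ¬ (2 : ℤ) ∣ v)
    (hvp : ¬ (p : ℤ) ∣ v)
    (hq : ∀ q : ℕ, q.Prime → (q : ℤ) ∣ v → (∃ z : ZMod q, z ^ 2 = -(p : ZMod q)) → q % 4 = 1)
    (y : L p) (h1 : y - 1 ∈ I p 2) (h2 : y * sg p (-1) y - ((v ^ 4 : ℤ) : L p) ∈ I p 0)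
    (ε : ℤ) (hε : ε = 1 ∨ ε = -1) (h3 : rho p y = ((ε * v ^ 2 : ℤ) : ZMod p)) :
    nm p y - (ε : L p) ∈ I p 4 := by
  have hp : p.Prime := Fact.out
  have hp2 : p ≠ 2 := by rintro rfl; norm_num at hp4
  have hpZ : Prime (p : ℤ) := Nat.prime_iff_prime_int.1 hp
  have hne : (1 : ZMod p) ≠ 0 := one_ne_zero
  have hne' : (-1 : ZMod p) ≠ 0 := neg_ne_zero.2 one_ne_zero
  set N := (S p).card with hN
  have hNodd : Odd N := odd_card_S hp4
  -- parity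
  have h4 := nm_congr p 2 _ _ h1
  have h5 : nm p (1 : L p) = 1 := by
    have := nm_intCast p 1
    simpa using this
  rw [h5, mem_I] at h4
  obtain ⟨m, hm⟩ := h4
  have h6 := hm 1
  have h7 := hm (-1)
  have h8 : ∀ g : ZMod p, g ≠ 0 → ((nm p y - 1 : L p)).coeff g = (nm p y).coeff g := by
    intro g hg
    have := intCast_coeff (p := p) 1 g
    rw [if_neg hg, Int.cast_one] at this
    rw [AddMonoidAlgebra.coeff_sub, Finsupp.sub_apply, this, sub_zero]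
  rw [h8 1 hne] at h6
  rw [h8 (-1) hne'] at h7
  have h9 := norm_eq hp4 y (v ^ 4) h2
  have h10 := sum_nm hp4 y
  have h11 := rho_nm p y
  rw [h3, rho_eq] at h11
  have hshape := shape hp4 y
  set c : ZMod p → ℤ := fun g => (nm p y).coeff g with hc
  change ∀ g, 2 * c g = (c 1 + c (-1)) + (if g = 0 then (2 * c 0 - c 1 - c (-1)) else 0) +
      (c 1 - c (-1)) * quadraticChar (ZMod p) g at hshape
  change (2 : ℤ) ∣ c 1 - m at h6
  change (2 : ℤ) ∣ c (-1) - m at h7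
  change (2 * c 0 - c 1 - c (-1)) ^ 2 + p * (c 1 - c (-1)) ^ 2 = 4 * (v ^ 4) ^ N at h9
  change 2 * ∑ g, c g = p * (c 1 + c (-1)) + (2 * c 0 - c 1 - c (-1)) at h10
  change ((∑ g, c g : ℤ) : ZMod p) = ((ε * v ^ 2 : ℤ) : ZMod p) ^ N at h11
  obtain ⟨A, hA⟩ : (2 : ℤ) ∣ 2 * c 0 - c 1 - c (-1) := by omega
  obtain ⟨B, hB⟩ : (2 : ℤ) ∣ c 1 - c (-1) := by omega
  obtain ⟨M, hM⟩ : (2 : ℤ) ∣ c 1 + c (-1) := by omega
  set W : ℤ := (v ^ 2) ^ N with hW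
  have hWpos : 0 < W := by positivity
  have e1 : A ^ 2 + p * B ^ 2 = W ^ 2 := by
    rw [hA, hB] at h9
    have e : W ^ 2 = (v ^ 4) ^ N := by rw [hW, ← pow_mul, ← pow_mul, ← pow_mul]; congr 1; ring
    rw [e]
    linarith
  have e2 : (p : ℤ) ∣ A - ε * W := by
    have e3 : ((ε * v ^ 2 : ℤ) : ZMod p) ^ N = ((ε * W : ℤ) : ZMod p) := by
      rw [hW, ← Int.cast_pow, mul_pow]
      congr 2
      rcases hε with h | h
      · rw [h, one_pow]
      · rw [h, hNodd.neg_one_pow]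
    rw [e3, ← sub_eq_zero, ← Int.cast_sub, ZMod.intCast_zmod_eq_zero_iff_dvd] at h11
    have e4 : (p : ℤ) ∣ 2 * (A - ε * W) := by
      have : 2 * (A - ε * W) = 2 * (∑ g, c g - ε * W) - p * (2 * M) := by
        rw [mul_sub, mul_sub, h10, hA, hM]; ring
      rw [this]
      exact dvd_sub (Dvd.dvd.mul_left h11 _) (Dvd.intro _ rfl)
    rcases hpZ.dvd_or_dvd e4 with h | h
    · exfalso
      have h12 : (p : ℤ) ≤ 2 := Int.le_of_dvd (by norm_num) h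
      have := hp.two_le
      omega
    · exact h
  have hpW : ¬ (p : ℤ) ∣ W := fun h => hvp (hpZ.dvd_of_dvd_pow (hpZ.dvd_of_dvd_pow h))
  have h2W : ¬ (2 : ℤ) ∣ W := fun h =>
    hv2 (Int.prime_two.dvd_of_dvd_pow (Int.prime_two.dvd_of_dvd_pow h))
  obtain ⟨r1, r2⟩ := Quad.key' hp hp4 hWpos h2W hpW (by
    intro q hqp hqW hz
    have hqZ : Prime (q : ℤ) := Nat.prime_iff_prime_int.1 hqp
    exact hq q hqp (hqZ.dvd_of_dvd_pow (hqZ.dvd_of_dvd_pow hqW)) hz) e1 ε hε e2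
  have hW4 : (4 : ℤ) ∣ W - 1 := by
    have h12 : (4 : ℤ) ∣ v ^ 2 - 1 := by
      have h13 : v % 4 = 1 ∨ v % 4 = 3 := by omega
      have h14 : v ^ 2 % 4 = 1 := by
        rcases h13 with h | h <;> simp [pow_two, Int.mul_emod, h]
      omega
    refine h12.trans ?_
    have := sub_dvd_pow_sub_pow (v ^ 2) 1 N
    rwa [one_pow] at this
  have r3 : (4 : ℤ) ∣ A - ε := by
    have : A - ε = (A - ε * W) + ε * (W - 1) := by ring
    rw [this]
    exact dvd_add r1 (Dvd.dvd.mul_left hW4 _)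
  rw [mem_I]
  refine ⟨M, fun g => ?_⟩
  rw [AddMonoidAlgebra.coeff_sub, Finsupp.sub_apply, intCast_coeff]
  change (4 : ℤ) ∣ c g - (if g = 0 then ε else 0) - M
  have h12 := hshape g
  rw [hA, hB, hM] at h12
  by_cases hg : g = 0
  · rw [if_pos hg] at h12 ⊢
    have h13 : c g - ε - M = (A - ε) + B * quadraticChar (ZMod p) g := by linarith
    rw [h13]
    exact dvd_add r3 (Dvd.dvd.mul_right r2 _)
  · rw [if_neg hg] at h12 ⊢
    have h13 : c g - 0 - M = B * quadraticChar (ZMod p) g := by linarith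
    rw [h13]
    exact Dvd.dvd.mul_right r2 _

theorem intCast_mem_I (n a : ℤ) (h : (a : L p) ∈ I p n) : n ∣ a := by
  rw [mem_I] at h
  obtain ⟨m, hm⟩ := h
  have h1 := hm 0
  have h2 := hm 1
  rw [intCast_coeff, if_pos rfl] at h1
  rw [intCast_coeff, if_neg one_ne_zero] at h2
  have := dvd_sub h1 h2
  have e : a - m - (0 - m) = a := by ring
  rwa [e] at this

theorem mul_mem (n : ℤ) (x : L p) : (n : L p) * x ∈ I p n :=
  Ideal.mul_mem_right _ _ (Ideal.subset_span (by simp))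

/-- **Key lemma**, `p ≡ 3 (mod 4)`. -/
theorem kl2 (hp4 : p % 4 = 3) {v : ℤ} (hv0 : v ≠ 0) (hv2 : ¬ (2 : ℤ) ∣ v) (hvp : ¬ (p : ℤ) ∣ v)
    (hq : ∀ q : ℕ, q.Prime → (q : ℤ) ∣ v → (∃ z : ZMod q, z ^ 2 = -(p : ZMod q)) → q % 4 = 1)
    (X Y : Fin 4 → L p) (hX0 : X 0 = Y 0 + Y 1 + Y 2 + Y 3) (hX1 : X 1 = Y 0 - Y 1 + Y 2 - Y 3)
    (hX2 : X 2 = Y 0 + Y 1 - Y 2 - Y 3) (hX3 : X 3 = Y 0 - Y 1 - Y 2 + Y 3)
    (h : ∀ k, X k * sg p (-1) (X k) - ((v ^ 2 : ℤ) : L p) ∈ I p 0)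
    (ε : Fin 4 → ℤ) (hε : ∀ k, ε k = 1 ∨ ε k = -1)
    (hr : ∀ k, rho p (X k) = ((ε k * v : ℤ) : ZMod p)) : ε 0 * ε 1 * ε 2 * ε 3 = 1 := by
  set y : Fin 4 → L p := fun k => X k * sg p (-1) (X 0) with hy
  have hss : ∀ x : L p, sg p (-1) (sg p (-1) x) = x := by
    intro x
    rw [sg_sg, neg_mul_neg, one_mul, sg_one]
  have hv4 : (4 : ℤ) ∣ v ^ 2 - 1 := by
    have h13 : v % 4 = 1 ∨ v % 4 = 3 := by omega
    have h14 : v ^ 2 % 4 = 1 := by
      rcases h13 with h | h <;> simp [pow_two, Int.mul_emod, h]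
    omega
  -- congruences modulo 2 of the `X k`
  have hX : ∀ k, X k - X 0 ∈ I p 2 := by
    intro k
    have h2 : ∀ z : L p, (2 : L p) * z ∈ I p 2 := fun z => mul_mem 2 z
    fin_cases k
    · simp
    · change X 1 - X 0 ∈ I p 2
      have : X 1 - X 0 = 2 * (-(Y 1) - Y 3) := by rw [hX0, hX1]; ring
      rw [this]; exact h2 _
    · change X 2 - X 0 ∈ I p 2
      have : X 2 - X 0 = 2 * (-(Y 2) - Y 3) := by rw [hX0, hX2]; ring
      rw [this]; exact h2 _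
    · change X 3 - X 0 ∈ I p 2
      have : X 3 - X 0 = 2 * (-(Y 1) - Y 2) := by rw [hX0, hX3]; ring
      rw [this]; exact h2 _
  have hint : ∀ n a : ℤ, n ∣ a → (a : L p) ∈ I p n := by
    rintro n a ⟨c, rfl⟩
    push_cast
    exact mul_mem n _
  have h1 : ∀ k, y k - 1 ∈ I p 2 := by
    intro k
    have e : y k - 1 = (X k - X 0) * sg p (-1) (X 0) +
        (X 0 * sg p (-1) (X 0) - ((v ^ 2 : ℤ) : L p)) + ((v ^ 2 - 1 : ℤ) : L p) := by
      rw [hy]; push_cast; ring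
    rw [e]
    refine Ideal.add_mem _ (Ideal.add_mem _ (Ideal.mul_mem_right _ _ (hX k)) ?_) ?_
    · exact I_le p 2 0 (dvd_zero _) (h 0)
    · exact hint _ _ ((by norm_num : (2 : ℤ) ∣ 4).trans hv4)
  have h2 : ∀ k, y k * sg p (-1) (y k) - ((v ^ 4 : ℤ) : L p) ∈ I p 0 := by
    intro k
    have e : y k * sg p (-1) (y k) - ((v ^ 4 : ℤ) : L p) =
        (X k * sg p (-1) (X k) - ((v ^ 2 : ℤ) : L p)) * (X 0 * sg p (-1) (X 0)) +
        ((v ^ 2 : ℤ) : L p) * (X 0 * sg p (-1) (X 0) - ((v ^ 2 : ℤ) : L p)) := by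
      rw [hy]
      simp only [map_mul, hss]
      push_cast
      ring
    rw [e]
    exact Ideal.add_mem _ (Ideal.mul_mem_right _ _ (h k)) (Ideal.mul_mem_left _ _ (h 0))
  have h3 : ∀ k, rho p (y k) = ((ε k * ε 0 * v ^ 2 : ℤ) : ZMod p) := by
    intro k
    rw [hy]
    simp only [map_mul, rho_sg, hr]
    push_cast
    ring
  have hε' : ∀ k, ε k * ε 0 = 1 ∨ ε k * ε 0 = -1 := by
    intro k
    rcases hε k with h | h <;> rcases hε 0 with h' | h' <;> rw [h, h'] <;> norm_num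
  have h4 : ∀ k, nm p (y k) - ((ε k * ε 0 : ℤ) : L p) ∈ I p 4 := fun k =>
    sign_law hp4 hv0 hv2 hvp hq (y k) (h1 k) (h2 k) _ (hε' k) (h3 k)
  -- the product
  have h5 : y 0 * y 1 * y 2 * y 3 - 1 ∈ I p 4 := by
    have e : y 0 * y 1 * y 2 * y 3 - 1 = (X 0 * X 1 * X 2 * X 3 - X 0 ^ 4) * (sg p (-1) (X 0)) ^ 4 +
        (((X 0 * sg p (-1) (X 0)) ^ 4) - ((v ^ 2 : ℤ) : L p) ^ 4) + (((v ^ 2) ^ 4 - 1 : ℤ) : L p) := by
      rw [hy]; push_cast; ring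
    rw [e]
    refine Ideal.add_mem _ (Ideal.add_mem _ (Ideal.mul_mem_right _ _ ?_) ?_) ?_
    · have e2 : X 0 * X 1 * X 2 * X 3 - X 0 ^ 4 = ((4 : ℤ) : L p) * (X 0 * (-(X 0) ^ 2 * (Y 1 + Y 2 + Y 3) +
          X 0 * ((Y 2 + Y 3) * (Y 1 + Y 3) + (Y 2 + Y 3) * (Y 1 + Y 2) + (Y 1 + Y 3) * (Y 1 + Y 2)) -
          2 * (Y 2 + Y 3) * (Y 1 + Y 3) * (Y 1 + Y 2))) := by
        have f1 : X 1 = X 0 - 2 * (Y 1 + Y 3) := by rw [hX0, hX1]; ring
        have f2 : X 2 = X 0 - 2 * (Y 2 + Y 3) := by rw [hX0, hX2]; ring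
        have f3 : X 3 = X 0 - 2 * (Y 1 + Y 2) := by rw [hX0, hX3]; ring
        rw [f1, f2, f3]
        push_cast
        ring
      rw [e2]
      exact mul_mem 4 _
    · refine I_le p 4 0 (dvd_zero _) ?_
      obtain ⟨c, hc⟩ := sub_dvd_pow_sub_pow (X 0 * sg p (-1) (X 0)) (((v ^ 2 : ℤ) : L p)) 4
      rw [hc]
      exact Ideal.mul_mem_right _ _ (h 0)
    · apply hint
      refine hv4.trans ?_
      have := sub_dvd_pow_sub_pow (v ^ 2) 1 4
      rwa [one_pow] at this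
  have h6 := nm_congr p 4 _ _ h5
  have h7 : nm p (1 : L p) = 1 := by
    have := nm_intCast p 1
    simpa using this
  rw [h7, nm_mul, nm_mul, nm_mul] at h6
  -- in the quotient
  have q : ∀ k, Ideal.Quotient.mk (I p 4) (nm p (y k)) =
      Ideal.Quotient.mk (I p 4) ((ε k * ε 0 : ℤ) : L p) := fun k => Ideal.Quotient.eq.2 (h4 k)
  rw [← Ideal.Quotient.eq, map_mul, map_mul, map_mul, q, q, q, q, ← map_mul, ← map_mul, ← map_mul,
    Ideal.Quotient.eq] at h6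
  have h8 : (((ε 0 * ε 0) * (ε 1 * ε 0) * (ε 2 * ε 0) * (ε 3 * ε 0) - 1 : ℤ) : L p) ∈ I p 4 := by
    push_cast at h6 ⊢
    exact h6
  have h9 := intCast_mem_I 4 _ h8
  have h10 : ε 0 * ε 0 = 1 := by rcases hε 0 with h | h <;> rw [h] <;> norm_num
  have h11 : (ε 0 * ε 0) * (ε 1 * ε 0) * (ε 2 * ε 0) * (ε 3 * ε 0) = ε 0 * ε 1 * ε 2 * ε 3 := by
    calc _ = (ε 0 * ε 0) * (ε 0 * ε 0) * (ε 0 * ε 1 * ε 2 * ε 3) := by ring
      _ = _ := by rw [h10]; ring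
  rw [h11] at h9
  rcases hε 0 with a | a <;> rcases hε 1 with b | b <;> rcases hε 2 with c | c <;>
    rcases hε 3 with d | d <;> rw [a, b, c, d] at h9 <;> rw [a, b, c, d] <;>
    first | rfl | (norm_num at h9)

end Kl

end Run7.h595
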