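import Mathlib
import Pool.Agent.Run7.h595.Sgn
import Pool.Agent.Run7.h595.Odd

set_option autoImplicit false
set_option linter.unusedSectionVars false

/-!
The key lemma when all primes are self-conjugate modulo `p`.
-/

namespace Run7.h595

open Finset

namespace Kl

variable {p : ℕ} [Fact p.Prime]

theorem el_add (f g : ZMod p → ℤ) : el p (fun x => f x + g x) = el p f + el p g := by
  ext x
  rw [AddMonoidAlgebra.coeff_add, Finsupp.add_apply, el_coeff, el_coeff, el_coeff]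

theorem el_mul_star (f : ZMod p → ℤ) :
    el p f * sg p (-1) (el p f) = el p (fun d => ∑ g, f g * f (g + d)) := by
  classical
  have e1 : sg p (-1) (el p f) = ∑ g, AddMonoidAlgebra.single (-g) (f g) := by
    rw [el, map_sum]
    refine Finset.sum_congr rfl fun g _ => ?_
    rw [sg_single, neg_one_mul]
  rw [e1, el, Finset.sum_mul_sum, Finset.sum_comm]
  have e2 : ∀ g' : ZMod p, (∑ g : ZMod p,
      (AddMonoidAlgebra.single g (f g) * AddMonoidAlgebra.single (-g') (f g') : L p)) =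
      ∑ d, AddMonoidAlgebra.single d (f g' * f (g' + d)) := by
    intro g'
    rw [← Equiv.sum_comp (Equiv.addLeft g')]
    refine Finset.sum_congr rfl fun d _ => ?_
    rw [AddMonoidAlgebra.single_mul_single]
    simp only [Equiv.coe_addLeft]
    rw [mul_comm, add_neg_eq_iff_eq_add.2 (add_comm g' d)]
  rw [Finset.sum_congr rfl fun g' _ => e2 g', Finset.sum_comm, el]
  refine Finset.sum_congr rfl fun d _ => ?_
  exact (map_sum (AddMonoidAlgebra.singleAddHom (R := ℤ) d) _ _).symm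

/-- correlations from the group ring equation -/
theorem corr_of_mem (f : ZMod p → ℤ) (w : ℤ) (hs : (∑ g, f g) ^ 2 = w)
    (h : el p f * sg p (-1) (el p f) - (w : L p) ∈ I p 0) (d : ZMod p) :
    ∑ g, f g * f (g + d) = if d = 0 then w else 0 := by
  have hp : p.Prime := Fact.out
  rw [el_mul_star, mem_I] at h
  obtain ⟨m, hm⟩ := h
  have h1 : ∀ d, ∑ g, f g * f (g + d) = (if d = 0 then w else 0) + m := by
    intro d
    have h2 := hm d
    rw [zero_dvd_iff, AddMonoidAlgebra.coeff_sub, Finsupp.sub_apply, el_coeff, intCast_coeff] at h2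
    linarith
  have h2 : ∑ d, ∑ g, f g * f (g + d) = (∑ g, f g) ^ 2 := by
    rw [Finset.sum_comm, sq, Finset.sum_mul]
    refine Finset.sum_congr rfl fun g _ => ?_
    rw [← Finset.mul_sum]
    congr 1
    exact Equiv.sum_comp (Equiv.addLeft g) f
  rw [Finset.sum_congr rfl fun d _ => h1 d, Finset.sum_add_distrib, Finset.sum_ite_eq'] at h2
  simp only [Finset.mem_univ, if_true, Finset.sum_const, Finset.card_univ, ZMod.card,
    nsmul_eq_mul] at h2
  rw [hs] at h2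
  have h3 : (p : ℤ) * m = 0 := by linarith
  have h4 : m = 0 := (mul_eq_zero.1 h3).resolve_left (by exact_mod_cast hp.ne_zero)
  rw [h1 d, h4, add_zero]

/-- an element of modulus `v` is `± v g`, for `v` self-conjugate -/
theorem trivial_shape {v : ℕ} (hv0 : v ≠ 0)
    (hq : ∀ q : ℕ, q.Prime → q ∣ v → ∃ j : ℕ, j ≠ 0 ∧ p ∣ q ^ j + 1)
    (X : L p) (h : X * sg p (-1) X - (((v : ℤ) ^ 2 : ℤ) : L p) ∈ I p 0)
    (ε : ℤ) (hε : ε = 1 ∨ ε = -1) (hr : rho p X = ((ε * v : ℤ) : ZMod p)) :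
    ∃ (m : ℤ) (c : ZMod p), ∀ g, X.coeff g = m + (if g = c then ε * v else 0) := by
  classical
  have hp : p.Prime := Fact.out
  have hvZ : (v : ℤ) ≠ 0 := by exact_mod_cast hv0
  have hε2 : ε ^ 2 = 1 := by rcases hε with h | h <;> rw [h] <;> norm_num
  rw [rho_eq, ← sub_eq_zero, ← Int.cast_sub, ZMod.intCast_zmod_eq_zero_iff_dvd] at hr
  obtain ⟨m, hm⟩ := hr
  set f : ZMod p → ℤ := fun g => X.coeff g - m with hf
  have hsum : ∑ g, f g = ε * v := by
    rw [hf, Finset.sum_sub_distrib]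
    simp only [Finset.sum_const, Finset.card_univ, ZMod.card, nsmul_eq_mul]
    linarith
  have hel : el p f = X - (m : L p) * J p := by
    ext g
    rw [el_coeff, AddMonoidAlgebra.coeff_sub, Finsupp.sub_apply, intCast_mul_coeff, J_coeff,
      mul_one]
  have hmem : el p f * sg p (-1) (el p f) - (((v : ℤ) ^ 2 : ℤ) : L p) ∈ I p 0 := by
    have hJ : J p ∈ I p 0 := Ideal.subset_span (by simp)
    rw [hel, map_sub, map_mul, map_intCast, sg_J p _ (neg_ne_zero.2 one_ne_zero)]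
    have e : (X - (m : L p) * J p) * (sg p (-1) X - (m : L p) * J p) -
        (((v : ℤ) ^ 2 : ℤ) : L p) = (X * sg p (-1) X - (((v : ℤ) ^ 2 : ℤ) : L p)) +
        (-(X * m) - m * sg p (-1) X + m * m * J p) * J p := by ring
    rw [e]
    exact Ideal.add_mem _ h (Ideal.mul_mem_left _ _ hJ)
  have hcor := corr_of_mem f ((v : ℤ) ^ 2) (by rw [hsum, mul_pow, hε2, one_mul]) hmem
  have hdvd := Odd.dvd_all v hv0 (by
    intro q hqp hqv
    obtain ⟨j, hj0, hj⟩ := hq q hqp hqv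
    refine ⟨j, hj0, fun g => ?_⟩
    have h5 := (ZMod.natCast_eq_zero_iff (q ^ j + 1) p).2 hj
    push_cast at h5
    rw [nsmul_eq_mul, Nat.cast_pow, eq_neg_of_add_eq_zero_left h5]
    ring) f 1 (by
      have := hcor 0
      simp only [add_zero, if_true] at this
      rw [this, one_mul]) (fun d hd => by rw [hcor d, if_neg hd])
  choose w hw using hdvd
  have hsq : ∑ g, w g * w g = 1 := by
    have h1 := hcor 0
    simp only [add_zero, if_true] at h1
    have h2 : ((v : ℤ) ^ 2) * ∑ g, w g * w g = ((v : ℤ) ^ 2) * 1 := by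
      have h3 : ((v : ℤ) ^ 2) * ∑ g, w g * w g = ∑ g, f g * f g := by
        rw [Finset.mul_sum]
        exact Finset.sum_congr rfl fun g _ => by rw [hw g]; ring
      rw [h3, h1, mul_one]
    exact mul_left_cancel₀ (pow_ne_zero 2 hvZ) h2
  have hsw : ∑ g, w g = ε := by
    have h2 : (v : ℤ) * ∑ g, w g = (v : ℤ) * ε := by
      rw [Finset.mul_sum, mul_comm (v : ℤ) ε, ← hsum]
      exact Finset.sum_congr rfl fun g _ => (hw g).symm
    exact mul_left_cancel₀ hvZ h2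
  obtain ⟨c, hc⟩ : ∃ c, w c ≠ 0 := by
    by_contra hcon
    push Not at hcon
    rw [Finset.sum_eq_zero (fun g _ => by rw [hcon g]; rfl)] at hsq
    exact zero_ne_one hsq
  have h1 : w c * w c + ∑ g ∈ univ.erase c, w g * w g = 1 := by
    rw [Finset.add_sum_erase univ (fun g => w g * w g) (Finset.mem_univ c)]
    exact hsq
  have h2 : 0 < w c * w c := mul_self_pos.2 hc
  have h3 : 0 ≤ ∑ g ∈ univ.erase c, w g * w g := Finset.sum_nonneg fun g _ => mul_self_nonneg _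
  have h4 : ∑ g ∈ univ.erase c, w g * w g = 0 := by omega
  have h5 : ∀ g, g ≠ c → w g = 0 := by
    intro g hg
    have := (Finset.sum_eq_zero_iff_of_nonneg (fun g _ => mul_self_nonneg (w g))).1 h4 g
      (Finset.mem_erase.2 ⟨hg, Finset.mem_univ _⟩)
    exact mul_self_eq_zero.1 this
  have h6 : w c = ε := by
    rw [← hsw, Finset.sum_eq_single c (fun g _ hg => h5 g hg)
      (fun h => absurd (Finset.mem_univ _) h)]
  refine ⟨m, c, fun g => ?_⟩
  have h7 : X.coeff g = m + f g := by rw [hf]; ring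
  rw [h7, hw g]
  by_cases hg : g = c
  · rw [if_pos hg, hg, h6]; ring
  · rw [if_neg hg, h5 g hg]; ring

/-- **Key lemma**, self-conjugate case. -/
theorem kl1 (hp5 : 5 ≤ p) {v : ℕ} (hv0 : v ≠ 0) (hv2 : ¬ 2 ∣ v)
    (hq : ∀ q : ℕ, q.Prime → q ∣ v → ∃ j : ℕ, j ≠ 0 ∧ p ∣ q ^ j + 1)
    (X Y : Fin 4 → L p) (hX0 : X 0 = Y 0 + Y 1 + Y 2 + Y 3) (hX1 : X 1 = Y 0 - Y 1 + Y 2 - Y 3)
    (hX2 : X 2 = Y 0 + Y 1 - Y 2 - Y 3) (hX3 : X 3 = Y 0 - Y 1 - Y 2 + Y 3)
    (h : ∀ k, X k * sg p (-1) (X k) - (((v : ℤ) ^ 2 : ℤ) : L p) ∈ I p 0)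
    (ε : Fin 4 → ℤ) (hε : ∀ k, ε k = 1 ∨ ε k = -1)
    (hr : ∀ k, rho p (X k) = ((ε k * v : ℤ) : ZMod p)) : ε 0 * ε 1 * ε 2 * ε 3 = 1 := by
  classical
  have h1 := fun k => trivial_shape hv0 hq (X k) (h k) (ε k) (hε k) (hr k)
  choose m c hmc using h1
  -- a point avoiding the four centres
  obtain ⟨g0, hg0⟩ : ∃ g0 : ZMod p, ∀ k, g0 ≠ c k := by
    by_contra hcon
    push Not at hcon
    have h2 : (univ : Finset (ZMod p)) ⊆ univ.image c := by
      intro g _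
      obtain ⟨k, hk⟩ := hcon g
      exact Finset.mem_image.2 ⟨k, Finset.mem_univ _, hk.symm⟩
    have h3 := Finset.card_le_card h2
    rw [Finset.card_univ, ZMod.card] at h3
    have h4 := Finset.card_image_le (s := (univ : Finset (Fin 4))) (f := c)
    rw [Finset.card_univ, Fintype.card_fin] at h4
    omega
  have hY : ∀ g, 4 * (Y 0).coeff g = (X 0).coeff g + (X 1).coeff g + (X 2).coeff g + (X 3).coeff g ∧
      4 * (Y 1).coeff g = (X 0).coeff g - (X 1).coeff g + (X 2).coeff g - (X 3).coeff g ∧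
      4 * (Y 2).coeff g = (X 0).coeff g + (X 1).coeff g - (X 2).coeff g - (X 3).coeff g ∧
      4 * (Y 3).coeff g = (X 0).coeff g - (X 1).coeff g - (X 2).coeff g + (X 3).coeff g := by
    intro g
    rw [hX0, hX1, hX2, hX3]
    simp only [AddMonoidAlgebra.coeff_add, AddMonoidAlgebra.coeff_sub, Finsupp.add_apply,
      Finsupp.sub_apply]
    refine ⟨by ring, by ring, by ring, by ring⟩
  have ha := hY g0
  rw [hmc 0 g0, hmc 1 g0, hmc 2 g0, hmc 3 g0, if_neg (hg0 0), if_neg (hg0 1), if_neg (hg0 2),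
    if_neg (hg0 3)] at ha
  have hb := hY (c 0)
  rw [hmc 0, hmc 1, hmc 2, hmc 3, if_pos rfl] at hb
  obtain ⟨a1, a2, a3, a4⟩ := ha
  obtain ⟨b1, b2, b3, b4⟩ := hb
  have hv2' : (v : ℤ) % 4 = 1 ∨ (v : ℤ) % 4 = 3 := by omega
  have hcop : IsCoprime (4 : ℤ) (v : ℤ) := by
    rw [Int.isCoprime_iff_gcd_eq_one]
    have : Nat.Coprime 4 v := by
      rw [show 4 = 2 ^ 2 by norm_num]
      exact Nat.Coprime.pow_left 2 ((Nat.Prime.coprime_iff_not_dvd Nat.prime_two).2 hv2)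
    exact_mod_cast this
  obtain ⟨t1, ht1, ht1'⟩ : ∃ t : ℤ, (t = 0 ∨ t = 1) ∧
      (if c 0 = c 1 then ε 1 * (v : ℤ) else 0) = v * (t * ε 1) := by
    by_cases hc : c 0 = c 1
    · exact ⟨1, Or.inr rfl, by rw [if_pos hc]; ring⟩
    · exact ⟨0, Or.inl rfl, by rw [if_neg hc]; ring⟩
  obtain ⟨t2, ht2, ht2'⟩ : ∃ t : ℤ, (t = 0 ∨ t = 1) ∧
      (if c 0 = c 2 then ε 2 * (v : ℤ) else 0) = v * (t * ε 2) := by
    by_cases hc : c 0 = c 2
    · exact ⟨1, Or.inr rfl, by rw [if_pos hc]; ring⟩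
    · exact ⟨0, Or.inl rfl, by rw [if_neg hc]; ring⟩
  obtain ⟨t3, ht3, ht3'⟩ : ∃ t : ℤ, (t = 0 ∨ t = 1) ∧
      (if c 0 = c 3 then ε 3 * (v : ℤ) else 0) = v * (t * ε 3) := by
    by_cases hc : c 0 = c 3
    · exact ⟨1, Or.inr rfl, by rw [if_pos hc]; ring⟩
    · exact ⟨0, Or.inl rfl, by rw [if_neg hc]; ring⟩
  rw [ht1', ht2', ht3'] at b1 b2 b3 b4
  have d1 : (4 : ℤ) ∣ ε 0 + t1 * ε 1 + t2 * ε 2 + t3 * ε 3 := by
    apply hcop.dvd_of_dvd_mul_left
    exact ⟨(Y 0).coeff (c 0) - (Y 0).coeff g0, by linarith⟩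
  have d2 : (4 : ℤ) ∣ ε 0 - t1 * ε 1 + t2 * ε 2 - t3 * ε 3 := by
    apply hcop.dvd_of_dvd_mul_left
    exact ⟨(Y 1).coeff (c 0) - (Y 1).coeff g0, by linarith⟩
  have d3 : (4 : ℤ) ∣ ε 0 + t1 * ε 1 - t2 * ε 2 - t3 * ε 3 := by
    apply hcop.dvd_of_dvd_mul_left
    exact ⟨(Y 2).coeff (c 0) - (Y 2).coeff g0, by linarith⟩
  have d4 : (4 : ℤ) ∣ ε 0 - t1 * ε 1 - t2 * ε 2 + t3 * ε 3 := by
    apply hcop.dvd_of_dvd_mul_left
    exact ⟨(Y 3).coeff (c 0) - (Y 3).coeff g0, by linarith⟩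
  rcases hε 0 with a | a <;> rcases hε 1 with b | b <;> rcases hε 2 with e | e <;>
    rcases hε 3 with f | f <;> rcases ht1 with x | x <;> rcases ht2 with y | y <;>
    rcases ht3 with z | z <;> rw [a, b, e, f, x, y, z] at d1 d2 d3 d4 <;> rw [a, b, e, f] <;>
    omega

end Kl

end Run7.h595
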