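import Mathlib
import Pool.Agent.Run7.h595.Kl1

set_option autoImplicit false
set_option linter.unusedSectionVars false

/-!
An odd number of sign changes at each cyclic quotient of order `p`.
-/

namespace Run7.h595

open Finset

namespace Kl

variable {p : ℕ} [Fact p.Prime]

/-- the conclusion of the key lemma -/
def KLP (p : ℕ) [Fact p.Prime] (v : ℤ) : Prop :=
  ∀ (X Y : Fin 4 → L p), X 0 = Y 0 + Y 1 + Y 2 + Y 3 → X 1 = Y 0 - Y 1 + Y 2 - Y 3 →
    X 2 = Y 0 + Y 1 - Y 2 - Y 3 → X 3 = Y 0 - Y 1 - Y 2 + Y 3 →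
    (∀ k, X k * sg p (-1) (X k) - ((v ^ 2 : ℤ) : L p) ∈ I p 0) →
    ∀ ε : Fin 4 → ℤ, (∀ k, ε k = 1 ∨ ε k = -1) →
    (∀ k, rho p (X k) = ((ε k * v : ℤ) : ZMod p)) → ε 0 * ε 1 * ε 2 * ε 3 = 1

/-- the character table of the group of order four and exponent two -/
def chr : Fin 4 → Fin 4 → ℤ := ![![1, 1, 1, 1], ![1, -1, 1, -1], ![1, 1, -1, -1], ![1, -1, -1, 1]]

/-- the components of four functions -/
def comp4 {C : Type} (F : Fin 4 → C → ℤ) (κ : Fin 4) (y : C) : ℤ := ∑ k, chr κ k * F k y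

theorem comp4_0 {C : Type} (F : Fin 4 → C → ℤ) (y : C) :
    comp4 F 0 y = F 0 y + F 1 y + F 2 y + F 3 y := by
  simp [comp4, chr, Fin.sum_univ_four]

theorem comp4_1 {C : Type} (F : Fin 4 → C → ℤ) (y : C) :
    comp4 F 1 y = F 0 y - F 1 y + F 2 y - F 3 y := by
  simp [comp4, chr, Fin.sum_univ_four]; ring

theorem comp4_2 {C : Type} (F : Fin 4 → C → ℤ) (y : C) :
    comp4 F 2 y = F 0 y + F 1 y - F 2 y - F 3 y := by
  simp [comp4, chr, Fin.sum_univ_four]; ring

theorem comp4_3 {C : Type} (F : Fin 4 → C → ℤ) (y : C) :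
    comp4 F 3 y = F 0 y - F 1 y - F 2 y + F 3 y := by
  simp [comp4, chr, Fin.sum_univ_four]; ring

/-- **Odd number of flips.** -/
theorem odd_flips (hp2 : p ≠ 2) {v : ℤ} (hv2 : ¬ (2 : ℤ) ∣ v) (hvp : ¬ (p : ℤ) ∣ v)
    (hkl : KLP p v) (F : Fin 4 → ZMod p → ℤ) (hodd : ∀ k y, ¬ (2 : ℤ) ∣ F k y)
    (hdvd : ∀ k y, (p : ℤ) ∣ F k y - F k 0)
    (hcor : ∀ κ d, ∑ y, comp4 F κ y * comp4 F κ (y + d) =
      if d = 0 then 4 * (p : ℤ) ^ 2 * v ^ 2 else 0) :
    Odd (univ.filter (fun κ => ¬ (p : ℤ) ∣ comp4 F κ 0)).card := by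
  classical
  have hp : p.Prime := Fact.out
  have hpZ : Prime (p : ℤ) := Nat.prime_iff_prime_int.1 hp
  have hp0 : (p : ℤ) ≠ 0 := hpZ.ne_zero
  have hpodd : (p : ℤ) % 2 = 1 := by
    have := hp.eq_one_or_self_of_dvd 2
    omega
  have hcop : IsCoprime (2 : ℤ) (p : ℤ) := by
    have : Nat.Coprime 2 p := (Nat.coprime_primes Nat.prime_two hp).2 (Ne.symm hp2)
    exact_mod_cast Nat.isCoprime_iff_coprime.2 this
  -- the elements `Y k`
  have h1 : ∀ k y, ∃ z, F k y = F k 0 + 2 * p * z := by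
    intro k y
    have h2 : (2 : ℤ) ∣ F k y - F k 0 := by
      have h3 := hodd k y
      have h4 := hodd k 0
      omega
    obtain ⟨z, hz⟩ := hcop.mul_dvd h2 (hdvd k y)
    exact ⟨z, by linarith⟩
  choose z hz using h1
  set Y : Fin 4 → L p := fun k => el p (z k) with hY
  set X : Fin 4 → L p := fun κ => el p (comp4 z κ) with hX
  have hX0 : X 0 = Y 0 + Y 1 + Y 2 + Y 3 := by
    ext g
    simp only [hX, hY, el_coeff, AddMonoidAlgebra.coeff_add, Finsupp.add_apply, comp4_0]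
  have hX1 : X 1 = Y 0 - Y 1 + Y 2 - Y 3 := by
    ext g
    simp only [hX, hY, el_coeff, AddMonoidAlgebra.coeff_add, AddMonoidAlgebra.coeff_sub,
      Finsupp.add_apply, Finsupp.sub_apply, comp4_1]
  have hX2 : X 2 = Y 0 + Y 1 - Y 2 - Y 3 := by
    ext g
    simp only [hX, hY, el_coeff, AddMonoidAlgebra.coeff_add, AddMonoidAlgebra.coeff_sub,
      Finsupp.add_apply, Finsupp.sub_apply, comp4_2]
  have hX3 : X 3 = Y 0 - Y 1 - Y 2 + Y 3 := by
    ext g
    simp only [hX, hY, el_coeff, AddMonoidAlgebra.coeff_add, AddMonoidAlgebra.coeff_sub,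
      Finsupp.add_apply, Finsupp.sub_apply, comp4_3]
  -- decomposition of the components
  have hdec : ∀ κ y, comp4 F κ y = comp4 F κ 0 + 2 * p * comp4 z κ y := by
    intro κ y
    simp only [comp4]
    rw [Finset.mul_sum, ← Finset.sum_add_distrib]
    refine Finset.sum_congr rfl fun k _ => ?_
    rw [hz k y]; ring
  have hel : ∀ κ, el p (comp4 F κ) = ((comp4 F κ 0 : ℤ) : L p) * J p +
      ((2 * p : ℤ) : L p) * X κ := by
    intro κ
    ext g
    rw [el_coeff, AddMonoidAlgebra.coeff_add, Finsupp.add_apply, intCast_mul_coeff,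
      intCast_mul_coeff, J_coeff, hX]
    simp only [el_coeff]
    rw [hdec κ g]; ring
  have hJ : J p ∈ I p 0 := Ideal.subset_span (by simp)
  have hXX : ∀ κ, X κ * sg p (-1) (X κ) - ((v ^ 2 : ℤ) : L p) ∈ I p 0 := by
    intro κ
    have h2 : el p (comp4 F κ) * sg p (-1) (el p (comp4 F κ)) =
        ((4 * (p : ℤ) ^ 2 * v ^ 2 : ℤ) : L p) := by
      rw [el_mul_star]
      ext g
      rw [el_coeff, hcor κ g, intCast_coeff]
    rw [hel κ, map_add, map_mul, map_mul, map_intCast, map_intCast,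
      sg_J p _ (neg_ne_zero.2 one_ne_zero)] at h2
    have h3 : ((4 * (p : ℤ) ^ 2 : ℤ) : L p) *
        (X κ * sg p (-1) (X κ) - ((v ^ 2 : ℤ) : L p)) ∈ I p 0 := by
      have e : ((4 * (p : ℤ) ^ 2 : ℤ) : L p) *
        (X κ * sg p (-1) (X κ) - ((v ^ 2 : ℤ) : L p)) =
        -(((comp4 F κ 0 : ℤ) : L p) * (((comp4 F κ 0 : ℤ) : L p) * J p +
          ((2 * p : ℤ) : L p) * sg p (-1) (X κ)) +
          ((2 * p : ℤ) : L p) * X κ * ((comp4 F κ 0 : ℤ) : L p)) * J p := by
        push_cast at h2 ⊢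
        linear_combination h2
      rw [e]
      exact Ideal.mul_mem_left _ _ hJ
    rw [mem_I] at h3 ⊢
    obtain ⟨m, hm⟩ := h3
    refine ⟨(X κ * sg p (-1) (X κ) - ((v ^ 2 : ℤ) : L p)).coeff 0, fun g => ?_⟩
    have h4 := hm g
    have h5 := hm 0
    rw [zero_dvd_iff, intCast_mul_coeff] at h4 h5
    rw [zero_dvd_iff]
    have h6 : (4 * (p : ℤ) ^ 2) ≠ 0 := mul_ne_zero (by norm_num) (pow_ne_zero 2 hp0)
    apply mul_left_cancel₀ h6
    linarith
  -- sums of the components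
  have hsum : ∀ κ, (∑ y, comp4 F κ y) ^ 2 = 4 * (p : ℤ) ^ 2 * v ^ 2 := by
    intro κ
    have h2 : ∑ d, ∑ y, comp4 F κ y * comp4 F κ (y + d) = (∑ y, comp4 F κ y) ^ 2 := by
      rw [Finset.sum_comm, sq, Finset.sum_mul]
      refine Finset.sum_congr rfl fun g _ => ?_
      rw [← Finset.mul_sum]
      congr 1
      exact Equiv.sum_comp (Equiv.addLeft g) (comp4 F κ)
    rw [← h2, Finset.sum_congr rfl fun d _ => hcor κ d, Finset.sum_ite_eq']
    simp
  have hs : ∀ κ, ∃ s : ℤ, (s = 1 ∨ s = -1) ∧ ∑ y, comp4 F κ y = 2 * p * v * s := by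
    intro κ
    have h2 : (∑ y, comp4 F κ y) ^ 2 = (2 * p * v) ^ 2 := by rw [hsum κ]; ring
    rcases sq_eq_sq_iff_eq_or_eq_neg.1 h2 with h | h
    · exact ⟨1, Or.inl rfl, by rw [h]; ring⟩
    · exact ⟨-1, Or.inr rfl, by rw [h]; ring⟩
  choose s hs1 hs2 using hs
  have hrel : ∀ κ, comp4 F κ 0 = 2 * (v * s κ - ∑ y, comp4 z κ y) := by
    intro κ
    have h2 := hs2 κ
    rw [Finset.sum_congr rfl fun y _ => hdec κ y, Finset.sum_add_distrib, ← Finset.mul_sum] at h2
    simp only [Finset.sum_const, Finset.card_univ, ZMod.card, nsmul_eq_mul] at h2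
    apply mul_left_cancel₀ hp0
    linear_combination h2
  have hε : ∀ κ, ∃ e : ℤ, (e = 1 ∨ e = -1) ∧ rho p (X κ) = ((e * v : ℤ) : ZMod p) := by
    intro κ
    have h2 := rho_mem_I p _ (hXX κ)
    rw [map_sub, map_mul, rho_sg, map_intCast] at h2
    have h3 : (rho p (X κ)) ^ 2 = ((v : ℤ) : ZMod p) ^ 2 := by
      push_cast at h2
      linear_combination h2
    rcases sq_eq_sq_iff_eq_or_eq_neg.1 h3 with h | h
    · exact ⟨1, Or.inl rfl, by rw [h]; push_cast; ring⟩
    · exact ⟨-1, Or.inr rfl, by rw [h]; push_cast; ring⟩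
  choose e he1 he2 using hε
  have hprod := hkl X Y hX0 hX1 hX2 hX3 hXX e he1 he2
  -- the product of the `s κ`
  have hS0 : ¬ (2 : ℤ) ∣ ∑ y, F 0 y := by
    intro h
    have h2 : (2 : ℤ) ∣ ∑ y : ZMod p, (F 0 y - 1) :=
      Finset.dvd_sum fun y _ => by have := hodd 0 y; omega
    rw [Finset.sum_sub_distrib] at h2
    simp only [Finset.sum_const, Finset.card_univ, ZMod.card, nsmul_eq_mul, mul_one] at h2
    omega
  have hsprod : (4 : ℤ) ∣ s 0 + s 1 + s 2 + s 3 - 2 := by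
    have h2 : ∑ y, comp4 F 0 y + ∑ y, comp4 F 1 y + ∑ y, comp4 F 2 y + ∑ y, comp4 F 3 y =
        4 * ∑ y, F 0 y := by
      rw [← Finset.sum_add_distrib, ← Finset.sum_add_distrib, ← Finset.sum_add_distrib,
        Finset.mul_sum]
      refine Finset.sum_congr rfl fun y _ => ?_
      rw [comp4_0, comp4_1, comp4_2, comp4_3]; ring
    rw [hs2, hs2, hs2, hs2] at h2
    have h3 : (p : ℤ) * v * (s 0 + s 1 + s 2 + s 3) = 2 * ∑ y, F 0 y := by linarith
    have h4 : ((p : ℤ) * v) % 2 = 1 := by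
      have : v % 2 = 1 := by omega
      rw [Int.mul_emod, hpodd, this]; rfl
    -- `s 0 + .. + s 3` is even
    have h5 : (2 : ℤ) ∣ s 0 + s 1 + s 2 + s 3 := by
      rcases hs1 0 with a | a <;> rcases hs1 1 with b | b <;> rcases hs1 2 with c | c <;>
        rcases hs1 3 with d | d <;> rw [a, b, c, d] <;> norm_num
    obtain ⟨t, ht⟩ := h5
    rw [ht] at h3 ⊢
    have h6 : (p : ℤ) * v * t = ∑ y, F 0 y := by linarith
    have h7 : ¬ (2 : ℤ) ∣ t := fun h => hS0 (by rw [← h6]; exact Dvd.dvd.mul_left h _)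
    omega
  -- characterisation of the flips
  have hflip : ∀ κ, (p : ℤ) ∣ comp4 F κ 0 ↔ s κ = e κ := by
    intro κ
    have h2 := he2 κ
    rw [hX] at h2
    simp only [rho_el] at h2
    rw [← sub_eq_zero, ← Int.cast_sub, ZMod.intCast_zmod_eq_zero_iff_dvd] at h2
    have h3 : comp4 F κ 0 = 2 * (v * (s κ - e κ)) - 2 * (∑ y, comp4 z κ y - e κ * v) := by
      rw [hrel κ]; ring
    constructor
    · intro h
      by_contra hne
      have h4 : (p : ℤ) ∣ 2 * (v * (s κ - e κ)) := by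
        have : 2 * (v * (s κ - e κ)) = comp4 F κ 0 + 2 * (∑ y, comp4 z κ y - e κ * v) := by
          rw [h3]; ring
        rw [this]
        exact dvd_add h (Dvd.dvd.mul_left h2 2)
      have h5 : ¬ (p : ℤ) ∣ 2 := by
        intro h6
        have := Int.le_of_dvd (by norm_num) h6
        have := hp.two_le
        omega
      rcases hpZ.dvd_or_dvd h4 with h6 | h6
      · exact h5 h6
      · rcases hpZ.dvd_or_dvd h6 with h7 | h7
        · exact hvp h7
        · rcases hs1 κ with a | a <;> rcases he1 κ with b | b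
          · exact hne (by rw [a, b])
          · rw [a, b] at h7; exact h5 (by norm_num at h7; exact h7)
          · rw [a, b] at h7
            have := dvd_neg.2 h7
            norm_num at this
            exact h5 this
          · exact hne (by rw [a, b])
    · intro h
      rw [h3, h, sub_self, mul_zero, mul_zero, zero_sub]
      exact dvd_neg.2 (Dvd.dvd.mul_left h2 2)
  have hfilter : univ.filter (fun κ => ¬ (p : ℤ) ∣ comp4 F κ 0) =
      univ.filter (fun κ => ¬ s κ = e κ) := by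
    ext κ
    simp only [Finset.mem_filter, Finset.mem_univ, true_and, hflip κ]
  rw [hfilter, Finset.card_filter, Fin.sum_univ_four]
  rcases hs1 0 with a | a <;> rcases hs1 1 with b | b <;> rcases hs1 2 with c | c <;>
    rcases hs1 3 with d | d <;> rw [a, b, c, d] at hsprod ⊢ <;>
    (try (exfalso; omega)) <;>
    rcases he1 0 with a' | a' <;> rcases he1 1 with b' | b' <;> rcases he1 2 with c' | c' <;>
    rcases he1 3 with d' | d' <;> rw [a', b', c', d'] at hprod ⊢ <;>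
    (try (exfalso; omega)) <;> norm_num [Nat.odd_iff]

end Kl

end Run7.h595
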