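import Mathlib
import Pool.Agent.Run7.h595.Red

set_option autoImplicit false
set_option linter.unusedSectionVars false

/-!
Reduction of integer-valued arrays with flat autocorrelation to level one.
-/

namespace Run7.h595

open Finset

/-- flat autocorrelation -/
def Cor {G : Type} [AddCommGroup G] [Fintype G] (f : G → ℤ) (N : ℤ) : Prop :=
  (∑ g, f g * f g = N) ∧ ∀ d, d ≠ 0 → ∑ g, f g * f (g + d) = 0

theorem Perf.cor {G : Type} [AddCommGroup G] [Fintype G] {A : G → ℤ} (hA : Perf A) :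
    Cor A (Fintype.card G) := ⟨hA.sum_sq, hA.2⟩

section
variable {G K : Type} [AddCommGroup G] [Fintype G] [AddCommGroup K] [Fintype K] [DecidableEq K]

theorem Cor.push {A : G → ℤ} {N : ℤ} (hA : Cor A N) (f : G →+ K) : Cor (push f A) N := by
  classical
  constructor
  · have h := push_corr f A 0
    simp only [add_zero] at h
    rw [h, Finset.sum_eq_single 0]
    · simp only [map_zero, if_true, add_zero]
      exact hA.1
    · intro d _ hd
      rw [hA.2 d hd]
      simp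
    · intro h; exact absurd (Finset.mem_univ _) h
  · intro e he
    rw [push_corr]
    refine Finset.sum_eq_zero fun d _ => ?_
    by_cases h : f d = e
    · rw [if_pos h]
      apply hA.2
      rintro rfl
      exact he (by rw [← h, map_zero])
    · rw [if_neg h]

theorem push_push {M : Type} [AddCommGroup M] [Fintype M] [DecidableEq M] (g : K →+ M)
    (f : G →+ K) (A : G → ℤ) (m : M) : push g (push f A) m = push (g.comp f) A m := by
  unfold push
  have h1 : ∀ k ∈ (univ : Finset K), (if g k = m then ∑ x, (if f x = k then A x else 0) else 0) =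
      ∑ x, (if f x = k then (if g k = m then A x else 0) else 0) := by
    intro k _
    by_cases h : g k = m
    · simp [h]
    · simp [h]
  rw [Finset.sum_congr rfl h1, Finset.sum_comm]
  refine Finset.sum_congr rfl fun x _ => ?_
  rw [Finset.sum_ite_eq]
  simp

/-- pushing along an injective map -/
theorem push_inj (f : G →+ K) (hf : Function.Injective f) (A : G → ℤ) (g : G) :
    push f A (f g) = A g := by
  classical
  unfold push
  rw [Finset.sum_eq_single g]
  · simp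
  · intro b _ hb
    rw [if_neg fun h => hb (hf h)]
  · intro h; exact absurd (Finset.mem_univ _) h

/-- parity of the image of an odd-valued function -/
theorem push_odd (f : G →+ K) (A : G → ℤ) (hA : ∀ g, ¬ (2 : ℤ) ∣ A g)
    (hc : ∀ k, ¬ 2 ∣ (univ.filter (fun g => f g = k)).card) (k : K) : ¬ (2 : ℤ) ∣ push f A k := by
  intro h
  rw [push_eq_filter] at h
  have h1 : (2 : ℤ) ∣ ∑ g ∈ univ.filter (fun g => f g = k), (A g - 1) :=
    Finset.dvd_sum fun g _ => by have := hA g; omega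
  rw [Finset.sum_sub_distrib] at h1
  have h2 : (2 : ℤ) ∣ ∑ g ∈ univ.filter (fun g => f g = k), (1 : ℤ) := by
    have := dvd_sub h h1
    rwa [sub_sub_cancel] at this
  simp only [Finset.sum_const, nsmul_eq_mul, mul_one] at h2
  exact hc k (by exact_mod_cast h2)

end

theorem Cor.comp {G K : Type} [AddCommGroup G] [Fintype G] [AddCommGroup K] [Fintype K]
    {A : G → ℤ} {N : ℤ} (hA : Cor A N) (e : K ≃+ G) : Cor (A ∘ e) N := by
  constructor
  · rw [← hA.1, ← Equiv.sum_comp e.toEquiv]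
    rfl
  · intro d hd
    have h := hA.2 (e d) (by simpa using hd)
    rw [← h, ← Equiv.sum_comp e.toEquiv]
    refine Finset.sum_congr rfl fun g _ => ?_
    simp

theorem Cor.smul {G : Type} [AddCommGroup G] [Fintype G] {A : G → ℤ} {N : ℤ} (hA : Cor A N)
    (c : ℤ) : Cor (fun g => c * A g) (c ^ 2 * N) := by
  constructor
  · rw [← hA.1, Finset.mul_sum]
    exact Finset.sum_congr rfl fun g _ => by ring
  · intro d hd
    have h := hA.2 d hd
    have e : ∑ g, c * A g * (c * A (g + d)) = c ^ 2 * ∑ g, A g * A (g + d) := by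
      rw [Finset.mul_sum]
      exact Finset.sum_congr rfl fun g _ => by ring
    rw [e, h, mul_zero]

theorem Cor.div {G : Type} [AddCommGroup G] [Fintype G] {A B : G → ℤ} {N c : ℤ} (hc : c ≠ 0)
    (hA : Cor A (c ^ 2 * N)) (hB : ∀ g, A g = c * B g) : Cor B N := by
  have hc2 : c ^ 2 ≠ 0 := pow_ne_zero 2 hc
  constructor
  · apply mul_left_cancel₀ hc2
    rw [← hA.1, Finset.mul_sum]
    exact Finset.sum_congr rfl fun g _ => by rw [hB g]; ring
  · intro d hd
    apply mul_left_cancel₀ hc2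
    rw [mul_zero, ← hA.2 d hd, Finset.mul_sum]
    exact Finset.sum_congr rfl fun g _ => by rw [hB g, hB (g + d)]; ring

namespace Lev

variable (p : ℕ) [Fact p.Prime] (i n : ℕ)

/-- the embedding of `ℤ/p^i` in `ℤ/p^(n+1)` -/
noncomputable def io : ZMod (p ^ i) →+ ZMod (p ^ (n + 1)) :=
  if h : i ≤ n + 1 then
    ZMod.lift (p ^ i) ⟨zmultiplesHom _ ((p ^ (n + 1 - i) : ℕ) : ZMod (p ^ (n + 1))), by
      rw [zmultiplesHom_apply, natCast_zsmul, nsmul_eq_mul, ← Nat.cast_mul, ← pow_add,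
        Nat.add_sub_cancel' h, ZMod.natCast_self]⟩
  else 0

theorem io_natCast (h : i ≤ n + 1) (k : ℕ) :
    io p i n (k : ZMod (p ^ i)) = ((k * p ^ (n + 1 - i) : ℕ) : ZMod (p ^ (n + 1))) := by
  rw [io, dif_pos h]
  have : ((k : ZMod (p ^ i))) = (((k : ℤ)) : ZMod (p ^ i)) := by push_cast; rfl
  rw [this, ZMod.lift_coe]
  rw [zmultiplesHom_apply, natCast_zsmul, nsmul_eq_mul, Nat.cast_mul]

theorem exists_c0 (h : i ≤ n + 1) (x : ZMod (p ^ i)) (hx : x ≠ 0) :
    ∃ c0 : ZMod (p ^ i), io p i n (c0 * x) = Red.tau p n := by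
  have hp : p.Prime := Fact.out
  have : NeZero (p ^ i) := ⟨pow_ne_zero _ hp.ne_zero⟩
  have hv0 : x.val ≠ 0 := by
    intro h
    exact hx ((ZMod.val_eq_zero x).1 h)
  obtain ⟨k, m, hm, hkm⟩ := Nat.exists_eq_pow_mul_and_not_dvd hv0 p hp.ne_one
  have hki : k < i := by
    by_contra hk
    apply hx
    rw [← ZMod.natCast_zmod_val x, ZMod.natCast_eq_zero_iff, hkm]
    exact Dvd.dvd.mul_right (pow_dvd_pow p (not_lt.1 hk)) m
  have hcop : Nat.Coprime m (p ^ i) :=
    Nat.Coprime.pow_right _ ((Nat.Prime.coprime_iff_not_dvd hp).2 hm).symm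
  obtain ⟨m', hm'⟩ : ∃ m' : ZMod (p ^ i), (m : ZMod (p ^ i)) * m' = 1 :=
    ⟨((ZMod.unitOfCoprime m hcop)⁻¹ : (ZMod (p ^ i))ˣ), by
      have h1 : ((ZMod.unitOfCoprime m hcop : (ZMod (p ^ i))ˣ) : ZMod (p ^ i)) = m :=
        ZMod.coe_unitOfCoprime m hcop
      rw [← h1]
      exact Units.mul_inv _⟩
  refine ⟨((p ^ (i - 1 - k) : ℕ) : ZMod (p ^ i)) * m', ?_⟩
  have h1 : ((p ^ (i - 1 - k) : ℕ) : ZMod (p ^ i)) * m' * x = ((p ^ (i - 1) : ℕ) : ZMod (p ^ i)) := by
    rw [← ZMod.natCast_zmod_val x, hkm]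
    have : p ^ (i - 1) = p ^ (i - 1 - k) * p ^ k := by rw [← pow_add]; congr 1; omega
    rw [this]
    push_cast
    linear_combination ((p : ZMod (p ^ i)) ^ (i - 1 - k) * (p : ZMod (p ^ i)) ^ k) * hm'
  rw [h1, io_natCast p i n h, Red.tau, ← pow_add]
  congr 2
  omega

/-- number of solutions -/
noncomputable def NN (Y : ZMod (p ^ (n + 1))) (X : ZMod (p ^ i)) : ℤ :=
  by
    classical
    have : NeZero (p ^ i) := ⟨pow_ne_zero _ (Fact.out : p.Prime).ne_zero⟩
    exact ∑ c : ZMod (p ^ i), if Y + io p i n (c * X) = 0 then 1 else 0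

instance : NeZero (p ^ i) := ⟨pow_ne_zero _ (Fact.out : p.Prime).ne_zero⟩

theorem NN_eq (Y : ZMod (p ^ (n + 1))) (X : ZMod (p ^ i)) :
    NN p i n Y X = ∑ c : ZMod (p ^ i), if Y + io p i n (c * X) = 0 then 1 else 0 := by
  rw [NN]

theorem NN_zero (Y : ZMod (p ^ (n + 1))) :
    NN p i n Y 0 = if Y = 0 then (p : ℤ) ^ i else 0 := by
  rw [NN_eq]
  have h : ∀ c ∈ (univ : Finset (ZMod (p ^ i))),
      (if Y + io p i n (c * 0) = 0 then (1 : ℤ) else 0) = if Y = 0 then 1 else 0 := by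
    intro c _
    rw [mul_zero, map_zero, add_zero]
  rw [Finset.sum_congr rfl h, Finset.sum_const, Finset.card_univ, ZMod.card]
  split_ifs <;> simp

theorem NN_inv (h : i ≤ n + 1) (Y : ZMod (p ^ (n + 1))) (X : ZMod (p ^ i)) (hX : X ≠ 0) :
    NN p i n (Y - Red.tau p n) X = NN p i n Y X := by
  obtain ⟨c0, hc0⟩ := exists_c0 p i n h X hX
  rw [NN_eq, NN_eq]
  rw [← Equiv.sum_comp (Equiv.addRight c0)]
  refine Finset.sum_congr rfl fun c _ => ?_
  have : Y - Red.tau p n + io p i n ((c + c0) * X) = Y + io p i n (c * X) := by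
    rw [add_mul, map_add, hc0]; ring
  exact if_congr (by rw [Equiv.coe_addRight, this]) rfl rfl

variable (H : Type) [AddCommGroup H]

/-- the functionals -/
noncomputable def fc (c : ZMod (p ^ i)) :
    H × (ZMod (p ^ i) × ZMod (p ^ (n + 1))) →+ H × ZMod (p ^ (n + 1)) :=
  AddMonoidHom.prodMap (AddMonoidHom.id H)
    (AddMonoidHom.coprod ((io p i n).comp (AddMonoidHom.mulLeft c)) (AddMonoidHom.id _))

theorem fc_apply (c : ZMod (p ^ i)) (h : H) (x : ZMod (p ^ i)) (y : ZMod (p ^ (n + 1))) :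
    fc p i n H c (h, (x, y)) = (h, io p i n (c * x) + y) := rfl

theorem weight [DecidableEq H] (hi : i ≤ n + 1) (h : H) (x : ZMod (p ^ i))
    (y : ZMod (p ^ (n + 1))) (g : H × (ZMod (p ^ i) × ZMod (p ^ (n + 1)))) :
    ∑ c, ((if fc p i n H c g = (h, io p i n (c * x) + y) then (1 : ℤ) else 0) -
      (if fc p i n H c g = (h, io p i n (c * x) + y + Red.tau p n) then (1 : ℤ) else 0)) =
    (p : ℤ) ^ i * ((if g = (h, (x, y)) then (1 : ℤ) else 0) -
      (if g = (h, (x, y + Red.tau p n)) then (1 : ℤ) else 0)) := by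
  obtain ⟨h', x', y'⟩ := g
  simp only [fc_apply, Prod.mk.injEq]
  by_cases hh : h' = h
  · simp only [hh, true_and]
    have e1 : ∀ c, (io p i n (c * x') + y' = io p i n (c * x) + y) =
        ((y' - y) + io p i n (c * (x' - x)) = 0) := by
      intro c
      rw [mul_sub, map_sub]
      apply propext
      constructor
      · intro h; linear_combination h
      · intro h; linear_combination h
    have e2 : ∀ c, (io p i n (c * x') + y' = io p i n (c * x) + y + Red.tau p n) =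
        ((y' - y - Red.tau p n) + io p i n (c * (x' - x)) = 0) := by
      intro c
      rw [mul_sub, map_sub]
      apply propext
      constructor
      · intro h; linear_combination h
      · intro h; linear_combination h
    simp only [e1, e2]
    rw [Finset.sum_sub_distrib, ← NN_eq, ← NN_eq]
    by_cases hr : x' - x = 0
    · have hr' : x' = x := sub_eq_zero.1 hr
      rw [hr, NN_zero, NN_zero]
      have e3 : (y' - y = 0) = (y' = y) := propext sub_eq_zero
      have e4 : (y' - y - Red.tau p n = 0) = (y' = y + Red.tau p n) := by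
        rw [sub_sub]; exact propext sub_eq_zero
      simp only [e3, e4, hr', true_and]
      split_ifs <;> ring
    · have hr' : ¬ x' = x := fun h => hr (sub_eq_zero.2 h)
      rw [NN_inv p i n hi _ _ hr]
      simp [hr']
  · simp [hh]

variable {p i n H}

/-- the differences along the socle of the larger factor -/
theorem diff_tau [Fintype H] [DecidableEq H] (hi : i ≤ n + 1)
    {F : H × (ZMod (p ^ i) × ZMod (p ^ (n + 1))) → ℤ} {N : ℤ} (hF : Cor F N) {α : ℕ}
    (hN : (p : ℤ) ^ (2 * α) ∣ N)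
    (j : ℕ) (hj0 : j ≠ 0) (hj : ∀ h : H, (p ^ j) • h = -h)
    (h : H) (x : ZMod (p ^ i)) (y : ZMod (p ^ (n + 1))) :
    (p : ℤ) ^ α ∣ (p : ℤ) ^ i * (F (h, (x, y)) - F (h, (x, y + Red.tau p n))) := by
  have e1 : ∑ c, (push (fc p i n H c) F (h, io p i n (c * x) + y) -
      push (fc p i n H c) F (h, io p i n (c * x) + y + Red.tau p n)) =
      (p : ℤ) ^ i * (F (h, (x, y)) - F (h, (x, y + Red.tau p n))) := by
    have e2 : ∀ c ∈ (univ : Finset (ZMod (p ^ i))),
        (push (fc p i n H c) F (h, io p i n (c * x) + y) -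
      push (fc p i n H c) F (h, io p i n (c * x) + y + Red.tau p n)) = ∑ g, F g *
        ((if fc p i n H c g = (h, io p i n (c * x) + y) then (1 : ℤ) else 0) -
      (if fc p i n H c g = (h, io p i n (c * x) + y + Red.tau p n) then (1 : ℤ) else 0)) := by
      intro c _
      rw [push, push, ← Finset.sum_sub_distrib]
      refine Finset.sum_congr rfl fun g _ => ?_
      split_ifs <;> ring
    rw [Finset.sum_congr rfl e2, Finset.sum_comm]
    have e3 : ∀ g ∈ (univ : Finset (H × (ZMod (p ^ i) × ZMod (p ^ (n + 1))))),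
        ∑ c, F g * ((if fc p i n H c g = (h, io p i n (c * x) + y) then (1 : ℤ) else 0) -
      (if fc p i n H c g = (h, io p i n (c * x) + y + Red.tau p n) then (1 : ℤ) else 0)) =
      (p : ℤ) ^ i * ((if g = (h, (x, y)) then F g else 0) -
      (if g = (h, (x, y + Red.tau p n)) then F g else 0)) := by
      intro g _
      rw [← Finset.mul_sum, weight p i n H hi]
      split_ifs <;> ring
    rw [Finset.sum_congr rfl e3, ← Finset.mul_sum, Finset.sum_sub_distrib,
      Finset.sum_ite_eq', Finset.sum_ite_eq']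
    simp
  rw [← e1]
  refine Finset.dvd_sum fun c _ => ?_
  have hc := hF.push (fc p i n H c)
  exact Div.dvd_diff p n H j hj0 hj (push (fc p i n H c) F) _ α hN hc.1 hc.2 h _

/-- multiples of the socle generator -/
theorem exists_smul_tau (z : ZMod (p ^ (n + 1))) (hz : Red.r p n z = 0) :
    ∃ k : ℕ, z = k • Red.tau p n := by
  rw [← ZMod.natCast_zmod_val z, Red.r_natCast, ZMod.natCast_eq_zero_iff] at hz
  obtain ⟨k, hk⟩ := hz
  refine ⟨k, ?_⟩
  conv_lhs => rw [← ZMod.natCast_zmod_val z, hk]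
  rw [Red.tau, nsmul_eq_mul, mul_comm]
  push_cast
  ring

/-- one step of the reduction, second factor -/
theorem step [Fintype H] [DecidableEq H] (hi : i ≤ n + 1)
    {F : H × (ZMod (p ^ i) × ZMod (p ^ (n + 1))) → ℤ} {N : ℤ} (hF : Cor F N) {α : ℕ}
    (hN : (p : ℤ) ^ (2 * α) ∣ N)
    (j : ℕ) (hj0 : j ≠ 0) (hj : ∀ h : H, (p ^ j) • h = -h)
    (h : H) (x : ZMod (p ^ i)) (y : ZMod (p ^ (n + 1))) :
    (p : ℤ) ^ α ∣ (p : ℤ) ^ i * (p * F (h, (x, y)) -
      push (AddMonoidHom.prodMap (AddMonoidHom.id H)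
        (AddMonoidHom.prodMap (AddMonoidHom.id (ZMod (p ^ i))) (Red.r p n))) F
        (h, (x, Red.r p n y))) := by
  classical
  have hp : p.Prime := Fact.out
  -- all points of the coset
  have h1 : ∀ y' : ZMod (p ^ (n + 1)), Red.r p n y' = Red.r p n y →
      (p : ℤ) ^ α ∣ (p : ℤ) ^ i * (F (h, (x, y)) - F (h, (x, y'))) := by
    intro y' hy'
    obtain ⟨k, hk⟩ := exists_smul_tau (y' - y) (by rw [map_sub, hy', sub_self])
    have h2 : ∀ k : ℕ, (p : ℤ) ^ α ∣ (p : ℤ) ^ i *
        (F (h, (x, y)) - F (h, (x, y + k • Red.tau p n))) := by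
      intro k
      induction k with
      | zero => simp
      | succ k ih =>
        have h3 := diff_tau hi hF hN j hj0 hj h x (y + k • Red.tau p n)
        rw [succ_nsmul, ← add_assoc]
        have h4 := dvd_add ih h3
        rw [← mul_add, sub_add_sub_cancel] at h4
        exact h4
    have h3 : y' = y + k • Red.tau p n := by rw [← hk]; ring
    rw [h3]
    exact h2 k
  have h2 : push (AddMonoidHom.prodMap (AddMonoidHom.id H)
        (AddMonoidHom.prodMap (AddMonoidHom.id (ZMod (p ^ i))) (Red.r p n))) F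
        (h, (x, Red.r p n y)) =
      ∑ y' ∈ univ.filter (fun y' => Red.r p n y' = Red.r p n y), F (h, (x, y')) := by
    unfold push
    rw [Fintype.sum_prod_type, Finset.sum_eq_single h]
    · rw [Fintype.sum_prod_type, Finset.sum_eq_single x]
      · rw [Finset.sum_filter]
        refine Finset.sum_congr rfl fun y' _ => ?_
        exact if_congr (by simp [Prod.ext_iff]) rfl rfl
      · intro x' _ hx'
        refine Finset.sum_eq_zero fun y' _ => ?_
        rw [if_neg]
        intro h0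
        exact hx' (Prod.ext_iff.1 (Prod.ext_iff.1 h0).2).1
      · intro h; exact absurd (Finset.mem_univ _) h
    · intro h' _ hh'
      refine Finset.sum_eq_zero fun z _ => ?_
      rw [if_neg]
      intro h0
      exact hh' (Prod.ext_iff.1 h0).1
    · intro h; exact absurd (Finset.mem_univ _) h
  have hcard : (univ.filter (fun y' => Red.r p n y' = Red.r p n y)).card = p := by
    have h3 := card_fiber (Red.r p n) (Red.r_surj p n) (Red.r p n y)
    rw [ZMod.card, ZMod.card] at h3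
    exact Nat.eq_of_mul_eq_mul_right (pow_pos hp.pos n) (h3.trans (pow_succ' p n))
  have h3 : (p : ℤ) * F (h, (x, y)) =
      ∑ y' ∈ univ.filter (fun y' => Red.r p n y' = Red.r p n y), F (h, (x, y)) := by
    rw [Finset.sum_const, hcard, nsmul_eq_mul]
  rw [h2, h3, ← Finset.sum_sub_distrib, Finset.mul_sum]
  refine Finset.dvd_sum fun y' hy' => ?_
  exact h1 y' (Finset.mem_filter.1 hy').2

variable (p H)

/-- reduction to level one -/
def R1 (a b : ℕ) : H × (ZMod (p ^ (a + 1)) × ZMod (p ^ (b + 1))) →+ H × (ZMod p × ZMod p) :=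
  AddMonoidHom.prodMap (AddMonoidHom.id H) (AddMonoidHom.prodMap (Red.cp p a) (Red.cp p b))

theorem R1_apply (a b : ℕ) (h : H) (x : ZMod (p ^ (a + 1))) (y : ZMod (p ^ (b + 1))) :
    R1 p H a b (h, (x, y)) = (h, (Red.cp p a x, Red.cp p b y)) := rfl

/-- the congruence satisfied by all arrays -/
def Sta [Fintype H] [DecidableEq H] (a b : ℕ) : Prop :=
  ∀ (F : H × (ZMod (p ^ (a + 1)) × ZMod (p ^ (b + 1))) → ℤ) (N : ℤ) (α : ℕ), Cor F N →
    (p : ℤ) ^ (2 * α) ∣ N → ∀ h x y,
    (p : ℤ) ^ (α + 1) ∣ (p : ℤ) ^ (a + b + 2) * F (h, (x, y)) -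
      (p : ℤ) ^ 2 * push (R1 p H a b) F (R1 p H a b (h, (x, y)))

theorem cp_zero_inj : Function.Injective (Red.cp p 0) := by
  have hp : p.Prime := Fact.out
  have h := Red.cp_surj p 0
  refine ((Fintype.bijective_iff_surjective_and_card _).2 ⟨h, ?_⟩).1
  rw [ZMod.card, ZMod.card, zero_add, pow_one]

theorem sta_zero [Fintype H] [DecidableEq H] : Sta p H 0 0 := by
  intro F N α _ _ h x y
  have hinj : Function.Injective (R1 p H 0 0) := by
    rintro ⟨h1, x1, y1⟩ ⟨h2, x2, y2⟩ he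
    rw [R1_apply, R1_apply] at he
    have e1 := (Prod.ext_iff.1 he).1
    have e2 := (Prod.ext_iff.1 (Prod.ext_iff.1 he).2).1
    have e3 := (Prod.ext_iff.1 (Prod.ext_iff.1 he).2).2
    exact Prod.ext e1 (Prod.ext (cp_zero_inj p e2) (cp_zero_inj p e3))
  rw [push_inj _ hinj]
  simp

theorem sta_swap [Fintype H] [DecidableEq H] (a b : ℕ) (hS : Sta p H a b) : Sta p H b a := by
  intro F N α hF hN h x y
  have e : H × (ZMod (p ^ (a + 1)) × ZMod (p ^ (b + 1))) ≃+
      H × (ZMod (p ^ (b + 1)) × ZMod (p ^ (a + 1))) :=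
    AddEquiv.prodCongr (AddEquiv.refl H) AddEquiv.prodComm
  have h1 := hS (F ∘ (AddEquiv.prodCongr (AddEquiv.refl H) AddEquiv.prodComm :
      H × (ZMod (p ^ (a + 1)) × ZMod (p ^ (b + 1))) ≃+
      H × (ZMod (p ^ (b + 1)) × ZMod (p ^ (a + 1))))) N α (hF.comp _) hN h y x
  have h2 : push (R1 p H a b) (F ∘ (AddEquiv.prodCongr (AddEquiv.refl H) AddEquiv.prodComm :
      H × (ZMod (p ^ (a + 1)) × ZMod (p ^ (b + 1))) ≃+
      H × (ZMod (p ^ (b + 1)) × ZMod (p ^ (a + 1))))) (R1 p H a b (h, (y, x))) =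
      push (R1 p H b a) F (R1 p H b a (h, (x, y))) := by
    unfold push
    rw [← Equiv.sum_comp (AddEquiv.prodCongr (AddEquiv.refl H) AddEquiv.prodComm :
      H × (ZMod (p ^ (a + 1)) × ZMod (p ^ (b + 1))) ≃+
      H × (ZMod (p ^ (b + 1)) × ZMod (p ^ (a + 1)))).toEquiv]
    refine Finset.sum_congr rfl fun g _ => ?_
    obtain ⟨h', x', y'⟩ := g
    have e3 : (R1 p H a b (h', (x', y')) = R1 p H a b (h, (y, x))) ↔
        (R1 p H b a (h', (y', x')) = R1 p H b a (h, (x, y))) := by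
      simp only [R1_apply, Prod.mk.injEq]
      tauto
    exact if_congr e3 rfl rfl
  rw [h2, add_comm a b] at h1
  exact h1

theorem cp_r (b : ℕ) (y : ZMod (p ^ (b + 1 + 1))) :
    Red.cp p b (Red.r p (b + 1) y) = Red.cp p (b + 1) y := by
  rw [← ZMod.natCast_zmod_val y, Red.r_natCast, Red.cp_natCast, Red.cp_natCast]

theorem sta_step [Fintype H] [DecidableEq H] (j : ℕ) (hj0 : j ≠ 0)
    (hj : ∀ h : H, (p ^ j) • h = -h) (a b : ℕ) (hab : a ≤ b + 1) (hS : Sta p H a b) :
    Sta p H a (b + 1) := by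
  intro F N α hF hN h x y
  have h1 := step (i := a + 1) (n := b + 1) (by omega) hF hN j hj0 hj h x y
  have h2 := hS _ N α (hF.push (AddMonoidHom.prodMap (AddMonoidHom.id H)
        (AddMonoidHom.prodMap (AddMonoidHom.id (ZMod (p ^ (a + 1)))) (Red.r p (b + 1))))) hN
        h x (Red.r p (b + 1) y)
  rw [push_push] at h2
  have e1 : (R1 p H a b).comp (AddMonoidHom.prodMap (AddMonoidHom.id H)
        (AddMonoidHom.prodMap (AddMonoidHom.id (ZMod (p ^ (a + 1)))) (Red.r p (b + 1)))) =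
        R1 p H a (b + 1) := by
    ext ⟨h', x', y'⟩
    · rfl
    · rfl
    · exact cp_r p b y'
  have e2 : R1 p H a b (h, (x, Red.r p (b + 1) y)) = R1 p H a (b + 1) (h, (x, y)) := by
    rw [R1_apply, R1_apply, cp_r]
  rw [e1, e2] at h2
  set F'' := push (AddMonoidHom.prodMap (AddMonoidHom.id H)
        (AddMonoidHom.prodMap (AddMonoidHom.id (ZMod (p ^ (a + 1)))) (Red.r p (b + 1)))) F
        (h, (x, Red.r p (b + 1) y)) with hF''
  have h3 : (p : ℤ) ^ (α + 1) ∣ (p : ℤ) ^ (b + 1) * ((p : ℤ) ^ (a + 1) *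
      (p * F (h, (x, y)) - F'')) := by
    rw [pow_succ', pow_succ' (p : ℤ) b, mul_assoc]
    exact mul_dvd_mul_left _ (Dvd.dvd.mul_left h1 _)
  have e3 : (p : ℤ) ^ (a + (b + 1) + 2) * F (h, (x, y)) -
      (p : ℤ) ^ 2 * push (R1 p H a (b + 1)) F (R1 p H a (b + 1) (h, (x, y))) =
      (p : ℤ) ^ (b + 1) * ((p : ℤ) ^ (a + 1) * (p * F (h, (x, y)) - F'')) +
      ((p : ℤ) ^ (a + b + 2) * F'' -
      (p : ℤ) ^ 2 * push (R1 p H a (b + 1)) F (R1 p H a (b + 1) (h, (x, y)))) := by
    ring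
  rw [e3]
  exact dvd_add h3 h2

/-- **Reduction to level one**, congruence form. -/
theorem sta_all [Fintype H] [DecidableEq H] (j : ℕ) (hj0 : j ≠ 0)
    (hj : ∀ h : H, (p ^ j) • h = -h) (m : ℕ) : ∀ a b, a + b = m → Sta p H a b := by
  induction m with
  | zero =>
    intro a b hab
    obtain rfl : a = 0 := by omega
    obtain rfl : b = 0 := by omega
    exact sta_zero p H
  | succ m ih =>
    intro a b hab
    by_cases h : a ≤ b
    · obtain ⟨b, rfl⟩ : ∃ b', b = b' + 1 := ⟨b - 1, by omega⟩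
      exact sta_step p H j hj0 hj a b (by omega) (ih a b (by omega))
    · obtain ⟨a, rfl⟩ : ∃ a', a = a' + 1 := ⟨a - 1, by omega⟩
      exact sta_swap p H b (a + 1) (sta_step p H j hj0 hj b a (by omega) (ih b a (by omega)))

variable {p H}

/-- **Reduction to level one**, rank two. -/
theorem level_one [Fintype H] [DecidableEq H] (j : ℕ) (hj0 : j ≠ 0)
    (hj : ∀ h : H, (p ^ j) • h = -h) {a b α : ℕ} (hab : a + b + 2 = 2 * α)
    {F : H × (ZMod (p ^ (a + 1)) × ZMod (p ^ (b + 1))) → ℤ} {N : ℤ} (hF : Cor F N)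
    (hN : (p : ℤ) ^ (2 * α) ∣ N) (k : H × (ZMod p × ZMod p)) :
    (p : ℤ) ^ (α - 1) ∣ push (R1 p H a b) F k := by
  have hp : p.Prime := Fact.out
  obtain ⟨h, x, y⟩ := k
  obtain ⟨x', rfl⟩ := Red.cp_surj p a x
  obtain ⟨y', rfl⟩ := Red.cp_surj p b y
  have h1 := sta_all p H j hj0 hj (a + b) a b rfl F N α hF hN h x' y'
  rw [hab] at h1
  have h2 : (p : ℤ) ^ (α + 1) ∣ (p : ℤ) ^ (2 * α) * F (h, (x', y')) :=
    Dvd.dvd.mul_right (pow_dvd_pow _ (by omega)) _
  have h3 := (dvd_sub_right h2).1 h1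
  have h4 : (p : ℤ) ^ (α + 1) = (p : ℤ) ^ 2 * (p : ℤ) ^ (α - 1) := by
    rw [← pow_add]; congr 1; omega
  rw [h4] at h3
  exact Int.dvd_of_mul_dvd_mul_left (pow_ne_zero 2 (by exact_mod_cast hp.ne_zero)) h3

variable (p H)

/-- reduction to level one, rank one -/
def R0 (b : ℕ) : H × (ZMod (p ^ 0) × ZMod (p ^ (b + 1))) →+ H × ZMod p :=
  AddMonoidHom.prodMap (AddMonoidHom.id H) ((Red.cp p b).comp (AddMonoidHom.snd _ _))

theorem R0_apply (b : ℕ) (h : H) (x : ZMod (p ^ 0)) (y : ZMod (p ^ (b + 1))) :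
    R0 p H b (h, (x, y)) = (h, Red.cp p b y) := rfl

instance sub0 : Subsingleton (ZMod (p ^ 0)) := by rw [pow_zero]; infer_instance

/-- **Reduction to level one**, rank one, congruence form -/
theorem sta1 [Fintype H] [DecidableEq H] (j : ℕ) (hj0 : j ≠ 0)
    (hj : ∀ h : H, (p ^ j) • h = -h) (b : ℕ) :
    ∀ (F : H × (ZMod (p ^ 0) × ZMod (p ^ (b + 1))) → ℤ) (N : ℤ) (α : ℕ), Cor F N →
    (p : ℤ) ^ (2 * α) ∣ N → ∀ h x y,
    (p : ℤ) ^ (α + 1) ∣ (p : ℤ) ^ (b + 1) * F (h, (x, y)) -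
      p * push (R0 p H b) F (R0 p H b (h, (x, y))) := by
  induction b with
  | zero =>
    intro F N α _ _ h x y
    have hinj : Function.Injective (R0 p H 0) := by
      rintro ⟨h1, x1, y1⟩ ⟨h2, x2, y2⟩ he
      rw [R0_apply, R0_apply] at he
      have e1 := (Prod.ext_iff.1 he).1
      have e3 := (Prod.ext_iff.1 he).2
      exact Prod.ext e1 (Prod.ext (Subsingleton.elim _ _) (cp_zero_inj p e3))
    rw [push_inj _ hinj]
    simp
  | succ b ih =>
    intro F N α hF hN h x y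
    have h1 := step (i := 0) (n := b + 1) (by omega) hF hN j hj0 hj h x y
    have h2 := ih _ N α (hF.push (AddMonoidHom.prodMap (AddMonoidHom.id H)
        (AddMonoidHom.prodMap (AddMonoidHom.id (ZMod (p ^ 0))) (Red.r p (b + 1))))) hN
        h x (Red.r p (b + 1) y)
    rw [push_push] at h2
    have e1 : (R0 p H b).comp (AddMonoidHom.prodMap (AddMonoidHom.id H)
        (AddMonoidHom.prodMap (AddMonoidHom.id (ZMod (p ^ 0))) (Red.r p (b + 1)))) =
        R0 p H (b + 1) := by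
      ext ⟨h', x', y'⟩
      · rfl
      · exact cp_r p b y'
    have e2 : R0 p H b (h, (x, Red.r p (b + 1) y)) = R0 p H (b + 1) (h, (x, y)) := by
      rw [R0_apply, R0_apply, cp_r]
    rw [e1, e2] at h2
    set F'' := push (AddMonoidHom.prodMap (AddMonoidHom.id H)
        (AddMonoidHom.prodMap (AddMonoidHom.id (ZMod (p ^ 0))) (Red.r p (b + 1)))) F
        (h, (x, Red.r p (b + 1) y)) with hF''
    rw [pow_zero, one_mul] at h1
    have h3 : (p : ℤ) ^ (α + 1) ∣ (p : ℤ) ^ (b + 1) * (p * F (h, (x, y)) - F'') := by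
      rw [pow_succ', pow_succ' (p : ℤ) b, mul_assoc]
      exact mul_dvd_mul_left _ (Dvd.dvd.mul_left h1 _)
    have e3 : (p : ℤ) ^ (b + 1 + 1) * F (h, (x, y)) -
        p * push (R0 p H (b + 1)) F (R0 p H (b + 1) (h, (x, y))) =
        (p : ℤ) ^ (b + 1) * (p * F (h, (x, y)) - F'') +
        ((p : ℤ) ^ (b + 1) * F'' -
        p * push (R0 p H (b + 1)) F (R0 p H (b + 1) (h, (x, y)))) := by
      ring
    rw [e3]
    exact dvd_add h3 h2

variable {p H}

theorem level_one' [Fintype H] [DecidableEq H] (j : ℕ) (hj0 : j ≠ 0)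
    (hj : ∀ h : H, (p ^ j) • h = -h) {b α : ℕ} (hab : b + 1 = 2 * α)
    {F : H × (ZMod (p ^ 0) × ZMod (p ^ (b + 1))) → ℤ} {N : ℤ} (hF : Cor F N)
    (hN : (p : ℤ) ^ (2 * α) ∣ N) (k : H × ZMod p) :
    (p : ℤ) ^ α ∣ push (R0 p H b) F k := by
  have hp : p.Prime := Fact.out
  obtain ⟨h, y⟩ := k
  obtain ⟨y', rfl⟩ := Red.cp_surj p b y
  have h1 := sta1 p H j hj0 hj b F N α hF hN h 0 y'
  have h2 : (p : ℤ) ^ (α + 1) ∣ (p : ℤ) ^ (b + 1) * F (h, (0, y')) :=
    Dvd.dvd.mul_right (pow_dvd_pow _ (by omega)) _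
  have h3 := (dvd_sub_right h2).1 h1
  rw [pow_succ'] at h3
  exact Int.dvd_of_mul_dvd_mul_left (by exact_mod_cast hp.ne_zero) h3

/-- differences on `H × ℤ/p` -/
theorem diff_p [Fintype H] [DecidableEq H] (j : ℕ) (hj0 : j ≠ 0)
    (hj : ∀ h : H, (p ^ j) • h = -h) {α : ℕ} {F : H × ZMod p → ℤ} {N : ℤ} (hF : Cor F N)
    (hN : (p : ℤ) ^ (2 * α) ∣ N) (h : H) (y : ZMod p) :
    (p : ℤ) ^ α ∣ F (h, y) - F (h, 0) := by
  have hp : p.Prime := Fact.out
  have hb : Function.Bijective (Red.cp p 0) := ⟨cp_zero_inj p, Red.cp_surj p 0⟩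
  set e : ZMod (p ^ (0 + 1)) ≃+ ZMod p := AddEquiv.ofBijective (Red.cp p 0) hb with he
  have hF' := hF.comp (AddEquiv.prodCongr (AddEquiv.refl H) e)
  have h1 := Div.dvd_diff p 0 H j hj0 hj _ N α hN hF'.1 hF'.2 h
  have h2 : ∀ k : ℕ, (p : ℤ) ^ α ∣ F (h, (k : ZMod p)) - F (h, 0) := by
    intro k
    induction k with
    | zero => simp
    | succ k ih =>
      have h3 := h1 (k : ZMod (p ^ (0 + 1)))
      have e1 : (F ∘ (AddEquiv.prodCongr (AddEquiv.refl H) e)) (h, (k : ZMod (p ^ (0 + 1)))) =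
          F (h, (k : ZMod p)) := by
        change F (h, Red.cp p 0 (k : ZMod (p ^ (0 + 1)))) = _
        rw [Red.cp_natCast]
      have e2 : (F ∘ (AddEquiv.prodCongr (AddEquiv.refl H) e))
          (h, (k : ZMod (p ^ (0 + 1))) + ((p ^ 0 : ℕ) : ZMod (p ^ (0 + 1)))) =
          F (h, ((k + 1 : ℕ) : ZMod p)) := by
        change F (h, Red.cp p 0 ((k : ZMod (p ^ (0 + 1))) + ((p ^ 0 : ℕ) : ZMod (p ^ (0 + 1))))) = _
        rw [map_add, Red.cp_natCast, Red.cp_natCast, pow_zero]
        push_cast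
        rfl
      rw [e1, e2] at h3
      have h4 := dvd_sub ih h3
      have h5 : F (h, (k : ZMod p)) - F (h, 0) - (F (h, (k : ZMod p)) -
          F (h, ((k + 1 : ℕ) : ZMod p))) = F (h, ((k + 1 : ℕ) : ZMod p)) - F (h, 0) := by ring
      rwa [h5] at h4
  have := h2 y.val
  rwa [ZMod.natCast_zmod_val] at this

end Lev

end Run7.h595
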