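import Mathlib
import Pool.Agent.Run7.h595.Lev
import Pool.Agent.Run7.h595.Flip

set_option autoImplicit false
set_option linter.unusedSectionVars false

/-!
Counting the sign changes over the `p + 1` directions.
-/

namespace Run7.h595

open Finset

namespace Dir

/-- the group of order four and exponent two -/
abbrev K4 := ZMod 2 × ZMod 2

/-- its elements -/
def idx : Fin 4 → K4 := ![(0, 0), (0, 1), (1, 0), (1, 1)]

/-- a function on `K4 × C` as four functions on `C` -/
def f4 {C : Type} (F : K4 × C → ℤ) : Fin 4 → C → ℤ := fun k y => F (idx k, y)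

theorem sum_K4 (f : K4 → ℤ) : ∑ k, f k = f (0, 0) + f (0, 1) + f (1, 0) + f (1, 1) := by
  have h : (univ : Finset K4) = {(0, 0), (0, 1), (1, 0), (1, 1)} := by decide
  rw [h, Finset.sum_insert (by decide), Finset.sum_insert (by decide),
    Finset.sum_insert (by decide), Finset.sum_singleton]
  ring

theorem neg_K4 (h : K4) (j : ℕ) (p : ℕ) (hp : ¬ 2 ∣ p) : (p ^ j) • h = -h := by
  obtain ⟨a, b⟩ := h
  have h1 : ∀ a : ZMod 2, (p ^ j) • a = -a := by
    intro a
    have h2 : ((p ^ j : ℕ) : ZMod 2) = 1 := by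
      have h3 : p ^ j % 2 = 1 := by
        rw [Nat.pow_mod, (by omega : p % 2 = 1), one_pow]
        rfl
      rw [← Nat.mod_add_div (p ^ j) 2, h3]
      push_cast
      have : (2 : ZMod 2) = 0 := rfl
      rw [this]; ring
    rw [nsmul_eq_mul, h2, one_mul]
    revert a; decide
  exact Prod.ext (h1 a) (h1 b)

theorem cor_comp4 {C : Type} [AddCommGroup C] [Fintype C] [DecidableEq C] {F : K4 × C → ℤ} {N : ℤ}
    (hF : Cor F N) (κ : Fin 4) (d : C) :
    ∑ y, Kl.comp4 (f4 F) κ y * Kl.comp4 (f4 F) κ (y + d) = if d = 0 then N else 0 := by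
  have e : ∀ h : K4, ∑ g, F g * F (g + (h, d)) = if h = 0 ∧ d = 0 then N else 0 := by
    intro h
    by_cases h0 : h = 0 ∧ d = 0
    · rw [if_pos h0, h0.1, h0.2]
      have h1 : ((0 : K4), (0 : C)) = 0 := rfl
      rw [h1]
      simp only [add_zero]
      exact hF.1
    · rw [if_neg h0]
      apply hF.2
      intro h1
      exact h0 ⟨(Prod.ext_iff.1 h1).1, (Prod.ext_iff.1 h1).2⟩
  have e0 := e (0, 0)
  have e1 := e (0, 1)
  have e2 := e (1, 0)
  have e3 := e (1, 1)
  rw [Fintype.sum_prod_type, sum_K4, ← Finset.sum_add_distrib, ← Finset.sum_add_distrib,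
    ← Finset.sum_add_distrib] at e0 e1 e2 e3
  simp only [Prod.mk_add_mk] at e0 e1 e2 e3
  have a00 : ((0 : ZMod 2) + 0) = 0 := rfl
  have a01 : ((0 : ZMod 2) + 1) = 1 := rfl
  have a10 : ((1 : ZMod 2) + 0) = 1 := rfl
  have a11 : ((1 : ZMod 2) + 1) = 0 := rfl
  simp only [a00, a01, a10, a11] at e0 e1 e2 e3
  rw [if_neg (by rintro ⟨h, _⟩; exact absurd h (by decide))] at e1 e2 e3
  have e0' : (if ((0, 0) : K4) = 0 ∧ d = 0 then N else 0) = if d = 0 then N else 0 :=
    if_congr (by constructor; exact fun h => h.2; exact fun h => ⟨rfl, h⟩) rfl rfl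
  rw [e0'] at e0
  set S0 := ∑ y, (F ((0, 0), y) * F ((0, 0), y + d) + F ((0, 1), y) * F ((0, 1), y + d) +
      F ((1, 0), y) * F ((1, 0), y + d) + F ((1, 1), y) * F ((1, 1), y + d)) with hS0
  set S1 := ∑ y, (F ((0, 0), y) * F ((0, 1), y + d) + F ((0, 1), y) * F ((0, 0), y + d) +
      F ((1, 0), y) * F ((1, 1), y + d) + F ((1, 1), y) * F ((1, 0), y + d)) with hS1
  set S2 := ∑ y, (F ((0, 0), y) * F ((1, 0), y + d) + F ((0, 1), y) * F ((1, 1), y + d) +
      F ((1, 0), y) * F ((0, 0), y + d) + F ((1, 1), y) * F ((0, 1), y + d)) with hS2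
  set S3 := ∑ y, (F ((0, 0), y) * F ((1, 1), y + d) + F ((0, 1), y) * F ((1, 0), y + d) +
      F ((1, 0), y) * F ((0, 1), y + d) + F ((1, 1), y) * F ((0, 0), y + d)) with hS3
  have i0 : ∀ y, f4 F 0 y = F ((0, 0), y) := fun _ => rfl
  have i1 : ∀ y, f4 F 1 y = F ((0, 1), y) := fun _ => rfl
  have i2 : ∀ y, f4 F 2 y = F ((1, 0), y) := fun _ => rfl
  have i3 : ∀ y, f4 F 3 y = F ((1, 1), y) := fun _ => rfl
  have key : ∃ c1 c2 c3 : ℤ, ∑ y, Kl.comp4 (f4 F) κ y * Kl.comp4 (f4 F) κ (y + d) =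
      S0 + c1 * S1 + c2 * S2 + c3 * S3 := by
    fin_cases κ
    · refine ⟨1, 1, 1, ?_⟩
      rw [hS0, hS1, hS2, hS3, Finset.mul_sum, Finset.mul_sum, Finset.mul_sum,
        ← Finset.sum_add_distrib, ← Finset.sum_add_distrib, ← Finset.sum_add_distrib]
      refine Finset.sum_congr rfl fun y _ => ?_
      change Kl.comp4 (f4 F) 0 y * Kl.comp4 (f4 F) 0 (y + d) = _
      rw [Kl.comp4_0, Kl.comp4_0, i0, i1, i2, i3, i0, i1, i2, i3]
      ring
    · refine ⟨-1, 1, -1, ?_⟩
      rw [hS0, hS1, hS2, hS3, Finset.mul_sum, Finset.mul_sum, Finset.mul_sum,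
        ← Finset.sum_add_distrib, ← Finset.sum_add_distrib, ← Finset.sum_add_distrib]
      refine Finset.sum_congr rfl fun y _ => ?_
      change Kl.comp4 (f4 F) 1 y * Kl.comp4 (f4 F) 1 (y + d) = _
      rw [Kl.comp4_1, Kl.comp4_1, i0, i1, i2, i3, i0, i1, i2, i3]
      ring
    · refine ⟨1, -1, -1, ?_⟩
      rw [hS0, hS1, hS2, hS3, Finset.mul_sum, Finset.mul_sum, Finset.mul_sum,
        ← Finset.sum_add_distrib, ← Finset.sum_add_distrib, ← Finset.sum_add_distrib]
      refine Finset.sum_congr rfl fun y _ => ?_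
      change Kl.comp4 (f4 F) 2 y * Kl.comp4 (f4 F) 2 (y + d) = _
      rw [Kl.comp4_2, Kl.comp4_2, i0, i1, i2, i3, i0, i1, i2, i3]
      ring
    · refine ⟨-1, -1, 1, ?_⟩
      rw [hS0, hS1, hS2, hS3, Finset.mul_sum, Finset.mul_sum, Finset.mul_sum,
        ← Finset.sum_add_distrib, ← Finset.sum_add_distrib, ← Finset.sum_add_distrib]
      refine Finset.sum_congr rfl fun y _ => ?_
      change Kl.comp4 (f4 F) 3 y * Kl.comp4 (f4 F) 3 (y + d) = _
      rw [Kl.comp4_3, Kl.comp4_3, i0, i1, i2, i3, i0, i1, i2, i3]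
      ring
  obtain ⟨c1, c2, c3, hk⟩ := key
  rw [hk, e0, e1, e2, e3]
  ring

variable {p : ℕ} [Fact p.Prime]

/-- the value at a point is `0` or `2 σ` modulo `p` -/
theorem val_mod {f : ZMod p → ℤ} {N σ : ℤ} (hdvd : ∀ y, (p : ℤ) ∣ f y - f 0)
    (hsum : ∑ y, f y = p * σ) (hcor : ∀ d : ZMod p, ∑ y, f y * f (y + d) = if d = 0 then N else 0) :
    (p : ℤ) ∣ f 0 * (2 * σ - f 0) := by
  have hp : p.Prime := Fact.out
  have hp0 : (p : ℤ) ≠ 0 := by exact_mod_cast hp.ne_zero
  choose z hz using hdvd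
  have hf : ∀ y, f y = f 0 + p * z y := fun y => by linarith [hz y]
  have h1 : ∑ y, z y = σ - f 0 := by
    apply mul_left_cancel₀ hp0
    rw [mul_sub, ← hsum, Finset.mul_sum, Finset.sum_congr rfl fun y _ => hf y,
      Finset.sum_add_distrib]
    simp only [Finset.sum_const, Finset.card_univ, ZMod.card, nsmul_eq_mul]
    ring
  have h2 : ∑ y, z (y + 1) = σ - f 0 := by
    rw [← h1]
    exact Equiv.sum_comp (Equiv.addRight (1 : ZMod p)) z
  have h3 := hcor 1
  rw [if_neg one_ne_zero] at h3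
  have h4 : ∑ y, f y * f (y + 1) = p * f 0 ^ 2 + p * f 0 * ∑ y, z y + p * f 0 * ∑ y, z (y + 1) +
      p ^ 2 * ∑ y, z y * z (y + 1) := by
    rw [Finset.mul_sum, Finset.mul_sum, Finset.mul_sum]
    have : (p : ℤ) * f 0 ^ 2 = ∑ _y : ZMod p, f 0 ^ 2 := by
      simp [ZMod.card]
    rw [this, ← Finset.sum_add_distrib, ← Finset.sum_add_distrib, ← Finset.sum_add_distrib]
    refine Finset.sum_congr rfl fun y _ => ?_
    rw [hf y, hf (y + 1)]
    ring
  rw [h4, h1, h2] at h3
  refine ⟨-(∑ y, z y * z (y + 1)), ?_⟩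
  apply mul_left_cancel₀ hp0
  linear_combination h3

/-- the directions -/
def dir : Option (ZMod p) → (ZMod p × ZMod p →+ ZMod p)
  | none => AddMonoidHom.snd _ _
  | some m => AddMonoidHom.coprod (AddMonoidHom.id _) (AddMonoidHom.mulLeft m)

theorem dir_none (x y : ZMod p) : dir none (x, y) = y := rfl

theorem dir_some (m x y : ZMod p) : dir (some m) (x, y) = x + m * y := rfl

theorem dir_surj (δ : Option (ZMod p)) : Function.Surjective (dir δ) := by
  intro z
  cases δ with
  | none => exact ⟨(0, z), rfl⟩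
  | some m => exact ⟨(z, 0), by rw [dir_some]; ring⟩

/-- the number of directions vanishing at a point -/
theorem dir_count (z : ZMod p × ZMod p) :
    ∑ δ : Option (ZMod p), (if dir δ z = 0 then (1 : ℤ) else 0) = 1 + if z = 0 then (p : ℤ) else 0 := by
  obtain ⟨x, y⟩ := z
  rw [Fintype.sum_option]
  have e1 : (if dir none (x, y) = 0 then (1 : ℤ) else 0) = if y = 0 then 1 else 0 :=
    if_congr Iff.rfl rfl rfl
  have e2 : ∀ m ∈ (univ : Finset (ZMod p)), (if dir (some m) (x, y) = 0 then (1 : ℤ) else 0) =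
      if x + m * y = 0 then 1 else 0 := fun m _ => if_congr Iff.rfl rfl rfl
  have e3 : (if (x, y) = (0 : ZMod p × ZMod p) then (p : ℤ) else 0) =
      if x = 0 ∧ y = 0 then (p : ℤ) else 0 := if_congr (by simp) rfl rfl
  rw [e1, Finset.sum_congr rfl e2, e3]
  by_cases hy : y = 0
  · subst hy
    by_cases hx : x = 0
    · subst hx
      simp [ZMod.card]
    · simp [hx]
  · rw [if_neg hy, if_neg (by intro h; exact hy h.2), zero_add, add_zero]
    rw [Finset.sum_eq_single (-x / y)]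
    · rw [if_pos]
      field_simp
      ring
    · intro m _ hm
      rw [if_neg]
      intro h
      apply hm
      rw [eq_div_iff hy]
      linear_combination h
    · intro h; exact absurd (Finset.mem_univ _) h

variable {H : Type} [AddCommGroup H] [Fintype H] [DecidableEq H]

/-- push along a direction -/
def pd (δ : Option (ZMod p)) : H × (ZMod p × ZMod p) →+ H × ZMod p :=
  AddMonoidHom.prodMap (AddMonoidHom.id H) (dir δ)

theorem pd_surj (δ : Option (ZMod p)) : Function.Surjective (pd (H := H) δ) := by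
  rintro ⟨h, z⟩
  obtain ⟨w, hw⟩ := dir_surj δ z
  exact ⟨(h, w), Prod.ext rfl hw⟩

/-- the sum over all directions -/
theorem sum_dir (F : H × (ZMod p × ZMod p) → ℤ) (h : H) :
    ∑ δ : Option (ZMod p), push (pd δ) F (h, 0) = p * F (h, 0) + ∑ z, F (h, z) := by
  have h1 : ∀ δ : Option (ZMod p), push (pd δ) F (h, 0) =
      ∑ z, F (h, z) * (if dir δ z = 0 then 1 else 0) := by
    intro δ
    unfold push
    rw [Fintype.sum_prod_type, Finset.sum_eq_single h]
    · refine Finset.sum_congr rfl fun z _ => ?_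
      rw [mul_ite, mul_one, mul_zero]
      refine if_congr ?_ rfl rfl
      change ((h, dir δ z) = (h, 0)) ↔ _
      simp
    · intro h' _ hh'
      refine Finset.sum_eq_zero fun z _ => ?_
      rw [if_neg]
      intro h0
      exact hh' (Prod.ext_iff.1 h0).1
    · intro h; exact absurd (Finset.mem_univ _) h
  rw [Finset.sum_congr rfl fun δ _ => h1 δ, Finset.sum_comm]
  simp only [← Finset.mul_sum, dir_count]
  simp only [mul_add, mul_one, mul_ite, mul_zero]
  rw [Finset.sum_add_distrib, Finset.sum_ite_eq']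
  simp only [Finset.mem_univ, if_true]
  ring

/-- combinatorial contradiction -/
theorem comb (hp5 : 5 ≤ p) (I : Fin 4 → Option (ZMod p) → Prop)
    (h1 : ∀ δ, Odd (Nat.card {κ // I κ δ})) (h2 : ∀ κ, p ∣ Nat.card {δ // I κ δ}) : False := by
  classical
  have hp : p.Prime := Fact.out
  simp only [Nat.card_eq_fintype_card, Fintype.card_subtype] at h1 h2
  set a : Option (ZMod p) → ℕ := fun δ => (univ.filter (fun κ => I κ δ)).card with ha
  set n : Fin 4 → ℕ := fun κ => (univ.filter (fun δ => I κ δ)).card with hn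
  have hcard : Fintype.card (Option (ZMod p)) = p + 1 := by
    rw [Fintype.card_option, ZMod.card]
  have hnle : ∀ κ, n κ ≤ p + 1 := by
    intro κ
    rw [← hcard]
    exact Finset.card_le_univ _
  have hn0 : ∀ κ, n κ ≠ 0 → n κ = p := by
    intro κ h0
    obtain ⟨c, hc⟩ : p ∣ n κ := h2 κ
    have h3 := hnle κ
    rw [hc] at h3 h0 ⊢
    have : c = 1 := by
      rcases Nat.lt_or_ge c 1 with h | h
      · exfalso
        have : c = 0 := by omega
        rw [this] at h0
        exact h0 (by ring)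
      · by_contra hne
        have : 2 ≤ c := by omega
        nlinarith
    rw [this, mul_one]
  set B := univ.filter (fun κ => n κ ≠ 0) with hB
  have hsum : ∑ δ, a δ = p * B.card := by
    have e1 : ∑ δ, a δ = ∑ κ, n κ := by
      simp only [ha, hn, Finset.card_filter]
      exact Finset.sum_comm
    have e2 : ∀ κ ∈ (univ : Finset (Fin 4)), n κ = if n κ ≠ 0 then p else 0 := by
      intro κ _
      by_cases h : n κ = 0
      · simp [h]
      · rw [if_pos h, hn0 κ h]
    rw [e1, Finset.sum_congr rfl e2, ← Finset.sum_filter, Finset.sum_const, smul_eq_mul, mul_comm]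
  have heven : 2 ∣ B.card := by
    have h3 : (∑ δ, a δ) % 2 = 0 := by
      have e1 : ∀ δ ∈ (univ : Finset (Option (ZMod p))), a δ % 2 = 1 :=
        fun δ _ => Nat.odd_iff.1 (h1 δ)
      rw [Finset.sum_nat_mod, Finset.sum_congr rfl e1, Finset.sum_const, Finset.card_univ, hcard]
      have := hp.eq_one_or_self_of_dvd 2
      simp only [smul_eq_mul, mul_one]
      omega
    rw [hsum] at h3
    have h4 : 2 ∣ p * B.card := Nat.dvd_of_mod_eq_zero h3
    rcases (Nat.Prime.dvd_mul Nat.prime_two).1 h4 with h | h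
    · exfalso
      have := (Nat.prime_dvd_prime_iff_eq Nat.prime_two hp).1 h
      omega
    · exact h
  have hB4 : B.card ≤ 4 := by
    have := Finset.card_le_univ B
    rwa [Fintype.card_fin] at this
  obtain ⟨δ0, hδ0⟩ : ∃ δ0, ∀ κ ∈ B, I κ δ0 := by
    by_contra hcon
    push Not at hcon
    have h3 : (univ : Finset (Option (ZMod p))) ⊆
        B.biUnion (fun κ => univ.filter (fun δ => ¬ I κ δ)) := by
      intro δ _
      obtain ⟨κ, hκ, hI⟩ := hcon δ
      exact Finset.mem_biUnion.2 ⟨κ, hκ, Finset.mem_filter.2 ⟨Finset.mem_univ _, hI⟩⟩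
    have h4 := Finset.card_le_card h3
    rw [Finset.card_univ, hcard] at h4
    have h5 : (B.biUnion (fun κ => univ.filter (fun δ => ¬ I κ δ))).card ≤ B.card * 1 := by
      apply Finset.card_biUnion_le_card_mul
      intro κ hκ
      have h6 : n κ = p := hn0 κ (Finset.mem_filter.1 hκ).2
      have h7 := Finset.card_filter_add_card_filter_not
        (s := (univ : Finset (Option (ZMod p)))) (fun δ => I κ δ)
      rw [Finset.card_univ, hcard] at h7
      have h8 : (univ.filter (fun δ => I κ δ)).card = p := h6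
      omega
    omega
  have h3 : univ.filter (fun κ => I κ δ0) = B := by
    ext κ
    simp only [hB, Finset.mem_filter, Finset.mem_univ, true_and]
    constructor
    · intro h h0
      have : univ.filter (fun δ => I κ δ) = ∅ := Finset.card_eq_zero.1 h0
      have h4 : δ0 ∈ univ.filter (fun δ => I κ δ) :=
        Finset.mem_filter.2 ⟨Finset.mem_univ _, h⟩
      rw [this] at h4
      exact absurd h4 (Finset.notMem_empty _)
    · intro h
      exact hδ0 κ (Finset.mem_filter.2 ⟨Finset.mem_univ _, h⟩)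
  have h4 := h1 δ0
  rw [h3, Nat.odd_iff] at h4
  omega

/-- **Rank two.** -/
theorem rank_two (hp5 : 5 ≤ p) {v : ℤ} (hv2 : ¬ (2 : ℤ) ∣ v) (hvp : ¬ (p : ℤ) ∣ v)
    (hkl : Kl.KLP p v) (F : K4 × (ZMod p × ZMod p) → ℤ) (hodd : ∀ g, ¬ (2 : ℤ) ∣ F g)
    (hF : Cor F (4 * (p : ℤ) ^ 2 * v ^ 2)) : False := by
  classical
  have hp : p.Prime := Fact.out
  have hp2 : p ≠ 2 := by omega
  have hpZ : Prime (p : ℤ) := Nat.prime_iff_prime_int.1 hp
  have hpodd : ¬ 2 ∣ p := fun h => hp2 ((Nat.prime_dvd_prime_iff_eq Nat.prime_two hp).1 h).symm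
  have hfib : ∀ δ k, (univ.filter (fun g => pd (H := K4) (p := p) δ g = k)).card = p := by
    intro δ k
    have h1 := card_fiber (pd (H := K4) δ) (pd_surj δ) k
    have c0 : Fintype.card K4 = 4 := rfl
    have c1 : Fintype.card (K4 × ZMod p) = 4 * p := by
      rw [Fintype.card_prod K4 (ZMod p), ZMod.card p, c0]
    have c2 : Fintype.card (K4 × (ZMod p × ZMod p)) = p * (4 * p) := by
      rw [Fintype.card_prod K4 (ZMod p × ZMod p), Fintype.card_prod (ZMod p) (ZMod p), ZMod.card p,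
        c0]
      ring
    rw [c1, c2] at h1
    exact Nat.eq_of_mul_eq_mul_right (Nat.mul_pos (by norm_num) hp.pos) h1
  have hoddδ : ∀ δ g, ¬ (2 : ℤ) ∣ push (pd (H := K4) δ) F g := fun δ =>
    push_odd _ F hodd (fun k => by rw [hfib]; exact hpodd)
  have hcorδ : ∀ δ, Cor (push (pd (H := K4) δ) F) (4 * (p : ℤ) ^ 2 * v ^ 2) := fun δ => hF.push _
  have hdvdδ : ∀ δ h y, (p : ℤ) ∣ push (pd (H := K4) δ) F (h, y) -
      push (pd (H := K4) δ) F (h, 0) := by
    intro δ h y
    have h1 := Lev.diff_p (p := p) (H := K4) 1 one_ne_zero (fun h => neg_K4 h 1 p hpodd) (α := 1)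
      (hcorδ δ) (by rw [mul_one]; exact ⟨4 * v ^ 2, by ring⟩) h y
    rwa [pow_one] at h1
  set c : Fin 4 → Option (ZMod p) → ZMod p → ℤ := fun κ δ y =>
    Kl.comp4 (f4 (push (pd (H := K4) δ) F)) κ y with hc
  have hflip : ∀ δ, Odd (univ.filter (fun κ => ¬ (p : ℤ) ∣ c κ δ 0)).card := fun δ =>
    Kl.odd_flips hp2 hv2 hvp hkl _ (fun k y => hoddδ δ _) (fun k y => hdvdδ δ _ y)
      (fun κ d => cor_comp4 (hcorδ δ) κ d)
  -- total sums
  set T : Fin 4 → ℤ := fun κ => ∑ k, Kl.chr κ k * ∑ z, F (idx k, z) with hT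
  have hsumδ : ∀ κ δ, ∑ y, c κ δ y = T κ := by
    intro κ δ
    simp only [hc, Kl.comp4, hT]
    rw [Finset.sum_comm]
    refine Finset.sum_congr rfl fun k _ => ?_
    rw [← Finset.mul_sum]
    congr 1
    simp only [f4]
    unfold push
    rw [Finset.sum_comm, Fintype.sum_prod_type, Finset.sum_eq_single (idx k)]
    · refine Finset.sum_congr rfl fun z _ => ?_
      rw [Finset.sum_eq_single (dir δ z)]
      · rw [if_pos]; rfl
      · intro y _ hy
        rw [if_neg]
        intro h0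
        exact hy (Prod.ext_iff.1 h0).2.symm
      · intro h; exact absurd (Finset.mem_univ _) h
    · intro h' _ hh'
      refine Finset.sum_eq_zero fun z _ => Finset.sum_eq_zero fun y _ => ?_
      rw [if_neg]
      intro h0
      exact hh' (Prod.ext_iff.1 h0).1
    · intro h; exact absurd (Finset.mem_univ _) h
  have hTsq : ∀ κ, T κ ^ 2 = 4 * (p : ℤ) ^ 2 * v ^ 2 := by
    intro κ
    rw [← hsumδ κ none]
    have h2 : ∑ d, ∑ y, c κ none y * c κ none (y + d) = (∑ y, c κ none y) ^ 2 := by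
      rw [Finset.sum_comm, sq, Finset.sum_mul]
      refine Finset.sum_congr rfl fun g _ => ?_
      rw [← Finset.mul_sum]
      congr 1
      exact Equiv.sum_comp (Equiv.addLeft g) (c κ none)
    rw [← h2, Finset.sum_congr rfl fun d _ => cor_comp4 (hcorδ none) κ d, Finset.sum_ite_eq']
    simp
  have hTs : ∀ κ, ∃ σ : ℤ, T κ = p * σ ∧ ¬ (p : ℤ) ∣ 2 * σ := by
    intro κ
    have h2 : T κ ^ 2 = (2 * p * v) ^ 2 := by rw [hTsq κ]; ring
    have h3 : ¬ (p : ℤ) ∣ 2 * (2 * v) := by
      intro h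
      have h5 : ¬ (p : ℤ) ∣ 2 := by
        intro h6
        have := Int.le_of_dvd (by norm_num) h6
        omega
      rcases hpZ.dvd_or_dvd h with h | h
      · exact h5 h
      · rcases hpZ.dvd_or_dvd h with h | h
        · exact h5 h
        · exact hvp h
    rcases sq_eq_sq_iff_eq_or_eq_neg.1 h2 with h | h
    · exact ⟨2 * v, by rw [h]; ring, h3⟩
    · refine ⟨-(2 * v), by rw [h]; ring, fun h4 => h3 ?_⟩
      have := dvd_neg.2 h4
      have e : -(2 * -(2 * v)) = 2 * (2 * v) := by ring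
      rwa [e] at this
  choose σ hσ1 hσ2 using hTs
  have hval : ∀ κ δ, (p : ℤ) ∣ c κ δ 0 ∨ (p : ℤ) ∣ c κ δ 0 - 2 * σ κ := by
    intro κ δ
    have h1 := val_mod (f := c κ δ) (N := 4 * (p : ℤ) ^ 2 * v ^ 2) (σ := σ κ)
      (by
        intro y
        simp only [hc, Kl.comp4]
        rw [← Finset.sum_sub_distrib]
        refine Finset.dvd_sum fun k _ => ?_
        rw [← mul_sub]
        exact Dvd.dvd.mul_left (hdvdδ δ _ y) _)
      (by rw [hsumδ, hσ1]) (fun d => cor_comp4 (hcorδ δ) κ d)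
    rcases hpZ.dvd_or_dvd h1 with h | h
    · left; exact h
    · right
      have := dvd_neg.2 h
      rwa [neg_sub] at this
  have hsumc : ∀ κ, (p : ℤ) ∣ ∑ δ, c κ δ 0 := by
    intro κ
    have e1 : ∑ δ, c κ δ 0 = p * (∑ k, Kl.chr κ k * F (idx k, 0)) + T κ := by
      simp only [hc, Kl.comp4, hT]
      rw [Finset.sum_comm, Finset.mul_sum, ← Finset.sum_add_distrib]
      refine Finset.sum_congr rfl fun k _ => ?_
      rw [← Finset.mul_sum]
      simp only [f4]
      rw [sum_dir]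
      ring
    rw [e1, hσ1]
    exact dvd_add (Dvd.intro _ rfl) (Dvd.intro _ rfl)
  refine comb hp5 (fun κ δ => ¬ (p : ℤ) ∣ c κ δ 0) (fun δ => ?_) (fun κ => ?_)
  · rw [Nat.card_eq_fintype_card, Fintype.card_subtype]
    exact hflip δ
  · rw [Nat.card_eq_fintype_card, Fintype.card_subtype]
    set n := (univ.filter (fun δ => ¬ (p : ℤ) ∣ c κ δ 0)).card with hn
    have h1 : (p : ℤ) ∣ ∑ δ, (c κ δ 0 - (if ¬ (p : ℤ) ∣ c κ δ 0 then 2 * σ κ else 0)) := by
      refine Finset.dvd_sum fun δ _ => ?_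
      by_cases h : (p : ℤ) ∣ c κ δ 0
      · rw [if_neg (not_not.2 h), sub_zero]; exact h
      · rw [if_pos h]
        exact (hval κ δ).resolve_left h
    rw [Finset.sum_sub_distrib, ← Finset.sum_filter, Finset.sum_const, nsmul_eq_mul] at h1
    have h2 : (p : ℤ) ∣ (n : ℤ) * (2 * σ κ) := by
      have := dvd_sub (hsumc κ) h1
      rwa [sub_sub_cancel] at this
    rcases hpZ.dvd_or_dvd h2 with h | h
    · exact_mod_cast h
    · exact absurd h (hσ2 κ)

/-- **Rank one.** -/
theorem rank_one (hp2 : p ≠ 2) {v : ℤ} (hv2 : ¬ (2 : ℤ) ∣ v) (hvp : ¬ (p : ℤ) ∣ v)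
    (hkl : Kl.KLP p v) (F : K4 × ZMod p → ℤ) (hodd : ∀ g, ¬ (2 : ℤ) ∣ F g)
    (hF : Cor F (4 * v ^ 2)) : False := by
  classical
  have hp : p.Prime := Fact.out
  have hpodd : ¬ 2 ∣ p := fun h => hp2 ((Nat.prime_dvd_prime_iff_eq Nat.prime_two hp).1 h).symm
  have hF' := hF.smul (p : ℤ)
  have h1 := Kl.odd_flips hp2 hv2 hvp hkl (f4 (fun g => (p : ℤ) * F g))
    (by
      intro k y h
      rcases Int.prime_two.dvd_or_dvd h with h | h
      · exact hpodd (by exact_mod_cast h)
      · exact hodd _ h)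
    (by
      intro k y
      exact dvd_sub (Dvd.intro _ rfl) (Dvd.intro _ rfl))
    (by
      intro κ d
      have h2 := cor_comp4 hF' κ d
      rw [h2]
      refine if_congr Iff.rfl (by ring) rfl)
  have h2 : univ.filter (fun κ => ¬ (p : ℤ) ∣ Kl.comp4 (f4 (fun g => (p : ℤ) * F g)) κ 0) = ∅ := by
    rw [Finset.filter_eq_empty_iff]
    intro κ _
    rw [not_not]
    simp only [Kl.comp4, f4]
    refine Finset.dvd_sum fun k _ => ?_
    exact Dvd.dvd.mul_left (Dvd.intro _ rfl) _
  rw [h2] at h1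
  simp at h1

end Dir

end Run7.h595
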