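import Mathlib
import Pool.Agent.Run7.h595.Dir

set_option autoImplicit false
set_option linter.unusedSectionVars false

/-!
Nonexistence for `s ≡ t ≡ 2 (mod 4)`.
-/

namespace Run7.h595

open Finset

/-- regularity of the key lemma from the arithmetic hypothesis -/
theorem klp_of {p : ℕ} [Fact p.Prime] (hp2 : p ≠ 2) {v : ℕ} (hv0 : v ≠ 0) (hv2 : ¬ 2 ∣ v)
    (hvp : ¬ p ∣ v)
    (hq : ∀ q : ℕ, q.Prime → q ∣ v → (∃ j : ℕ, p ∣ q ^ j + 1) ∨ (p % 4 = 3 ∧ q % 4 = 1)) :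
    Kl.KLP p (v : ℤ) := by
  have hp : p.Prime := Fact.out
  have hpodd : p % 2 = 1 := by
    have := hp.eq_one_or_self_of_dvd 2
    omega
  have hcase : p % 4 = 1 ∨ p % 4 = 3 := by omega
  have hvZ : (v : ℤ) ≠ 0 := by exact_mod_cast hv0
  have hv2Z : ¬ (2 : ℤ) ∣ (v : ℤ) := by exact_mod_cast hv2
  have hvpZ : ¬ (p : ℤ) ∣ (v : ℤ) := by exact_mod_cast hvp
  rcases hcase with hp4 | hp4
  · intro X Y h0 h1 h2 h3 hXX ε hε hr
    have hp5 : 5 ≤ p := by
      have := hp.two_le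
      omega
    refine Kl.kl1 hp5 hv0 hv2 (fun q hqp hqv => ?_) X Y h0 h1 h2 h3 hXX ε hε hr
    rcases hq q hqp hqv with ⟨j, hj⟩ | ⟨h, _⟩
    · refine ⟨j, ?_, hj⟩
      rintro rfl
      rw [pow_zero] at hj
      have := Nat.le_of_dvd (by norm_num) hj
      omega
    · omega
  · intro X Y h0 h1 h2 h3 hXX ε hε hr
    refine Kl.kl2 hp4 hvZ hv2Z hvpZ (fun q hqp hqv hz => ?_) X Y h0 h1 h2 h3 hXX ε hε hr
    have hqv' : q ∣ v := by exact_mod_cast hqv
    rcases hq q hqp hqv' with ⟨j, hj⟩ | ⟨_, h⟩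
    · have : Fact q.Prime := ⟨hqp⟩
      have hq2 : q ≠ 2 := by rintro rfl; exact hv2 hqv'
      have hqp' : q ≠ p := by rintro rfl; exact hvp hqv'
      have hqodd : q % 2 = 1 := by
        have := hqp.eq_one_or_self_of_dvd 2
        omega
      by_contra hq4
      have hq3 : q % 4 = 3 := by omega
      obtain ⟨z, hz⟩ := hz
      -- `p` is not a square modulo `q`
      have hpq0 : (p : ZMod q) ≠ 0 := by
        rw [Ne, ZMod.natCast_eq_zero_iff]
        intro h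
        exact hqp' ((Nat.prime_dvd_prime_iff_eq hqp hp).1 h)
      have hns : ¬ IsSquare (p : ZMod q) := by
        rintro ⟨w, hw⟩
        have hw0 : w ≠ 0 := by
          rintro rfl
          exact hpq0 (by rw [hw]; simp)
        have : IsSquare (-1 : ZMod q) := by
          refine ⟨z / w, ?_⟩
          field_simp
          rw [hz, hw]
          ring
        exact (ZMod.exists_sq_eq_neg_one_iff.1 this) hq3
      have hsq : IsSquare (q : ZMod p) :=
        (ZMod.exists_sq_eq_prime_iff_of_mod_four_eq_three hp4 hq3 (Ne.symm hqp')).2 hns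
      obtain ⟨w, hw⟩ := hsq
      have h5 := (ZMod.natCast_eq_zero_iff (q ^ j + 1) p).2 hj
      push_cast at h5
      have : IsSquare (-1 : ZMod p) := by
        refine ⟨w ^ j, ?_⟩
        rw [← mul_pow, ← hw]
        linear_combination -h5
      exact (ZMod.exists_sq_eq_neg_one_iff.1 this) hp4
    · exact h

theorem PBA.symm {s t : ℕ} (h : PBA s t) : PBA t s := by
  rw [PBA_iff] at *
  obtain ⟨i1, i2, A, hA⟩ := h
  exact ⟨i2, i1, _, hA.comp AddEquiv.prodComm⟩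

variable {p : ℕ} [Fact p.Prime]

/-- the projection of the complement of the `p`-part to the group of order four -/
def toK {s t : ℕ} (hs : 2 ∣ s) (ht : 2 ∣ t) (P : Type) [AddCommGroup P] :
    (ZMod s × ZMod t) × P →+ Dir.K4 × P :=
  AddMonoidHom.prodMap (AddMonoidHom.prodMap (ZMod.castHom hs (ZMod 2)).toAddMonoidHom
    (ZMod.castHom ht (ZMod 2)).toAddMonoidHom) (AddMonoidHom.id P)

theorem toK_surj {s t : ℕ} (hs : 2 ∣ s) (ht : 2 ∣ t) (P : Type) [AddCommGroup P] :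
    Function.Surjective (toK hs ht P) := by
  rintro ⟨⟨a, b⟩, c⟩
  obtain ⟨a', ha'⟩ := ZMod.castHom_surjective hs a
  obtain ⟨b', hb'⟩ := ZMod.castHom_surjective ht b
  exact ⟨((a', b'), c), Prod.ext (Prod.ext ha' hb') rfl⟩

/-- group form -/
theorem core {s t x y α v : ℕ} [NeZero s] [NeZero t] (hs : s % 4 = 2) (ht : t % 4 = 2)
    (hp2 : p ≠ 2) (hα : x + y = 2 * α) (hα0 : α ≠ 0) (hst : s * t = 4 * v ^ 2)
    (hv2 : ¬ 2 ∣ v) (hvp : ¬ p ∣ v) (h3 : 5 ≤ p ∨ x = 0) (hkl : Kl.KLP p (v : ℤ))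
    (A : (ZMod s × ZMod t) × (ZMod (p ^ x) × ZMod (p ^ y)) → ℤ) (hA : Perf A) (hy : y ≠ 0) :
    False := by
  classical
  have hp : p.Prime := Fact.out
  have hs2 : 2 ∣ s := by omega
  have ht2 : 2 ∣ t := by omega
  have hpZ : Prime (p : ℤ) := Nat.prime_iff_prime_int.1 hp
  have hpodd : ¬ 2 ∣ p := fun h => hp2 ((Nat.prime_dvd_prime_iff_eq Nat.prime_two hp).1 h).symm
  have hpoddZ : ¬ (2 : ℤ) ∣ (p : ℤ) := by exact_mod_cast hpodd
  have hpowodd : ∀ k : ℕ, ¬ 2 ∣ p ^ k := fun k h => hpodd (Nat.prime_two.dvd_of_dvd_pow h)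
  have hv2Z : ¬ (2 : ℤ) ∣ (v : ℤ) := by exact_mod_cast hv2
  have hvpZ : ¬ (p : ℤ) ∣ (v : ℤ) := by exact_mod_cast hvp
  set f := toK hs2 ht2 (ZMod (p ^ x) × ZMod (p ^ y)) with hf
  set F := push f A with hF
  have hcard : Fintype.card ((ZMod s × ZMod t) × (ZMod (p ^ x) × ZMod (p ^ y))) =
      v ^ 2 * (4 * (p ^ x * p ^ y)) := by
    rw [Fintype.card_prod, Fintype.card_prod, Fintype.card_prod, ZMod.card, ZMod.card, ZMod.card,
      ZMod.card, hst]
    ring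
  have hfib : ∀ k, (univ.filter (fun g => f g = k)).card = v ^ 2 := by
    intro k
    have h1 := card_fiber f (toK_surj _ _ _) k
    have c2 : Fintype.card (Dir.K4 × (ZMod (p ^ x) × ZMod (p ^ y))) = 4 * (p ^ x * p ^ y) := by
      rw [Fintype.card_prod Dir.K4 _, Fintype.card_prod (ZMod (p ^ x)) _, ZMod.card, ZMod.card]
      rfl
    rw [hcard, c2] at h1
    exact Nat.eq_of_mul_eq_mul_right (Nat.mul_pos (by norm_num)
      (Nat.mul_pos (pow_pos hp.pos _) (pow_pos hp.pos _))) h1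
  have hodd : ∀ g, ¬ (2 : ℤ) ∣ F g := by
    apply push_odd
    · intro g h
      rcases hA.1 g with h1 | h1 <;> rw [h1] at h <;> norm_num at h
    · intro k
      rw [hfib]
      exact fun h => hv2 (Nat.prime_two.dvd_of_dvd_pow h)
  have hcor : Cor F (4 * (p : ℤ) ^ (2 * α) * (v : ℤ) ^ 2) := by
    have h1 := hA.cor.push f
    have h2 : ((Fintype.card ((ZMod s × ZMod t) × (ZMod (p ^ x) × ZMod (p ^ y))) : ℕ) : ℤ) =
        4 * (p : ℤ) ^ (2 * α) * (v : ℤ) ^ 2 := by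
      rw [hcard, ← hα]
      push_cast
      ring
    rwa [h2] at h1
  have hN : (p : ℤ) ^ (2 * α) ∣ 4 * (p : ℤ) ^ (2 * α) * (v : ℤ) ^ 2 :=
    ⟨4 * (v : ℤ) ^ 2, by ring⟩
  obtain ⟨b, rfl⟩ : ∃ b, y = b + 1 := ⟨y - 1, by omega⟩
  rcases Nat.eq_zero_or_pos x with hx | hx
  · subst hx
    -- rank one
    have h1 := Lev.level_one' (H := Dir.K4) (p := p) 1 one_ne_zero
      (fun h => Dir.neg_K4 h 1 p hpodd) (b := b) (α := α) (by omega) hcor hN
    choose F1 hF1 using h1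
    have hcor' := hcor.push (Lev.R0 p Dir.K4 b)
    have hc1 : Cor F1 (4 * (v : ℤ) ^ 2) := by
      refine Cor.div (pow_ne_zero α hpZ.ne_zero) ?_ hF1
      have e : ((p : ℤ) ^ α) ^ 2 * (4 * (v : ℤ) ^ 2) = 4 * (p : ℤ) ^ (2 * α) * (v : ℤ) ^ 2 := by
        rw [← pow_mul, mul_comm α 2]; ring
      rw [e]
      exact hcor'
    refine Dir.rank_one hp2 hv2Z hvpZ hkl F1 (fun g h => ?_) hc1
    have h2 : ¬ (2 : ℤ) ∣ push (Lev.R0 p Dir.K4 b) F g := by
      refine push_odd _ F hodd (fun k => ?_) g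
      have hsurj : Function.Surjective (Lev.R0 p Dir.K4 b) := by
        rintro ⟨h, z⟩
        obtain ⟨z', hz'⟩ := Red.cp_surj p b z
        exact ⟨(h, (0, z')), Prod.ext rfl hz'⟩
      have h3 := card_fiber (Lev.R0 p Dir.K4 b) hsurj k
      have c1 : Fintype.card (Dir.K4 × ZMod p) = 4 * p := by
        rw [Fintype.card_prod Dir.K4 (ZMod p), ZMod.card p]; rfl
      have c2 : Fintype.card (Dir.K4 × (ZMod (p ^ 0) × ZMod (p ^ (b + 1)))) =
          p ^ b * (4 * p) := by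
        rw [Fintype.card_prod Dir.K4 _, Fintype.card_prod (ZMod (p ^ 0)) _, ZMod.card, ZMod.card,
          pow_succ]
        change 4 * _ = _
        ring
      rw [c1, c2] at h3
      have h4 := Nat.eq_of_mul_eq_mul_right (Nat.mul_pos (by norm_num) hp.pos) h3
      rw [h4]
      exact hpowodd b
    apply h2
    rw [hF1]
    exact Dvd.dvd.mul_left h _
  · -- rank two
    obtain ⟨a, rfl⟩ : ∃ a, x = a + 1 := ⟨x - 1, by omega⟩
    have hp5 : 5 ≤ p := h3.resolve_right (by omega)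
    have h1 := Lev.level_one (H := Dir.K4) (p := p) 1 one_ne_zero
      (fun h => Dir.neg_K4 h 1 p hpodd) (a := a) (b := b) (α := α) (by omega) hcor hN
    choose F1 hF1 using h1
    have hcor' := hcor.push (Lev.R1 p Dir.K4 a b)
    have hc1 : Cor F1 (4 * (p : ℤ) ^ 2 * (v : ℤ) ^ 2) := by
      refine Cor.div (pow_ne_zero (α - 1) hpZ.ne_zero) ?_ hF1
      have e : ((p : ℤ) ^ (α - 1)) ^ 2 * (4 * (p : ℤ) ^ 2 * (v : ℤ) ^ 2) =
          4 * (p : ℤ) ^ (2 * α) * (v : ℤ) ^ 2 := by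
        have e1 : (p : ℤ) ^ (2 * α) = ((p : ℤ) ^ (α - 1)) ^ 2 * (p : ℤ) ^ 2 := by
          rw [← pow_mul, ← pow_add]; congr 1; omega
        rw [e1]; ring
      rw [e]
      exact hcor'
    refine Dir.rank_two hp5 hv2Z hvpZ hkl F1 (fun g h => ?_) hc1
    have h2 : ¬ (2 : ℤ) ∣ push (Lev.R1 p Dir.K4 a b) F g := by
      refine push_odd _ F hodd (fun k => ?_) g
      have hsurj : Function.Surjective (Lev.R1 p Dir.K4 a b) := by
        rintro ⟨h, z, w⟩
        obtain ⟨z', hz'⟩ := Red.cp_surj p a z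
        obtain ⟨w', hw'⟩ := Red.cp_surj p b w
        exact ⟨(h, (z', w')), Prod.ext rfl (Prod.ext hz' hw')⟩
      have h3 := card_fiber (Lev.R1 p Dir.K4 a b) hsurj k
      have c1 : Fintype.card (Dir.K4 × (ZMod p × ZMod p)) = 4 * (p * p) := by
        rw [Fintype.card_prod Dir.K4 (ZMod p × ZMod p), Fintype.card_prod (ZMod p) (ZMod p),
          ZMod.card p]
        rfl
      have c2 : Fintype.card (Dir.K4 × (ZMod (p ^ (a + 1)) × ZMod (p ^ (b + 1)))) =
          (p ^ (a + b)) * (4 * (p * p)) := by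
        rw [Fintype.card_prod Dir.K4 _, Fintype.card_prod (ZMod (p ^ (a + 1))) _, ZMod.card,
          ZMod.card, pow_succ, pow_succ, pow_add]
        change 4 * _ = _
        ring
      rw [c1, c2] at h3
      have h4 := Nat.eq_of_mul_eq_mul_right
        (Nat.mul_pos (by norm_num) (Nat.mul_pos hp.pos hp.pos)) h3
      rw [h4]
      exact hpowodd _
    apply h2
    rw [hF1]
    exact Dvd.dvd.mul_left h _

/-- **Nonexistence** for `s ≡ t ≡ 2 (mod 4)`, case `p ∣ t`. -/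
theorem no_pba_aux {s t : ℕ} (hs : s % 4 = 2) (ht : t % 4 = 2) (hp2 : p ≠ 2) (hpt : p ∣ t)
    (h3 : 5 ≤ p ∨ ¬ p ∣ s)
    (hq : ∀ q : ℕ, q.Prime → q ≠ 2 → q ≠ p → q ∣ s * t →
      (∃ j : ℕ, p ∣ q ^ j + 1) ∨ (p % 4 = 3 ∧ q % 4 = 1)) : ¬ PBA s t := by
  intro h
  have hp : p.Prime := Fact.out
  obtain ⟨hs0, ht0⟩ := h.ne
  obtain ⟨m, hm⟩ := h.sq
  have hpodd : ¬ 2 ∣ p := fun h => hp2 ((Nat.prime_dvd_prime_iff_eq Nat.prime_two hp).1 h).symm
  set x := s.factorization p with hx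
  set y := t.factorization p with hy
  have hs' : p ^ x * ordCompl[p] s = s := Nat.ordProj_mul_ordCompl_eq_self s p
  have ht' : p ^ y * ordCompl[p] t = t := Nat.ordProj_mul_ordCompl_eq_self t p
  have hcs : Nat.Coprime p (ordCompl[p] s) := Nat.coprime_ordCompl hp hs0
  have hct : Nat.Coprime p (ordCompl[p] t) := Nat.coprime_ordCompl hp ht0
  set s' := ordCompl[p] s with hs'd
  set t' := ordCompl[p] t with ht'd
  have hs1 : s' ≠ 0 := (Nat.ordCompl_pos p hs0).ne'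
  have ht1 : t' ≠ 0 := (Nat.ordCompl_pos p ht0).ne'
  have hm0 : m ≠ 0 := by
    rintro rfl
    exact mul_ne_zero hs0 ht0 (by rw [hm]; simp)
  have hy0 : y ≠ 0 := by
    have := hp.factorization_pos_of_dvd ht0 hpt
    omega
  -- residues modulo 4
  have hmod : ∀ k r : ℕ, (p ^ k * r) % 4 = 2 → r % 4 = 2 := by
    intro k r h1
    have h2 : ¬ 2 ∣ p ^ k := fun h => hpodd (Nat.prime_two.dvd_of_dvd_pow h)
    have h3 : p ^ k % 4 = 1 ∨ p ^ k % 4 = 3 := by omega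
    have h4 : r % 4 = 0 ∨ r % 4 = 1 ∨ r % 4 = 2 ∨ r % 4 = 3 := by omega
    rw [Nat.mul_mod] at h1
    rcases h3 with h3 | h3 <;> rcases h4 with h4 | h4 | h4 | h4 <;> rw [h3, h4] at h1 <;>
      first | exact h4 | (norm_num at h1)
  have hs4 : s' % 4 = 2 := hmod x s' (by rw [hs']; exact hs)
  have ht4 : t' % 4 = 2 := hmod y t' (by rw [ht']; exact ht)
  -- the square root
  set α := m.factorization p with hα
  have hm' : p ^ α * ordCompl[p] m = m := Nat.ordProj_mul_ordCompl_eq_self m p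
  have hcm : Nat.Coprime p (ordCompl[p] m) := Nat.coprime_ordCompl hp hm0
  set m' := ordCompl[p] m with hm'd
  have hxy : x + y = 2 * α := by
    have h1 := congrArg (fun n : ℕ => n.factorization p) hm
    simp only [Nat.factorization_mul hs0 ht0, Nat.factorization_pow, Finsupp.add_apply,
      Finsupp.smul_apply, smul_eq_mul] at h1
    exact h1
  have hst' : s' * t' = m' ^ 2 := by
    have h1 : p ^ (2 * α) * (s' * t') = p ^ (2 * α) * m' ^ 2 := by
      calc p ^ (2 * α) * (s' * t') = (p ^ x * s') * (p ^ y * t') := by rw [← hxy]; ring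
        _ = (p ^ α * m') ^ 2 := by rw [hs', ht', hm', hm]
        _ = p ^ (2 * α) * m' ^ 2 := by ring
    exact Nat.eq_of_mul_eq_mul_left (pow_pos hp.pos _) h1
  have hm'2 : 2 ∣ m' := by
    have h1 : 2 ∣ m' ^ 2 := by
      rw [← hst']
      exact Dvd.dvd.mul_right (by omega) _
    exact Nat.prime_two.dvd_of_dvd_pow h1
  obtain ⟨v, hv⟩ := hm'2
  have hst4 : s' * t' = 4 * v ^ 2 := by rw [hst', hv]; ring
  have hv2 : ¬ 2 ∣ v := by
    rintro ⟨w, hw⟩
    obtain ⟨a, ha⟩ : ∃ a, s' = 4 * a + 2 := ⟨s' / 4, by omega⟩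
    obtain ⟨b, hb⟩ : ∃ b, t' = 4 * b + 2 := ⟨t' / 4, by omega⟩
    rw [ha, hb, hw] at hst4
    have h1 : (4 * a + 2) * (4 * b + 2) = 16 * (a * b) + 8 * a + 8 * b + 4 := by ring
    have h2 : 4 * (2 * w) ^ 2 = 16 * w ^ 2 := by ring
    rw [h1, h2] at hst4
    omega
  have hvp : ¬ p ∣ v := by
    intro h1
    have h2 : p ∣ m' := by rw [hv]; exact Dvd.dvd.mul_left h1 2
    exact (Nat.Prime.coprime_iff_not_dvd hp).1 hcm h2
  have hv0 : v ≠ 0 := by
    rintro rfl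
    exact hv2 (dvd_zero 2)
  have hkl : Kl.KLP p (v : ℤ) := klp_of hp2 hv0 hv2 hvp (fun q hqp hqv => by
    refine hq q hqp ?_ ?_ ?_
    · rintro rfl; exact hv2 hqv
    · rintro rfl; exact hvp hqv
    · have h1 : q ∣ s' * t' := by
        rw [hst4]
        exact Dvd.dvd.mul_left (Dvd.dvd.pow hqv two_ne_zero) 4
      refine h1.trans (Nat.mul_dvd_mul ?_ ?_)
      · exact Nat.ordCompl_dvd s p
      · exact Nat.ordCompl_dvd t p)
  have i1 : NeZero s' := ⟨hs1⟩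
  have i2 : NeZero t' := ⟨ht1⟩
  have h' : PBA (p ^ x * s') (p ^ y * t') := by rw [hs', ht']; exact h
  rw [PBA_split p x y s' t' hcs hct] at h'
  obtain ⟨A, hA⟩ := h'
  refine core hs4 ht4 hp2 hxy (by omega) hst4 hv2 hvp ?_ hkl A hA hy0
  rcases h3 with h3 | h3
  · left; exact h3
  · right
    rw [hx]
    exact Nat.factorization_eq_zero_of_not_dvd h3

/-- **Nonexistence** for `s ≡ t ≡ 2 (mod 4)`. -/
theorem no_pba {s t p : ℕ} (hs : s % 4 = 2) (ht : t % 4 = 2) (hp : p.Prime) (hp2 : p ≠ 2)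
    (hpst : p ∣ s * t) (h3 : 5 ≤ p ∨ ¬ p ∣ Nat.gcd s t)
    (hq : ∀ q : ℕ, q.Prime → q ≠ 2 → q ≠ p → q ∣ s * t →
      (∃ j : ℕ, p ∣ q ^ j + 1) ∨ (p % 4 = 3 ∧ q % 4 = 1)) : ¬ PBA s t := by
  have : Fact p.Prime := ⟨hp⟩
  by_cases hpt : p ∣ t
  · refine no_pba_aux hs ht hp2 hpt ?_ hq
    rcases h3 with h3 | h3
    · left; exact h3
    · right
      intro h
      exact h3 (Nat.dvd_gcd h hpt)
  · have hps : p ∣ s := ((Nat.Prime.dvd_mul hp).1 hpst).resolve_right hpt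
    intro h
    refine no_pba_aux ht hs hp2 hps (Or.inr hpt) ?_ h.symm
    intro q h1 h2 h4 h5
    exact hq q h1 h2 h4 (by rwa [mul_comm])

end Run7.h595
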